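import Pool.Agent.Helper830.Weiss.Defs

set_option autoImplicit false

namespace Pool.Agent.Helper830.Weiss




/-- Abstract propagation lemma: a line emitted by the axis cell `(i0,i0)` and one emitted by the axis cell `(j0,j0)` meet
in the cell `(i0,j0)`. -/
theorem line_core (F : ℤ → ℤ → St) (src dst : St → Option Bool) (hs hd : St → Bool) (h : ℤ)
    (off1 : ∀ i j : ℤ, 0 ≤ i → i < j → j < h → ∀ b, src (F i j) = some b → dst (F i j) = some b)
    (off2 : ∀ i j : ℤ, 0 ≤ i → i < j → j < h → hs (F i j) = true → hd (F i j) = true)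
    (off3 : ∀ i j : ℤ, 0 ≤ i → i < j → j < h → ∀ b, dst (F i j) = some b →
      src (F i j) = some b ∨ hd (F i j) = true)
    (off4 : ∀ i j : ℤ, 0 ≤ i → i < j → j < h → hd (F i j) = true →
      hs (F i j) = true ∨ ∃ b, dst (F i j) = some b)
    (ver : ∀ i j : ℤ, 0 ≤ i → i ≤ j → j + 1 < h → src (F i j) = dst (F i (j + 1)))
    (hor : ∀ i j : ℤ, 0 ≤ i → i < j → j < h → hd (F i j) = hs (F (i + 1) j))
    (i0 j0 : ℤ) (h0 : 0 ≤ i0) (h1 : i0 < j0) (h2 : j0 < h) (b : Bool)
    (ax1 : ∀ k : ℤ, i0 < k → k < j0 → src (F k k) = none)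
    (ax2 : ∀ k : ℤ, i0 < k → k < j0 → hs (F k k) = false)
    (s0 : src (F i0 i0) = some b) (s1 : hs (F j0 j0) = true) :
    dst (F i0 j0) = some b ∧ hd (F i0 j0) = true := by
  have B : ∀ n : ℕ, ∀ k t : ℤ, t = k + 1 + n → 0 ≤ k → t < h → hd (F k t) = true →
      hs (F t t) = true := by
    intro n
    induction n with
    | zero =>
      intro k t ht hk hth hd'
      have h3 := hor k t hk (by push_cast at ht; omega) hth
      rw [hd'] at h3
      have e : k + 1 = t := by push_cast at ht; omega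
      rw [e] at h3
      exact h3.symm
    | succ n ih =>
      intro k t ht hk hth hd'
      push_cast at ht
      have h3 := hor k t hk (by omega) hth
      rw [hd'] at h3
      exact ih (k + 1) t (by omega) (by omega) hth
        (off2 (k + 1) t (by omega) (by omega) hth h3.symm)
  have C : ∀ n : ℕ, ∀ k t : ℤ, t = k + 1 + n → 0 ≤ k → t < h → ∀ c, dst (F k t) = some c →
      src (F k k) = some c := by
    intro n
    induction n with
    | zero =>
      intro k t ht hk hth c hc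
      have e : t = k + 1 := by push_cast at ht; omega
      subst e
      rw [ver k k hk le_rfl hth]
      exact hc
    | succ n ih =>
      intro k t ht hk hth c hc
      push_cast at ht
      have h3 := ver k (t - 1) hk (by omega) (by omega)
      have e : t - 1 + 1 = t := by omega
      rw [e, hc] at h3
      exact ih k (t - 1) (by omega) hk (by omega) c
        (off1 k (t - 1) hk (by omega) (by omega) c h3)
  have A : ∀ n : ℕ, i0 + n < j0 → src (F i0 (i0 + n)) = some b := by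
    intro n
    induction n with
    | zero =>
      intro _
      simpa using s0
    | succ n ih =>
      intro hn
      push_cast at hn
      have h3 := ih (by omega)
      have h4 := ver i0 (i0 + n) h0 (by omega) (by omega)
      rw [h3] at h4
      have e : i0 + (n : ℤ) + 1 = i0 + ((n + 1 : ℕ) : ℤ) := by push_cast; ring
      rw [e] at h4
      rcases off3 i0 (i0 + ((n + 1 : ℕ) : ℤ)) h0 (by push_cast; omega) (by push_cast; omega) b h4.symm
        with h5 | h5
      · exact h5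
      · exfalso
        have h6 := B n i0 (i0 + ((n + 1 : ℕ) : ℤ)) (by push_cast; ring) h0
          (by push_cast; omega) h5
        rw [ax2 _ (by push_cast; omega) (by push_cast; omega)] at h6
        exact absurd h6 (by decide)
  have D : ∀ n : ℕ, i0 ≤ j0 - 1 - n → hd (F (j0 - 1 - n) j0) = true := by
    intro n
    induction n with
    | zero =>
      intro _
      have h3 := hor (j0 - 1) j0 (by omega) (by omega) h2
      have e : j0 - 1 + 1 = j0 := by omega
      rw [e, s1] at h3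
      simpa using h3
    | succ n ih =>
      intro hn
      push_cast at hn
      have h3 := ih (by omega)
      have h4 : hs (F (j0 - 1 - n) j0) = true := by
        rcases off4 (j0 - 1 - n) j0 (by omega) (by omega) h2 h3 with h5 | ⟨c, h5⟩
        · exact h5
        · exfalso
          have h6 := C n (j0 - 1 - n) j0 (by ring) (by omega) h2 c h5
          rw [ax1 _ (by omega) (by omega)] at h6
          exact absurd h6 (by simp)
      have h7 := hor (j0 - 1 - ((n + 1 : ℕ) : ℤ)) j0 (by push_cast; omega) (by push_cast; omega) h2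
      have e : j0 - 1 - ((n + 1 : ℕ) : ℤ) + 1 = j0 - 1 - n := by push_cast; ring
      rw [e, h4] at h7
      exact h7
  constructor
  · have h3 := A (j0 - 1 - i0).toNat (by omega)
    have e : i0 + ((j0 - 1 - i0).toNat : ℤ) = j0 - 1 := by omega
    rw [e] at h3
    have h4 := ver i0 (j0 - 1) h0 (by omega) (by omega)
    have e2 : j0 - 1 + 1 = j0 := by omega
    rw [e2, h3] at h4
    exact h4.symm
  · have h3 := D (j0 - 1 - i0).toNat (by omega)
    have e : j0 - 1 - ((j0 - 1 - i0).toNat : ℤ) = i0 := by omega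
    rw [e] at h3
    exact h3

/-- The phases along the diagonal. -/
theorem phases (ph : ℕ → Ph) (N : ℕ) (h0 : ph 0 = Ph.p0 ∨ ∃ b, ph 0 = Ph.P1 b)
    (h1 : ph N = Ph.P2 ∨ ph N = Ph.p2)
    (hst : ∀ k : ℕ, k < N → step (ph k) (ph (k + 1)) = true) :
    ∃ i j : ℕ, i < j ∧ j ≤ N ∧ (∃ b, ph i = Ph.P1 b) ∧ ph j = Ph.P2 ∧
      ∀ k : ℕ, i < k → k < j → ph k = Ph.p1 := by
  classical
  have hex : ∃ k : ℕ, k ≤ N ∧ (ph k = Ph.P2 ∨ ph k = Ph.p2) := ⟨N, le_rfl, h1⟩
  obtain ⟨hj1, hj2⟩ := Nat.find_spec hex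
  have hjm : ∀ m : ℕ, m < Nat.find hex → ¬ (m ≤ N ∧ (ph m = Ph.P2 ∨ ph m = Ph.p2)) :=
    fun m hm => Nat.find_min hex hm
  generalize Nat.find hex = j at hj1 hj2 hjm
  have hj0 : j ≠ 0 := by
    rintro rfl
    rcases h0 with h0 | ⟨b, h0⟩ <;> rcases hj2 with hj2 | hj2 <;> rw [h0] at hj2 <;>
      exact absurd hj2 (by simp)
  obtain ⟨j', rfl⟩ := Nat.exists_eq_succ_of_ne_zero hj0
  have hno : ∀ m : ℕ, m < j' + 1 → ph m ≠ Ph.P2 ∧ ph m ≠ Ph.p2 := by
    intro m hm
    constructor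
    · intro hc
      exact hjm m hm ⟨by omega, Or.inl hc⟩
    · intro hc
      exact hjm m hm ⟨by omega, Or.inr hc⟩
  have hP2 : ph (j' + 1) = Ph.P2 := by
    rcases hj2 with hj2 | hj2
    · exact hj2
    · exfalso
      have h3 := hst j' (by omega)
      have h4 := hno j' (by omega)
      have hj2' : ph (j' + 1) = Ph.p2 := hj2
      rw [hj2'] at h3
      revert h3 h4
      generalize ph j' = q
      rcases q with _ | b | _ | _ | _ <;> simp [step]
  have hex2 : ∃ m : ℕ, m ≤ j' ∧ (ph (j' - m) = Ph.p0 ∨ ∃ b, ph (j' - m) = Ph.P1 b) :=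
    ⟨j', le_rfl, by simpa using h0⟩
  obtain ⟨hm1, hm2⟩ := Nat.find_spec hex2
  have hmm : ∀ m : ℕ, m < Nat.find hex2 →
      ¬ (m ≤ j' ∧ (ph (j' - m) = Ph.p0 ∨ ∃ b, ph (j' - m) = Ph.P1 b)) :=
    fun m hm => Nat.find_min hex2 hm
  generalize Nat.find hex2 = m at hm1 hm2 hmm
  have hmid : ∀ k : ℕ, j' - m < k → k < j' + 1 → ph k = Ph.p1 := by
    intro k hk1 hk2
    have h3 := hmm (j' - k) (by omega)
    have e : j' - (j' - k) = k := by omega
    rw [e] at h3
    have h4 := hno k hk2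
    have h5 : ph k ≠ Ph.p0 := fun hc => h3 ⟨by omega, Or.inl hc⟩
    have h6 : ∀ b, ph k ≠ Ph.P1 b := fun b hc => h3 ⟨by omega, Or.inr ⟨b, hc⟩⟩
    revert h4 h5 h6
    generalize ph k = q
    rcases q with _ | b | _ | _ | _ <;> simp
  refine ⟨j' - m, j' + 1, by omega, by omega, ?_, hP2, hmid⟩
  rcases hm2 with hm2 | hm2
  · exfalso
    have h3 := hst (j' - m) (by omega)
    rw [hm2] at h3
    have h4 : ph (j' - m + 1) = Ph.p1 ∨ ph (j' - m + 1) = Ph.P2 := by
      by_cases hc : m = 0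
      · right
        rw [hc]
        simpa using hP2
      · left
        exact hmid _ (by omega) (by omega)
    rcases h4 with h4 | h4 <;> rw [h4] at h3 <;> exact absurd h3 (by simp [step])
  · exact hm2

/-- Soundness: no point of `S` contains a block `[0,h)^2` with marked diagonal whose bits are symmetric about the
diagonal. -/
theorem no_symm (s : ℤ × ℤ → Vis) (hs : s ∈ S) (h : ℤ) (hh : 2 ≤ h) (v : ℤ × ℤ)
    (ha : s v = Vis.axis Ak.a) (hz : s (v + (h - 1, h - 1)) = Vis.axis Ak.z)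
    (hm : ∀ k : ℤ, 0 < k → k < h - 1 → s (v + (k, k)) = Vis.axis Ak.m)
    (hb : ∀ i j : ℤ, 0 ≤ i → i < j → j < h → ∃ b : Bool, s (v + (i, j)) = Vis.bit b ∧
      s (v + (j, i)) = Vis.bit b) : False := by
  obtain ⟨y, hy, hys⟩ := hs
  have e10 : ∀ i j : ℤ, v + (i, j) + (1, 0) = v + (i + 1, j) := by
    intro i j
    ext <;> simp [add_assoc]
  have e01 : ∀ i j : ℤ, v + (i, j) + (0, 1) = v + (i, j + 1) := by
    intro i j
    ext <;> simp [add_assoc]
  have e11 : ∀ i j : ℤ, v + (i, j) + (1, 1) = v + (i + 1, j + 1) := by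
    intro i j
    ext <;> simp [add_assoc]
  obtain ⟨Y, hY⟩ : ∃ Y : ℤ → ℤ → St, ∀ i j, Y i j = y (v + (i, j)) := ⟨_, fun _ _ => rfl⟩
  have r1 : ∀ i j, ok1 (Y i j) = true := fun i j => by rw [hY]; exact (hy _).1
  have rE : ∀ i j, okE (Y i j) (Y (i + 1) j) = true := fun i j => by
    rw [hY, hY, ← e10]; exact (hy _).2.1
  have rN : ∀ i j, okN (Y i j) (Y i (j + 1)) = true := fun i j => by
    rw [hY, hY, ← e01]; exact (hy _).2.2.1
  have rD : ∀ i j, okD (Y i j) (Y (i + 1) (j + 1)) = true := fun i j => by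
    rw [hY, hY, ← e11]; exact (hy _).2.2.2
  -- visible symbols
  have hup : ∀ i j : ℤ, 0 ≤ i → i < j → j < h → ∃ b l, Y i j = St.off b l := by
    intro i j hi hij hj
    obtain ⟨b, hb1, _⟩ := hb i j hi hij hj
    rw [hys, ← hY] at hb1
    revert hb1
    generalize Y i j = c
    rcases c with _ | ⟨b', l⟩ | ⟨k, p⟩ <;> simp [vis]
  have hlo : ∀ i j : ℤ, 0 ≤ i → i < j → j < h → ∃ b l, Y j i = St.off b l := by
    intro i j hi hij hj
    obtain ⟨b, _, hb1⟩ := hb i j hi hij hj
    rw [hys, ← hY] at hb1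
    revert hb1
    generalize Y j i = c
    rcases c with _ | ⟨b', l⟩ | ⟨k, p⟩ <;> simp [vis]
  have hvis_ax : ∀ (c : St) (k : Ak), vis c = Vis.axis k → ∃ p, c = St.ax k p := by
    intro c k
    rcases c with _ | ⟨b', l⟩ | ⟨k', p⟩ <;> simp [vis]
  have ha' : ∃ p, Y 0 0 = St.ax Ak.a p := by
    apply hvis_ax
    rw [hY, ← hys]
    have : v + ((0 : ℤ), (0 : ℤ)) = v := by ext <;> simp
    rw [this]
    exact ha
  have hz' : ∃ p, Y (h - 1) (h - 1) = St.ax Ak.z p := by
    apply hvis_ax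
    rw [hY, ← hys]
    exact hz
  have hm' : ∀ k : ℤ, 0 < k → k < h - 1 → ∃ p, Y k k = St.ax Ak.m p := by
    intro k hk1 hk2
    apply hvis_ax
    rw [hY, ← hys]
    exact hm k hk1 hk2
  have hall : ∀ k : ℤ, 0 ≤ k → k < h → ∃ kk p, Y k k = St.ax kk p ∧ (kk = Ak.z → k = h - 1) ∧
      (kk = Ak.a → k = 0) := by
    intro k hk1 hk2
    rcases eq_or_lt_of_le hk1 with hk0 | hk0
    · obtain ⟨p, hp⟩ := ha'
      refine ⟨Ak.a, p, by rw [← hk0]; exact hp, fun hc => absurd hc (by decide), fun _ => hk0.symm⟩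
    · by_cases hkh : k = h - 1
      · obtain ⟨p, hp⟩ := hz'
        refine ⟨Ak.z, p, by rw [hkh]; exact hp, fun _ => hkh, fun hc => absurd hc (by decide)⟩
      · obtain ⟨p, hp⟩ := hm' k hk0 (by omega)
        exact ⟨Ak.m, p, hp, fun hc => absurd hc (by decide), fun hc => absurd hc (by decide)⟩
  -- the phase function
  obtain ⟨ph, hph⟩ : ∃ ph : ℕ → Ph, ∀ k : ℕ, (k : ℤ) < h → ∃ kk, Y k k = St.ax kk (ph k) ∧
      (kk = Ak.z → (k : ℤ) = h - 1) ∧ (kk = Ak.a → (k : ℤ) = 0) := by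
    have : ∀ k : ℕ, ∃ p : Ph, (k : ℤ) < h → ∃ kk, Y k k = St.ax kk p ∧
        (kk = Ak.z → (k : ℤ) = h - 1) ∧ (kk = Ak.a → (k : ℤ) = 0) := by
      intro k
      by_cases hk : (k : ℤ) < h
      · obtain ⟨kk, p, hp⟩ := hall k (by omega) hk
        exact ⟨p, fun _ => ⟨kk, hp⟩⟩
      · exact ⟨Ph.p0, fun hc => absurd hc hk⟩
    choose ph hph using this
    exact ⟨ph, hph⟩
  have p0' : ph 0 = Ph.p0 ∨ ∃ b, ph 0 = Ph.P1 b := by
    obtain ⟨kk, hk1, _, _⟩ := hph 0 (by push_cast; omega)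
    obtain ⟨p, hp⟩ := ha'
    have hk1' : Y 0 0 = St.ax kk (ph 0) := by simpa using hk1
    have h3 : St.ax kk (ph 0) = St.ax Ak.a p := by rw [← hk1', hp]
    have h4 : ok1 (St.ax Ak.a (ph 0)) = true := by
      have h5 := r1 0 0
      rw [hk1'] at h5
      have h6 : kk = Ak.a := by injection h3
      rw [h6] at h5
      exact h5
    revert h4
    generalize ph 0 = q
    rcases q with _ | b | _ | _ | _ <;> simp [ok1]
  have hN : ((h - 1).toNat : ℤ) = h - 1 := by omega
  have p1' : ph (h - 1).toNat = Ph.P2 ∨ ph (h - 1).toNat = Ph.p2 := by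
    obtain ⟨kk, hk1, _, _⟩ := hph (h - 1).toNat (by omega)
    obtain ⟨p, hp⟩ := hz'
    rw [hN] at hk1
    have h3 : St.ax kk (ph (h - 1).toNat) = St.ax Ak.z p := by rw [← hk1, hp]
    have h4 : ok1 (St.ax Ak.z (ph (h - 1).toNat)) = true := by
      have h5 := r1 (h - 1) (h - 1)
      rw [hk1] at h5
      have h6 : kk = Ak.z := by injection h3
      rw [h6] at h5
      exact h5
    revert h4
    generalize ph (h - 1).toNat = q
    rcases q with _ | b | _ | _ | _ <;> simp [ok1]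
  have pst : ∀ k : ℕ, k < (h - 1).toNat → step (ph k) (ph (k + 1)) = true := by
    intro k hk
    obtain ⟨kk, hk1, hk2, _⟩ := hph k (by omega)
    obtain ⟨kk', hk1', _, hk3'⟩ := hph (k + 1) (by push_cast; omega)
    have h3 := rD k k
    push_cast at hk1'
    rw [hk1, hk1'] at h3
    have h4 : kk ≠ Ak.z := fun hc => by
      have := hk2 hc
      omega
    have h5 : kk' ≠ Ak.a := fun hc => by
      have := hk3' hc
      push_cast at this
      omega
    simpa [okD, h4, h5] using h3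
  obtain ⟨i0, j0, hij, hjN, ⟨b, hi0⟩, hj0, hmid⟩ := phases ph _ p0' p1' pst
  have hj0h : (j0 : ℤ) < h := by omega
  have hij' : (i0 : ℤ) < (j0 : ℤ) := by exact_mod_cast hij
  -- non hash cells
  have nh : ∀ i j : ℤ, 0 ≤ i → i < h → 0 ≤ j → j < h → Y i j ≠ St.hash := by
    intro i j hi1 hi2 hj1 hj2
    rcases lt_trichotomy i j with hc | hc | hc
    · obtain ⟨b, l, hbl⟩ := hup i j hi1 hc hj2
      rw [hbl]; simp
    · subst hc
      obtain ⟨kk, p, hp, _⟩ := hall i hi1 hi2
      rw [hp]; simp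
    · obtain ⟨b, l, hbl⟩ := hlo j i hj1 hc hi2
      rw [hbl]; simp
  have rN' : ∀ i j : ℤ, 0 ≤ i → i < h → 0 ≤ j → j + 1 < h →
      upSrc (Y i j) = upDst (Y i (j + 1)) ∧ dnDst (Y i j) = dnSrc (Y i (j + 1)) := by
    intro i j hi1 hi2 hj1 hj2
    have h3 := rN i j
    have h4 := nh i j hi1 hi2 hj1 (by omega)
    have h5 := nh i (j + 1) hi1 hi2 (by omega) hj2
    simpa [okN, h4, h5] using h3
  have rE' : ∀ i j : ℤ, 0 ≤ i → i + 1 < h → 0 ≤ j → j < h →
      rtSrc (Y i j) = rtDst (Y (i + 1) j) ∧ ltDst (Y i j) = ltSrc (Y (i + 1) j) := by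
    intro i j hi1 hi2 hj1 hj2
    have h3 := rE i j
    have h4 := nh i j hi1 (by omega) hj1 hj2
    have h5 := nh (i + 1) j (by omega) hi2 hj1 hj2
    simpa [okE, h4, h5] using h3
  have hYi : ∃ kk, Y i0 i0 = St.ax kk (Ph.P1 b) := by
    obtain ⟨kk, hk, _⟩ := hph i0 (by omega)
    rw [hi0] at hk
    exact ⟨kk, hk⟩
  have hYj : ∃ kk, Y j0 j0 = St.ax kk Ph.P2 := by
    obtain ⟨kk, hk, _⟩ := hph j0 (by omega)
    rw [hj0] at hk
    exact ⟨kk, hk⟩
  have hYm : ∀ k : ℤ, (i0 : ℤ) < k → k < j0 → ∃ kk, Y k k = St.ax kk Ph.p1 := by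
    intro k hk1 hk2
    obtain ⟨n, rfl⟩ : ∃ n : ℕ, k = n := ⟨k.toNat, by omega⟩
    obtain ⟨kk, hk, _⟩ := hph n (by omega)
    rw [hmid n (by exact_mod_cast hk1) (by exact_mod_cast hk2)] at hk
    exact ⟨kk, hk⟩
  obtain ⟨U1, U2⟩ := line_core Y upSrc upDst ltSrc ltDst h
    (by
      intro i j hi hij2 hj c
      obtain ⟨b', l, hbl⟩ := hup i j hi hij2 hj
      rw [hbl]
      rcases l with _ | _ | _ | _ | _ | _ | _ <;> simp [upSrc, upDst])
    (by
      intro i j hi hij2 hj
      obtain ⟨b', l, hbl⟩ := hup i j hi hij2 hj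
      rw [hbl]
      rcases l with _ | _ | _ | _ | _ | _ | _ <;> simp [ltSrc, ltDst])
    (by
      intro i j hi hij2 hj c
      obtain ⟨b', l, hbl⟩ := hup i j hi hij2 hj
      rw [hbl]
      rcases l with _ | _ | _ | _ | _ | _ | _ <;> simp [upSrc, upDst, ltDst])
    (by
      intro i j hi hij2 hj
      obtain ⟨b', l, hbl⟩ := hup i j hi hij2 hj
      rw [hbl]
      rcases l with _ | _ | _ | _ | _ | _ | _ <;> simp [upDst, ltDst, ltSrc])
    (by
      intro i j hi hij2 hj
      exact (rN' i j hi (by omega) (by omega) hj).1)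
    (by
      intro i j hi hij2 hj
      exact (rE' i j hi (by omega) (by omega) hj).2)
    i0 j0 (by omega) hij' hj0h b
    (by
      intro k hk1 hk2
      obtain ⟨kk, hk⟩ := hYm k hk1 hk2
      rw [hk]
      simp [upSrc])
    (by
      intro k hk1 hk2
      obtain ⟨kk, hk⟩ := hYm k hk1 hk2
      rw [hk]
      simp [ltSrc])
    (by
      obtain ⟨kk, hk⟩ := hYi
      rw [hk]
      simp [upSrc])
    (by
      obtain ⟨kk, hk⟩ := hYj
      rw [hk]
      simp [ltSrc])
  obtain ⟨L1, L2⟩ := line_core (fun i j => Y j i) rtSrc rtDst dnSrc dnDst h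
    (by
      intro i j hi hij2 hj c
      obtain ⟨b', l, hbl⟩ := hlo i j hi hij2 hj
      simp only [hbl]
      rcases l with _ | _ | _ | _ | _ | _ | _ <;> simp [rtSrc, rtDst])
    (by
      intro i j hi hij2 hj
      obtain ⟨b', l, hbl⟩ := hlo i j hi hij2 hj
      simp only [hbl]
      rcases l with _ | _ | _ | _ | _ | _ | _ <;> simp [dnSrc, dnDst])
    (by
      intro i j hi hij2 hj c
      obtain ⟨b', l, hbl⟩ := hlo i j hi hij2 hj
      simp only [hbl]
      rcases l with _ | _ | _ | _ | _ | _ | _ <;> simp [rtSrc, rtDst, dnDst])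
    (by
      intro i j hi hij2 hj
      obtain ⟨b', l, hbl⟩ := hlo i j hi hij2 hj
      simp only [hbl]
      rcases l with _ | _ | _ | _ | _ | _ | _ <;> simp [rtDst, dnDst, dnSrc])
    (by
      intro i j hi hij2 hj
      exact (rE' j i (by omega) hj hi (by omega)).1)
    (by
      intro i j hi hij2 hj
      exact (rN' j i (by omega) hj hi (by omega)).2)
    i0 j0 (by omega) hij' hj0h b
    (by
      intro k hk1 hk2
      obtain ⟨kk, hk⟩ := hYm k hk1 hk2
      simp only [hk]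
      simp [rtSrc])
    (by
      intro k hk1 hk2
      obtain ⟨kk, hk⟩ := hYm k hk1 hk2
      simp only [hk]
      simp [dnSrc])
    (by
      obtain ⟨kk, hk⟩ := hYi
      simp only [hk]
      simp [rtSrc])
    (by
      obtain ⟨kk, hk⟩ := hYj
      simp only [hk]
      simp [dnSrc])
  -- contradiction
  obtain ⟨c, hc1, hc2⟩ := hb i0 j0 (by omega) hij' hj0h
  rw [hys, ← hY] at hc1 hc2
  have V1 : vis (Y i0 j0) = Vis.bit b := by
    revert U1 U2
    generalize Y i0 j0 = q
    rcases q with _ | ⟨b', l⟩ | ⟨k, p⟩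
    · simp [upDst]
    · rcases l with _ | _ | _ | _ | _ | _ | _ <;> simp [upDst, ltDst, vis]
    · simp [upDst]
  have V2 : vis (Y j0 i0) = Vis.bit (!b) := by
    revert L1 L2
    generalize Y j0 i0 = q
    rcases q with _ | ⟨b', l⟩ | ⟨k, p⟩
    · simp [rtDst]
    · rcases l with _ | _ | _ | _ | _ | _ | _ <;> simp [rtDst, dnDst, vis]
    · simp [rtDst]
  rw [V1] at hc1
  rw [V2] at hc2
  rw [← hc1] at hc2
  cases b <;> simp at hc2


end Pool.Agent.Helper830.Weiss
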