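import Pool.Agent.Helper830.Weiss.Defs

set_option autoImplicit false

namespace Pool.Agent.Helper830.Weiss



/-- the configuration with one block `[0,h)^2` with marked diagonal and bits `b`, and `hash` elsewhere -/
noncomputable def blockCfg (h : ℤ) (b : ℤ × ℤ → Bool) (v : ℤ × ℤ) : Vis :=
  if 0 ≤ v.1 ∧ v.1 < h ∧ 0 ≤ v.2 ∧ v.2 < h then
    (if v.1 = v.2 then (if v.1 = 0 then Vis.axis Ak.a else if v.1 = h - 1 then Vis.axis Ak.z else Vis.axis Ak.m)
      else Vis.bit (b v))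
  else Vis.hash

/-- phase of the diagonal cell `i` in the explicit lift -/
def blockCfg_mem_phs (i₀ j₀ : ℤ) (β : Bool) (i : ℤ) : Ph :=
  if i < i₀ then Ph.p0 else if i = i₀ then Ph.P1 β else if i < j₀ then Ph.p1 else
    if i = j₀ then Ph.P2 else Ph.p2

/-- kind of the diagonal cell `i` in the explicit lift -/
def blockCfg_mem_knd (h : ℤ) (i : ℤ) : Ak :=
  if i = 0 then Ak.a else if i = h - 1 then Ak.z else Ak.m

/-- line state of the cell `(i, j)` in the explicit lift -/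
def blockCfg_mem_ln (i₀ j₀ : ℤ) (β : Bool) (i j : ℤ) : Ln :=
  if i = i₀ ∧ j = j₀ then Ln.C else if i = i₀ ∧ i₀ < j ∧ j < j₀ then Ln.V β else
    if j = j₀ ∧ i₀ < i ∧ i < j₀ then Ln.H else
      if i = j₀ ∧ j = i₀ then Ln.C' else if j = i₀ ∧ i₀ < i ∧ i < j₀ then Ln.H' β else
        if i = j₀ ∧ i₀ < j ∧ j < j₀ then Ln.V' else Ln.n

/-- the explicit lift inside the block -/
def blockCfg_mem_in (h i₀ j₀ : ℤ) (β : Bool) (b : ℤ × ℤ → Bool) (v : ℤ × ℤ) : St :=
  if v.1 = v.2 then St.ax (blockCfg_mem_knd h v.1) (blockCfg_mem_phs i₀ j₀ β v.1)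
  else St.off (b v) (blockCfg_mem_ln i₀ j₀ β v.1 v.2)

/-- the explicit lift -/
def blockCfg_mem_lft (h i₀ j₀ : ℤ) (β : Bool) (b : ℤ × ℤ → Bool) (v : ℤ × ℤ) : St :=
  if 0 ≤ v.1 ∧ v.1 < h ∧ 0 ≤ v.2 ∧ v.2 < h then blockCfg_mem_in h i₀ j₀ β b v else St.hash

theorem blockCfg_mem_ax (h i₀ j₀ : ℤ) (β : Bool) (b : ℤ × ℤ → Bool) (v : ℤ × ℤ) (hv : v.1 = v.2) :
    blockCfg_mem_in h i₀ j₀ β b v = St.ax (blockCfg_mem_knd h v.1) (blockCfg_mem_phs i₀ j₀ β v.1) := by
  unfold blockCfg_mem_in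
  rw [if_pos hv]

theorem blockCfg_mem_off (h i₀ j₀ : ℤ) (β : Bool) (b : ℤ × ℤ → Bool) (v : ℤ × ℤ) (hv : v.1 ≠ v.2) :
    blockCfg_mem_in h i₀ j₀ β b v = St.off (b v) (blockCfg_mem_ln i₀ j₀ β v.1 v.2) := by
  unfold blockCfg_mem_in
  rw [if_neg hv]

section
variable (h i₀ j₀ : ℤ) (β : Bool) (b : ℤ × ℤ → Bool) (hij : i₀ < j₀) (hb1 : b (i₀, j₀) = β)
  (hb2 : b (j₀, i₀) = !β)

include hij in
theorem blockCfg_mem_upSrc (i j : ℤ) : upSrc (blockCfg_mem_in h i₀ j₀ β b (i, j)) =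
    if i = i₀ ∧ i₀ ≤ j ∧ j < j₀ then some β else none := by
  by_cases hv : i = j
  · rw [blockCfg_mem_ax _ _ _ _ _ _ hv]
    subst hv
    show upSrc (St.ax (blockCfg_mem_knd h i) (blockCfg_mem_phs i₀ j₀ β i)) = _
    unfold blockCfg_mem_phs
    split_ifs <;> simp only [upSrc] <;> first | rfl | omega
  · rw [blockCfg_mem_off _ _ _ _ _ _ hv]
    show upSrc (St.off (b (i, j)) (blockCfg_mem_ln i₀ j₀ β i j)) = _
    unfold blockCfg_mem_ln
    split_ifs <;> simp only [upSrc] <;> first | rfl | omega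

include hij hb1 in
theorem blockCfg_mem_upDst (i j : ℤ) : upDst (blockCfg_mem_in h i₀ j₀ β b (i, j)) =
    if i = i₀ ∧ i₀ < j ∧ j ≤ j₀ then some β else none := by
  by_cases hv : i = j
  · rw [blockCfg_mem_ax _ _ _ _ _ _ hv]
    subst hv
    show upDst (St.ax (blockCfg_mem_knd h i) (blockCfg_mem_phs i₀ j₀ β i)) = _
    unfold blockCfg_mem_phs
    split_ifs <;> simp only [upDst] <;> first | rfl | omega
  · rw [blockCfg_mem_off _ _ _ _ _ _ hv]
    show upDst (St.off (b (i, j)) (blockCfg_mem_ln i₀ j₀ β i j)) = _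
    by_cases hc : i = i₀ ∧ j = j₀
    · obtain ⟨rfl, rfl⟩ := hc
      unfold blockCfg_mem_ln
      rw [if_pos ⟨rfl, rfl⟩, if_pos ⟨rfl, hij, le_rfl⟩]
      show some (b (i, j)) = some β
      rw [hb1]
    · unfold blockCfg_mem_ln
      rw [if_neg hc]
      split_ifs <;> simp only [upDst] <;> first | rfl | omega

include hij in
theorem blockCfg_mem_rtSrc (i j : ℤ) : rtSrc (blockCfg_mem_in h i₀ j₀ β b (i, j)) =
    if j = i₀ ∧ i₀ ≤ i ∧ i < j₀ then some β else none := by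
  by_cases hv : i = j
  · rw [blockCfg_mem_ax _ _ _ _ _ _ hv]
    subst hv
    show rtSrc (St.ax (blockCfg_mem_knd h i) (blockCfg_mem_phs i₀ j₀ β i)) = _
    unfold blockCfg_mem_phs
    split_ifs <;> simp only [rtSrc] <;> first | rfl | omega
  · rw [blockCfg_mem_off _ _ _ _ _ _ hv]
    show rtSrc (St.off (b (i, j)) (blockCfg_mem_ln i₀ j₀ β i j)) = _
    unfold blockCfg_mem_ln
    split_ifs <;> simp only [rtSrc] <;> first | rfl | omega

include hij hb2 in
theorem blockCfg_mem_rtDst (i j : ℤ) : rtDst (blockCfg_mem_in h i₀ j₀ β b (i, j)) =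
    if j = i₀ ∧ i₀ < i ∧ i ≤ j₀ then some β else none := by
  by_cases hv : i = j
  · rw [blockCfg_mem_ax _ _ _ _ _ _ hv]
    subst hv
    show rtDst (St.ax (blockCfg_mem_knd h i) (blockCfg_mem_phs i₀ j₀ β i)) = _
    unfold blockCfg_mem_phs
    split_ifs <;> simp only [rtDst] <;> first | rfl | omega
  · rw [blockCfg_mem_off _ _ _ _ _ _ hv]
    show rtDst (St.off (b (i, j)) (blockCfg_mem_ln i₀ j₀ β i j)) = _
    by_cases hc : i = j₀ ∧ j = i₀
    · obtain ⟨rfl, rfl⟩ := hc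
      unfold blockCfg_mem_ln
      rw [if_neg (by omega), if_neg (by omega), if_neg (by omega), if_pos ⟨rfl, rfl⟩, if_pos ⟨rfl, hij, le_rfl⟩]
      show some (!(b (i, j))) = some β
      rw [hb2, Bool.not_not]
    · unfold blockCfg_mem_ln
      split_ifs <;> simp only [rtDst] <;> first | rfl | omega

include hij in
theorem blockCfg_mem_ltSrc (i j : ℤ) : ltSrc (blockCfg_mem_in h i₀ j₀ β b (i, j)) =
    decide (j = j₀ ∧ i₀ < i ∧ i ≤ j₀) := by
  by_cases hv : i = j
  · rw [blockCfg_mem_ax _ _ _ _ _ _ hv]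
    subst hv
    show ltSrc (St.ax (blockCfg_mem_knd h i) (blockCfg_mem_phs i₀ j₀ β i)) = _
    unfold blockCfg_mem_phs
    split_ifs <;> simp only [ltSrc] <;> symm <;> first | (apply decide_eq_true; omega) | (apply decide_eq_false; omega)
  · rw [blockCfg_mem_off _ _ _ _ _ _ hv]
    show ltSrc (St.off (b (i, j)) (blockCfg_mem_ln i₀ j₀ β i j)) = _
    unfold blockCfg_mem_ln
    split_ifs <;> simp only [ltSrc] <;> symm <;> first | (apply decide_eq_true; omega) | (apply decide_eq_false; omega)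

include hij in
theorem blockCfg_mem_ltDst (i j : ℤ) : ltDst (blockCfg_mem_in h i₀ j₀ β b (i, j)) =
    decide (j = j₀ ∧ i₀ ≤ i ∧ i < j₀) := by
  by_cases hv : i = j
  · rw [blockCfg_mem_ax _ _ _ _ _ _ hv]
    subst hv
    show ltDst (St.ax (blockCfg_mem_knd h i) (blockCfg_mem_phs i₀ j₀ β i)) = _
    unfold blockCfg_mem_phs
    split_ifs <;> simp only [ltDst] <;> symm <;> first | (apply decide_eq_true; omega) | (apply decide_eq_false; omega)
  · rw [blockCfg_mem_off _ _ _ _ _ _ hv]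
    show ltDst (St.off (b (i, j)) (blockCfg_mem_ln i₀ j₀ β i j)) = _
    unfold blockCfg_mem_ln
    split_ifs <;> simp only [ltDst] <;> symm <;> first | (apply decide_eq_true; omega) | (apply decide_eq_false; omega)

include hij in
theorem blockCfg_mem_dnSrc (i j : ℤ) : dnSrc (blockCfg_mem_in h i₀ j₀ β b (i, j)) =
    decide (i = j₀ ∧ i₀ < j ∧ j ≤ j₀) := by
  by_cases hv : i = j
  · rw [blockCfg_mem_ax _ _ _ _ _ _ hv]
    subst hv
    show dnSrc (St.ax (blockCfg_mem_knd h i) (blockCfg_mem_phs i₀ j₀ β i)) = _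
    unfold blockCfg_mem_phs
    split_ifs <;> simp only [dnSrc] <;> symm <;> first | (apply decide_eq_true; omega) | (apply decide_eq_false; omega)
  · rw [blockCfg_mem_off _ _ _ _ _ _ hv]
    show dnSrc (St.off (b (i, j)) (blockCfg_mem_ln i₀ j₀ β i j)) = _
    unfold blockCfg_mem_ln
    split_ifs <;> simp only [dnSrc] <;> symm <;> first | (apply decide_eq_true; omega) | (apply decide_eq_false; omega)

include hij in
theorem blockCfg_mem_dnDst (i j : ℤ) : dnDst (blockCfg_mem_in h i₀ j₀ β b (i, j)) =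
    decide (i = j₀ ∧ i₀ ≤ j ∧ j < j₀) := by
  by_cases hv : i = j
  · rw [blockCfg_mem_ax _ _ _ _ _ _ hv]
    subst hv
    show dnDst (St.ax (blockCfg_mem_knd h i) (blockCfg_mem_phs i₀ j₀ β i)) = _
    unfold blockCfg_mem_phs
    split_ifs <;> simp only [dnDst] <;> symm <;> first | (apply decide_eq_true; omega) | (apply decide_eq_false; omega)
  · rw [blockCfg_mem_off _ _ _ _ _ _ hv]
    show dnDst (St.off (b (i, j)) (blockCfg_mem_ln i₀ j₀ β i j)) = _
    unfold blockCfg_mem_ln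
    split_ifs <;> simp only [dnDst] <;> symm <;> first | (apply decide_eq_true; omega) | (apply decide_eq_false; omega)

include hij in
theorem blockCfg_mem_step (i : ℤ) : step (blockCfg_mem_phs i₀ j₀ β i) (blockCfg_mem_phs i₀ j₀ β (i + 1)) = true := by
  unfold blockCfg_mem_phs
  split_ifs <;> first | rfl | omega

end

/-- Completeness: a non symmetric block is in `S`. -/
theorem blockCfg_mem (h : ℤ) (hh : 2 ≤ h) (b : ℤ × ℤ → Bool) (i₀ j₀ : ℤ) (h0 : 0 ≤ i₀) (hij : i₀ < j₀)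
    (hj : j₀ < h) (hne : b (i₀, j₀) ≠ b (j₀, i₀)) : blockCfg h b ∈ S := by
  obtain ⟨β, hβ⟩ : ∃ β, β = b (i₀, j₀) := ⟨_, rfl⟩
  have hb1 : b (i₀, j₀) = β := hβ.symm
  have hb2 : b (j₀, i₀) = !β := Bool.eq_not.mpr (fun h => hne (by rw [hb1, h]))
  refine ⟨blockCfg_mem_lft h i₀ j₀ β b, ?_, ?_⟩
  · rintro ⟨i, j⟩
    have hE : ((i, j) : ℤ × ℤ) + (1, 0) = (i + 1, j) := by simp
    have hN : ((i, j) : ℤ × ℤ) + (0, 1) = (i, j + 1) := by simp
    have hD : ((i, j) : ℤ × ℤ) + (1, 1) = (i + 1, j + 1) := by simp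
    rw [hE, hN, hD]
    have hout : ∀ i j : ℤ, ¬ (0 ≤ i ∧ i < h ∧ 0 ≤ j ∧ j < h) → blockCfg_mem_lft h i₀ j₀ β b (i, j) = St.hash := by
      intro i j hn
      unfold blockCfg_mem_lft
      exact if_neg hn
    have hinn : ∀ i j : ℤ, (0 ≤ i ∧ i < h ∧ 0 ≤ j ∧ j < h) →
        blockCfg_mem_lft h i₀ j₀ β b (i, j) = blockCfg_mem_in h i₀ j₀ β b (i, j) := by
      intro i j hn
      unfold blockCfg_mem_lft
      exact if_pos hn
    by_cases hin : 0 ≤ i ∧ i < h ∧ 0 ≤ j ∧ j < h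
    · rw [hinn i j hin]
      refine ⟨?_, ?_, ?_, ?_⟩
      · by_cases hv : i = j
        · rw [blockCfg_mem_ax _ _ _ _ _ _ hv]
          show ok1 (St.ax (blockCfg_mem_knd h i) (blockCfg_mem_phs i₀ j₀ β i)) = true
          unfold blockCfg_mem_knd blockCfg_mem_phs
          split_ifs <;> first | rfl | omega
        · rw [blockCfg_mem_off _ _ _ _ _ _ hv]
          rfl
      · by_cases hin2 : 0 ≤ i + 1 ∧ i + 1 < h ∧ 0 ≤ j ∧ j < h
        · rw [hinn (i + 1) j hin2]
          unfold okE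
          rw [blockCfg_mem_rtSrc h i₀ j₀ β b hij, blockCfg_mem_rtDst h i₀ j₀ β b hij hb2,
            blockCfg_mem_ltSrc h i₀ j₀ β b hij, blockCfg_mem_ltDst h i₀ j₀ β b hij]
          have e1 : (if j = i₀ ∧ i₀ ≤ i ∧ i < j₀ then some β else none) =
              (if j = i₀ ∧ i₀ < i + 1 ∧ i + 1 ≤ j₀ then some β else none) := by
            split_ifs <;> first | rfl | omega
          have e2 : decide (j = j₀ ∧ i₀ ≤ i ∧ i < j₀) = decide (j = j₀ ∧ i₀ < i + 1 ∧ i + 1 ≤ j₀) := by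
            apply decide_eq_decide.mpr
            omega
          rw [e1, e2]
          simp
        · rw [hout (i + 1) j hin2]
          simp [okE]
      · by_cases hin2 : 0 ≤ i ∧ i < h ∧ 0 ≤ j + 1 ∧ j + 1 < h
        · rw [hinn i (j + 1) hin2]
          unfold okN
          rw [blockCfg_mem_upSrc h i₀ j₀ β b hij, blockCfg_mem_upDst h i₀ j₀ β b hij hb1,
            blockCfg_mem_dnSrc h i₀ j₀ β b hij, blockCfg_mem_dnDst h i₀ j₀ β b hij]
          have e1 : (if i = i₀ ∧ i₀ ≤ j ∧ j < j₀ then some β else none) =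
              (if i = i₀ ∧ i₀ < j + 1 ∧ j + 1 ≤ j₀ then some β else none) := by
            split_ifs <;> first | rfl | omega
          have e2 : decide (i = j₀ ∧ i₀ ≤ j ∧ j < j₀) = decide (i = j₀ ∧ i₀ < j + 1 ∧ j + 1 ≤ j₀) := by
            apply decide_eq_decide.mpr
            omega
          rw [e1, e2]
          simp
        · rw [hout i (j + 1) hin2]
          simp [okN]
      · by_cases hin2 : 0 ≤ i + 1 ∧ i + 1 < h ∧ 0 ≤ j + 1 ∧ j + 1 < h
        · rw [hinn (i + 1) (j + 1) hin2]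
          by_cases hv : i = j
          · rw [blockCfg_mem_ax _ _ _ _ _ (i, j) hv, blockCfg_mem_ax _ _ _ _ _ (i + 1, j + 1) (by
              show i + 1 = j + 1
              rw [hv])]
            show (decide (blockCfg_mem_knd h i = Ak.z) || decide (blockCfg_mem_knd h (i + 1) = Ak.a) ||
              step (blockCfg_mem_phs i₀ j₀ β i) (blockCfg_mem_phs i₀ j₀ β (i + 1))) = true
            rw [blockCfg_mem_step i₀ j₀ β hij]
            simp
          · rw [blockCfg_mem_off _ _ _ _ _ (i, j) hv]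
            rfl
        · rw [hout (i + 1) (j + 1) hin2]
          cases blockCfg_mem_in h i₀ j₀ β b (i, j) <;> rfl
    · rw [hout i j hin]
      refine ⟨rfl, ?_, ?_, ?_⟩
      · simp [okE]
      · simp [okN]
      · rfl
  · rintro ⟨i, j⟩
    unfold blockCfg blockCfg_mem_lft
    split_ifs with h1 h2 h3 h4
    · rw [blockCfg_mem_ax _ _ _ _ _ _ h2]
      unfold blockCfg_mem_knd
      rw [if_pos h3]
      rfl
    · rw [blockCfg_mem_ax _ _ _ _ _ _ h2]
      unfold blockCfg_mem_knd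
      rw [if_neg h3, if_pos h4]
      rfl
    · rw [blockCfg_mem_ax _ _ _ _ _ _ h2]
      unfold blockCfg_mem_knd
      rw [if_neg h3, if_neg h4]
      rfl
    · rw [blockCfg_mem_off _ _ _ _ _ _ h2]
      rfl
    · rfl

end Pool.Agent.Helper830.Weiss
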