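import Mathlib

set_option autoImplicit false
open Topology

namespace Pool.Agent.Helper830.Weiss

/-- Curtis-Hedlund-Lyndon, local form. `φ` is continuous on a closed set `X` of configurations and commutes with the
translations on `X`; then it is a window map of some finite radius. -/
theorem chl {A B : Type} [Finite A] [TopologicalSpace A] [DiscreteTopology A] [TopologicalSpace B]
    [DiscreteTopology B] (X : Set (ℤ × ℤ → A)) (hX : IsClosed X)
    (hinv : ∀ x ∈ X, ∀ v : ℤ × ℤ, (fun u => x (u + v)) ∈ X)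
    (φ : (ℤ × ℤ → A) → (ℤ × ℤ → B)) (hφ : ContinuousOn φ X)
    (hcom : ∀ x ∈ X, ∀ v : ℤ × ℤ, φ (fun u => x (u + v)) = fun u => φ x (u + v)) :
    ∃ r : ℕ, ∀ x ∈ X, ∀ x' ∈ X, ∀ v : ℤ × ℤ,
      (∀ u : ℤ × ℤ, |u.1 - v.1| ≤ r → |u.2 - v.2| ≤ r → x u = x' u) → φ x v = φ x' v := by
  classical
  have hloc : ∀ x ∈ X, ∃ F : Finset (ℤ × ℤ), ∀ x' ∈ X, (∀ u ∈ F, x' u = x u) → φ x' 0 = φ x 0 := by
    intro x hx
    have h1 : ContinuousWithinAt (fun x => φ x 0) X x := by
      have h2 : Continuous (fun f : ℤ × ℤ → B => f 0) := continuous_apply 0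
      exact (h2.comp_continuousOn hφ) x hx
    have h2 : {b | b = φ x 0} ∈ 𝓝 (φ x 0) := by
      rw [nhds_discrete]
      simp
    have h3 := h1 h2
    rw [Filter.mem_map, mem_nhdsWithin] at h3
    obtain ⟨U, hU, hxU, hsub⟩ := h3
    obtain ⟨I, u, hI, hIU⟩ := isOpen_pi_iff.mp hU x hxU
    refine ⟨I, ?_⟩
    intro x' hx' hag
    have h4 : x' ∈ U := by
      apply hIU
      intro a ha
      rw [hag a ha]
      exact (hI a ha).2
    exact hsub ⟨h4, hx'⟩
  choose! F hF using hloc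
  have hXc : IsCompact X := hX.isCompact
  obtain ⟨t, ht, hcov⟩ := hXc.elim_nhds_subcover (fun z => {x' | ∀ u ∈ F z, x' u = z u}) (by
    intro z _
    apply IsOpen.mem_nhds
    · have h1 : {x' : ℤ × ℤ → A | ∀ u ∈ F z, x' u = z u} = ⋂ u ∈ F z, (fun x' : ℤ × ℤ → A => x' u) ⁻¹' {z u} := by
        ext x'
        simp
      rw [h1]
      apply isOpen_biInter_finset
      intro u _
      exact (isOpen_discrete _).preimage (continuous_apply u)
    · intro u _
      rfl)
  let Fa := t.biUnion F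
  refine ⟨Fa.sup (fun u => max u.1.natAbs u.2.natAbs), ?_⟩
  intro x hx x' hx' v hag
  have hy : (fun u => x (u + v)) ∈ X := hinv x hx v
  have hy' : (fun u => x' (u + v)) ∈ X := hinv x' hx' v
  have e1 : φ (fun u => x (u + v)) 0 = φ x v := by
    rw [hcom x hx v]
    simp
  have e2 : φ (fun u => x' (u + v)) 0 = φ x' v := by
    rw [hcom x' hx' v]
    simp
  have h1 := hcov hy
  rw [Set.mem_iUnion₂] at h1
  obtain ⟨z, hz, hyz⟩ := h1
  have hyz1 : ∀ u ∈ F z, x (u + v) = z u := hyz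
  have hyz' : ∀ u ∈ F z, x' (u + v) = z u := by
    intro u hu
    rw [← hyz1 u hu]
    symm
    have hb : max u.1.natAbs u.2.natAbs ≤ Fa.sup (fun u => max u.1.natAbs u.2.natAbs) :=
      Finset.le_sup (f := fun u : ℤ × ℤ => max u.1.natAbs u.2.natAbs) (Finset.mem_biUnion.mpr ⟨z, hz, hu⟩)
    apply hag
    · have h2 : (u + v).1 - v.1 = u.1 := by simp
      rw [h2, Int.abs_eq_natAbs]
      exact_mod_cast (le_max_left _ _).trans hb
    · have h2 : (u + v).2 - v.2 = u.2 := by simp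
      rw [h2, Int.abs_eq_natAbs]
      exact_mod_cast (le_max_right _ _).trans hb
  rw [← e1, ← e2, hF z (ht z hz) _ hy hyz1, hF z (ht z hz) _ hy' hyz']

end Pool.Agent.Helper830.Weiss
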