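import Pool.Agent.Helper830.Weiss.Heart

set_option autoImplicit false

namespace Pool.Agent.Helper830.Weiss

/-- the frame of the big box -/
noncomputable def frame (Λ : ℤ) (r : ℕ) : Finset (ℤ × ℤ) := box 0 Λ \ box (2 * r) (Λ - 2 * r)

theorem class_lemma {A : Type} [Fintype A] (Y : Sys A Vis) (hS : Y.φ '' Y.X = S) (s M : ℕ) (hs : 1 ≤ s)
    (hQ : 0 < (Qs s).card)
    (hheart : ∀ γ : ℤ × ℤ → A, ¬ Good Y (Lam s Y.r M) γ →
      (Ts Y s M γ).card * Fintype.card A ^ (frame (Lam s Y.r M) Y.r).card < (Qs s).card ^ (M * M))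
    (σ : ℤ × ℤ → Vis) (hσ : σ ∈ Y.φ '' Y.X) (v₀ : ℤ × ℤ) (L : (ℤ × ℤ → Vis) → (ℤ × ℤ → A))
    (hL : ∀ s' ∈ Y.φ '' Y.X, L s' ∈ Y.X ∧
      ∀ v ∈ box Y.r (Lam s Y.r M - Y.r), Y.φ (L s') (v + v₀) = s' (v + v₀)) :
    ∃ s' ∈ Y.φ '' Y.X, (∀ v, v - v₀ ∉ box Y.r (Lam s Y.r M - Y.r) → s' v = σ v) ∧
      Good Y (Lam s Y.r M) (fun u => L s' (u + v₀)) := by
  classical
  rw [hS] at hσ hL ⊢
  by_contra hcon
  push Not at hcon
  set sp : (Fin M × Fin M → U s × U s) → (ℤ × ℤ → Vis) := fun p v =>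
    if v - v₀ ∈ box Y.r (Lam s Y.r M - Y.r) then famCfg s Y.r M p (v - v₀) else σ v with hsp
  have hspS : ∀ p : Fin M × Fin M → U s × U s, (∀ t, (p t).1 ≠ (p t).2) → sp p ∈ S :=
    fun p hp => fam_paste s Y.r M hs p hp σ hσ v₀
  have hnot : ∀ p : Fin M × Fin M → U s × U s, (∀ t, (p t).1 ≠ (p t).2) →
      ¬ Good Y (Lam s Y.r M) (fun u => L (sp p) (u + v₀)) := by
    intro p hp
    apply hcon (sp p) (hspS p hp)
    intro v hv
    simp only [hsp, hv, if_false]
  set OD : Finset (Fin M × Fin M → U s × U s) := Fintype.piFinset (fun _ => Qs s) with hOD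
  have hODmem : ∀ p, p ∈ OD ↔ ∀ t, (p t).1 ≠ (p t).2 := by
    intro p
    simp only [hOD, Fintype.mem_piFinset, mem_Qs]
  have hODcard : OD.card = (Qs s).card ^ (M * M) := by
    rw [hOD, Fintype.card_piFinset]
    simp
  set c : (Fin M × Fin M → U s × U s) → (frame (Lam s Y.r M) Y.r → A) :=
    fun p u => L (sp p) (u.1 + v₀) with hc
  have hfib : ∀ g : frame (Lam s Y.r M) Y.r → A,
      (OD.filter (fun p => c p = g)).card * Fintype.card A ^ (frame (Lam s Y.r M) Y.r).card <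
        (Qs s).card ^ (M * M) := by
    intro g
    by_cases hne : (OD.filter (fun p => c p = g)).Nonempty
    · obtain ⟨p₀, hp₀⟩ := hne
      rw [Finset.mem_filter] at hp₀
      have hoff := (hODmem p₀).1 hp₀.1
      refine lt_of_le_of_lt (Nat.mul_le_mul_right _ (Finset.card_le_card ?_)) (hheart _ (hnot p₀ hoff))
      intro p hp
      rw [Finset.mem_filter] at hp
      have hpo := (hODmem p).1 hp.1
      rw [mem_Ts]
      obtain ⟨hLX, hLφ⟩ := hL (sp p) (hspS p hpo)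
      refine ⟨hpo, fun u => L (sp p) (u + v₀), Y.inv _ hLX _, ?_, ?_⟩
      · intro u hu hu'
        have hm : u ∈ frame (Lam s Y.r M) Y.r := Finset.mem_sdiff.2 ⟨hu, hu'⟩
        have h1 := congrFun (hp.2.trans hp₀.2.symm) ⟨u, hm⟩
        exact h1
      · intro v hv
        rw [Y.com _ hLX]
        simp only
        rw [hLφ v hv]
        simp only [hsp, add_sub_cancel_right, hv, if_true]
    · rw [Finset.not_nonempty_iff_eq_empty] at hne
      rw [hne, Finset.card_empty, Nat.zero_mul]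
      exact Nat.pow_pos hQ
  have hsum : OD.card = ∑ g : (frame (Lam s Y.r M) Y.r → A), (OD.filter (fun p => c p = g)).card :=
    Finset.card_eq_sum_card_fiberwise (fun p _ => Finset.mem_univ _)
  have hlt : ∑ g : (frame (Lam s Y.r M) Y.r → A),
      (OD.filter (fun p => c p = g)).card * Fintype.card A ^ (frame (Lam s Y.r M) Y.r).card <
      ∑ _g : (frame (Lam s Y.r M) Y.r → A), (Qs s).card ^ (M * M) := by
    apply Finset.sum_lt_sum_of_nonempty
    · obtain ⟨x, hx⟩ := hσ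
      exact ⟨fun u => L σ u.1, Finset.mem_univ _⟩
    · intro g _
      exact hfib g
  rw [← Finset.sum_mul, ← hsum, hODcard, Finset.sum_const, Finset.card_univ, Fintype.card_fun,
    Fintype.card_coe, smul_eq_mul, mul_comm] at hlt
  exact lt_irrefl _ hlt

end Pool.Agent.Helper830.Weiss
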