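import Mathlib

set_option autoImplicit false
open Filter Topology

namespace Pool.Agent.Helper830.Weiss

/-- number of patterns on the `n × n` square -/
noncomputable def pat {A : Type} (X : Set (ℤ × ℤ → A)) (n : ℕ) : ℕ :=
  ((fun (x : ℤ × ℤ → A) (i : Fin n × Fin n) => x ((i.1 : ℤ), (i.2 : ℤ))) '' X).ncard

/-- `h` is the topological entropy of `X` -/
def HasEntropy {A : Type} (X : Set (ℤ × ℤ → A)) (h : ℝ) : Prop :=
  Tendsto (fun n : ℕ => Real.log (pat X n) / (n : ℝ) ^ 2) atTop (𝓝 h)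

/-- submultiplicativity: a square of side `N ≤ k * n` is covered by `k^2` squares of side `n` -/
theorem pat_le {A : Type} [Finite A] (X : Set (ℤ × ℤ → A))
    (hinv : ∀ x ∈ X, ∀ v : ℤ × ℤ, (fun u => x (u + v)) ∈ X) (n k N : ℕ) (hN : N ≤ k * n) :
    pat X N ≤ pat X n ^ (k ^ 2) := by
  classical
  obtain ⟨P, hP⟩ : ∃ P : (m : ℕ) → Set (Fin m × Fin m → A), ∀ m, P m =
      (fun (x : ℤ × ℤ → A) (i : Fin m × Fin m) => x ((i.1 : ℤ), (i.2 : ℤ))) '' X :=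
    ⟨fun m => _, fun m => rfl⟩
  have hpat : ∀ m, pat X m = Nat.card (P m) := by
    intro m
    rw [Nat.card_coe_set_eq, hP]
    rfl
  have hch : ∀ p : P N, ∃ x ∈ X, ∀ i : Fin N × Fin N, x ((i.1 : ℤ), (i.2 : ℤ)) = p.1 i := by
    rintro ⟨p, hp⟩
    rw [hP] at hp
    obtain ⟨x, hx, rfl⟩ := hp
    exact ⟨x, hx, fun i => rfl⟩
  choose x hxX hx using hch
  obtain ⟨Φ, hΦ⟩ : ∃ Φ : P N → (Fin k × Fin k → P n), ∀ p st i, (Φ p st).1 i =
      x p ((i.1 : ℤ) + (st.1 : ℤ) * n, (i.2 : ℤ) + (st.2 : ℤ) * n) := by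
    refine ⟨fun p st => ⟨fun i => x p ((i.1 : ℤ) + (st.1 : ℤ) * n, (i.2 : ℤ) + (st.2 : ℤ) * n),
      ?_⟩, fun p st i => rfl⟩
    rw [hP]
    exact ⟨_, hinv _ (hxX p) ((st.1 : ℤ) * n, (st.2 : ℤ) * n), rfl⟩
  have hinj : Function.Injective Φ := by
    intro p p' h
    apply Subtype.ext
    funext i
    rw [← hx p i, ← hx p' i]
    have hn : 0 < n := by
      rcases Nat.eq_zero_or_pos n with h0 | h0
      · have := i.1.2
        rw [h0, mul_zero] at hN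
        omega
      · exact h0
    have h1 : i.1.1 / n < k := by
      rw [Nat.div_lt_iff_lt_mul hn]
      exact lt_of_lt_of_le i.1.2 hN
    have h2 : i.2.1 / n < k := by
      rw [Nat.div_lt_iff_lt_mul hn]
      exact lt_of_lt_of_le i.2.2 hN
    have e1 := hΦ p (⟨i.1.1 / n, h1⟩, ⟨i.2.1 / n, h2⟩)
      (⟨i.1.1 % n, Nat.mod_lt _ hn⟩, ⟨i.2.1 % n, Nat.mod_lt _ hn⟩)
    have e2 := hΦ p' (⟨i.1.1 / n, h1⟩, ⟨i.2.1 / n, h2⟩)
      (⟨i.1.1 % n, Nat.mod_lt _ hn⟩, ⟨i.2.1 % n, Nat.mod_lt _ hn⟩)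
    rw [h, e2] at e1
    have f1 : ((i.1.1 % n : ℕ) : ℤ) + ((i.1.1 / n : ℕ) : ℤ) * n = (i.1.1 : ℤ) := by
      have := Nat.mod_add_div i.1.1 n
      have h3 : i.1.1 % n + i.1.1 / n * n = i.1.1 := by rw [mul_comm (i.1.1 / n)]; exact this
      exact_mod_cast h3
    have f2 : ((i.2.1 % n : ℕ) : ℤ) + ((i.2.1 / n : ℕ) : ℤ) * n = (i.2.1 : ℤ) := by
      have := Nat.mod_add_div i.2.1 n
      have h3 : i.2.1 % n + i.2.1 / n * n = i.2.1 := by rw [mul_comm (i.2.1 / n)]; exact this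
      exact_mod_cast h3
    dsimp only at e1
    rw [f1, f2] at e1
    exact e1.symm
  have hcard := Nat.card_le_card_of_injective Φ hinj
  rw [Nat.card_fun, Nat.card_prod, Nat.card_fin, ← sq] at hcard
  rw [hpat, hpat]
  exact hcard

/-- the entropy exists and is the infimum -/
theorem entropy_exists {A : Type} [Finite A] (X : Set (ℤ × ℤ → A)) (hne : X.Nonempty)
    (hinv : ∀ x ∈ X, ∀ v : ℤ × ℤ, (fun u => x (u + v)) ∈ X) :
    ∃ h : ℝ, HasEntropy X h ∧ 0 ≤ h ∧ ∀ n : ℕ, 0 < n → h * (n : ℝ) ^ 2 ≤ Real.log (pat X n) := by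
  have hpos : ∀ n, 1 ≤ pat X n := by
    intro n
    have : 0 < pat X n := by
      unfold pat
      rw [Set.ncard_pos (Set.toFinite _)]
      exact hne.image _
    exact this
  have ha0 : ∀ n, 0 ≤ Real.log (pat X n) := fun n =>
    Real.log_nonneg (by exact_mod_cast hpos n)
  obtain ⟨S, hS⟩ : ∃ S : Set ℝ, S = {r | ∃ n : ℕ, 0 < n ∧ r = Real.log (pat X n) / (n : ℝ) ^ 2} :=
    ⟨_, rfl⟩
  have hSne : S.Nonempty := by
    rw [hS]
    exact ⟨_, 1, one_pos, rfl⟩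
  have hS0 : ∀ r ∈ S, 0 ≤ r := by
    rw [hS]
    rintro r ⟨n, _, rfl⟩
    exact div_nonneg (ha0 n) (sq_nonneg _)
  have hSb : BddBelow S := ⟨0, fun r hr => hS0 r hr⟩
  have hle : ∀ n : ℕ, 0 < n → sInf S ≤ Real.log (pat X n) / (n : ℝ) ^ 2 := by
    intro n hn
    apply csInf_le hSb
    rw [hS]
    exact ⟨n, hn, rfl⟩
  refine ⟨sInf S, ?_, le_csInf hSne hS0, ?_⟩
  · refine tendsto_order.2 ⟨fun b hb => ?_, fun b hb => ?_⟩
    · filter_upwards [eventually_gt_atTop 0] with n hn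
      exact lt_of_lt_of_le hb (hle n hn)
    · obtain ⟨r, hr, hrb⟩ := exists_lt_of_csInf_lt hSne hb
      rw [hS] at hr
      obtain ⟨n0, hn0, rfl⟩ := hr
      have hlim : Tendsto (fun N : ℕ => Real.log (pat X n0) / (n0 : ℝ) ^ 2 *
          (1 + (n0 : ℝ) / (N : ℝ)) ^ 2) atTop
          (𝓝 (Real.log (pat X n0) / (n0 : ℝ) ^ 2 * (1 + 0) ^ 2)) :=
        (((tendsto_const_div_atTop_nhds_zero_nat (n0 : ℝ)).const_add 1).pow 2).const_mul _
      rw [add_zero, one_pow, mul_one] at hlim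
      filter_upwards [eventually_gt_atTop 0, (tendsto_order.1 hlim).2 b hrb] with N hN hNb
      refine lt_of_le_of_lt ?_ hNb
      have hNR : (0 : ℝ) < N := by exact_mod_cast hN
      have hn0R : (0 : ℝ) < n0 := by exact_mod_cast hn0
      have hk1 : N ≤ (N / n0 + 1) * n0 := by
        have h1 := Nat.div_add_mod N n0
        have h2 := Nat.mod_lt N hn0
        nlinarith
      have hk2 : (N / n0 + 1) * n0 ≤ N + n0 := by
        have h1 := Nat.div_mul_le_self N n0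
        nlinarith
      have h3 := pat_le X hinv n0 (N / n0 + 1) N hk1
      have h4 : Real.log (pat X N) ≤ ((N / n0 + 1 : ℕ) : ℝ) ^ 2 * Real.log (pat X n0) := by
        have h5 : (pat X N : ℝ) ≤ (pat X n0 : ℝ) ^ ((N / n0 + 1) ^ 2) := by exact_mod_cast h3
        have h6 := Real.log_le_log (by exact_mod_cast hpos N) h5
        rw [Real.log_pow] at h6
        push_cast at h6 ⊢
        exact h6
      have hk2R : ((N / n0 + 1 : ℕ) : ℝ) * n0 ≤ N + n0 := by exact_mod_cast hk2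
      have hkn : 0 ≤ ((N / n0 + 1 : ℕ) : ℝ) * n0 := by positivity
      have h7 : (((N / n0 + 1 : ℕ) : ℝ) * n0) ^ 2 ≤ ((N : ℝ) + n0) ^ 2 :=
        pow_le_pow_left₀ hkn hk2R 2
      have h8 : Real.log (pat X n0) / (n0 : ℝ) ^ 2 * (1 + (n0 : ℝ) / (N : ℝ)) ^ 2 =
          (Real.log (pat X n0) / (n0 : ℝ) ^ 2 * ((N : ℝ) + n0) ^ 2) / (N : ℝ) ^ 2 := by
        field_simp
      rw [h8]
      apply div_le_div_of_nonneg_right _ (sq_nonneg _)
      calc Real.log (pat X N) ≤ ((N / n0 + 1 : ℕ) : ℝ) ^ 2 * Real.log (pat X n0) := h4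
        _ = Real.log (pat X n0) / (n0 : ℝ) ^ 2 * (((N / n0 + 1 : ℕ) : ℝ) * n0) ^ 2 := by
            field_simp
        _ ≤ Real.log (pat X n0) / (n0 : ℝ) ^ 2 * ((N : ℝ) + n0) ^ 2 :=
            mul_le_mul_of_nonneg_left h7 (div_nonneg (ha0 n0) (sq_nonneg _))
  · intro n hn
    have h1 := hle n hn
    have hnR : (0 : ℝ) < (n : ℝ) ^ 2 := by positivity
    exact (le_div_iff₀ hnR).1 h1

end Pool.Agent.Helper830.Weiss
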