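import Pool.Agent.Helper830.Weiss.Sys
import Pool.Agent.Helper830.Weiss.Ent

set_option autoImplicit false

namespace Pool.Agent.Helper830.Weiss


theorem count_final_aux_restr {A : Type} [Fintype A] (X : Set (ℤ × ℤ → A))
    (hinv : ∀ x ∈ X, ∀ v : ℤ × ℤ, (fun u => x (u + v)) ∈ X) (r N : ℕ) (b : ℤ)
    (hb : b + r = N) :
    ((fun (y : ℤ × ℤ → A) (u : box (-(r : ℤ)) b) => y u.1) '' X).ncard ≤ pat X N := by
  classical
  have hmem : ∀ u : box (-(r : ℤ)) b, 0 ≤ u.1.1 + r ∧ u.1.1 + r < N ∧ 0 ≤ u.1.2 + r ∧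
      u.1.2 + r < N := by
    intro u
    have h := u.2
    simp only [box, Finset.mem_product, Finset.mem_Ico] at h
    omega
  let F : (Fin N × Fin N → A) → (box (-(r : ℤ)) b → A) := fun q u =>
    q (⟨(u.1.1 + r).toNat, by have := hmem u; omega⟩, ⟨(u.1.2 + r).toNat, by have := hmem u; omega⟩)
  unfold pat
  have hsub : ((fun (y : ℤ × ℤ → A) (u : box (-(r : ℤ)) b) => y u.1) '' X) ⊆
      F '' ((fun (x : ℤ × ℤ → A) (i : Fin N × Fin N) => x ((i.1 : ℤ), (i.2 : ℤ))) '' X) := by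
    rintro _ ⟨y, hy, rfl⟩
    refine ⟨_, ⟨fun u => y (u + (-(r:ℤ), -(r:ℤ))), hinv y hy _, rfl⟩, ?_⟩
    funext u
    have := hmem u
    show y _ = y _
    congr 1
    ext
    · simp only [Prod.fst_add]
      show (((u.1.1 + r).toNat : ℕ) : ℤ) + -(r:ℤ) = u.1.1
      omega
    · simp only [Prod.snd_add]
      show (((u.1.2 + r).toNat : ℕ) : ℤ) + -(r:ℤ) = u.1.2
      omega
  exact (Set.ncard_le_ncard hsub (Set.toFinite _)).trans (Set.ncard_image_le (Set.toFinite _))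

theorem count_final_aux_jensen (lam c M : ℝ) (hlam : 0 < lam) {δ : ℝ} (hδ : 0 < δ)
    (hl : lam = Real.log (1 + δ)) (I : Type) [Fintype I] (g : I → ℕ)
    (hg : c * M * (Fintype.card I : ℝ) ≤ ∑ i, (g i : ℝ)) :
    Real.exp (lam * c * M) * (Fintype.card I : ℝ) ≤ ∑ i, (1 + δ) ^ (g i) := by
  have h1 : ∀ i, Real.exp (lam * c * M) * (1 + lam * ((g i : ℝ) - c * M)) ≤ (1 + δ) ^ (g i) := by
    intro i
    have e1 : (1 + δ) ^ (g i) = Real.exp (lam * c * M) * Real.exp (lam * ((g i : ℝ) - c * M)) := by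
      rw [← Real.exp_add]
      have : lam * c * M + lam * ((g i : ℝ) - c * M) = (g i : ℝ) * lam := by ring
      rw [this, Real.exp_nat_mul, hl, Real.exp_log (by linarith)]
    rw [e1]
    apply mul_le_mul_of_nonneg_left _ (Real.exp_pos _).le
    have := Real.add_one_le_exp (lam * ((g i : ℝ) - c * M))
    linarith
  calc Real.exp (lam * c * M) * (Fintype.card I : ℝ)
      ≤ Real.exp (lam * c * M) * ((Fintype.card I : ℝ) +
          lam * (∑ i, (g i : ℝ) - c * M * (Fintype.card I : ℝ))) := by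
        apply mul_le_mul_of_nonneg_left _ (Real.exp_pos _).le
        have : 0 ≤ lam * (∑ i, (g i : ℝ) - c * M * (Fintype.card I : ℝ)) :=
          mul_nonneg hlam.le (by linarith)
        linarith
    _ = ∑ i, Real.exp (lam * c * M) * (1 + lam * ((g i : ℝ) - c * M)) := by
        rw [← Finset.mul_sum, Finset.sum_add_distrib, ← Finset.mul_sum, Finset.sum_sub_distrib]
        simp only [Finset.sum_const, Finset.card_univ, nsmul_eq_mul, mul_one]
        ring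
    _ ≤ ∑ i, (1 + δ) ^ (g i) := Finset.sum_le_sum fun i _ => h1 i

theorem count_final {A B : Type} [Fintype A] [Fintype B] (Y : Sys A B) (hne : Y.X.Nonempty) (Λ : ℕ)
    (hΛ : 4 * (Y.r : ℤ) < Λ)
    (hW : ∀ (m : ℕ) (I : Type) [Fintype I] (x : I → (ℤ × ℤ → A)), (∀ i, x i ∈ Y.X) →
      (∀ i j, (∀ v ∈ box 0 ((Λ : ℤ) * m), Y.φ (x i) v = Y.φ (x j) v) → i = j) →
      ∑ i, (1 + 1 / (Fintype.card A : ℝ) ^ (box (2 * Y.r) (Λ - 2 * Y.r)).card) ^ (gCount Y Λ m (x i)) ≤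
        (((fun (y : ℤ × ℤ → A) (u : box (-(Y.r : ℤ)) ((Λ : ℤ) * m + Y.r)) => y u.1) '' Y.X).ncard : ℝ))
    (hclass : ∀ s ∈ Y.φ '' Y.X, ∀ v₀ : ℤ × ℤ, ∀ L : (ℤ × ℤ → B) → (ℤ × ℤ → A),
      (∀ s' ∈ Y.φ '' Y.X, L s' ∈ Y.X ∧ ∀ v ∈ box Y.r (Λ - Y.r), Y.φ (L s') (v + v₀) = s' (v + v₀)) →
      ∃ s' ∈ Y.φ '' Y.X, (∀ v, v - v₀ ∉ box Y.r (Λ - Y.r) → s' v = s v) ∧
        Good Y Λ (fun u => L s' (u + v₀))) :
    ∃ ε : ℝ, 0 < ε ∧ ∀ m : ℕ, Real.log (pat (Y.φ '' Y.X) (m * Λ)) + ε * (m : ℝ) ^ 2 ≤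
      Real.log (pat Y.X (m * Λ + 2 * Y.r)) := by
  classical
  obtain ⟨x0, hx0⟩ := hne
  haveI : Nonempty A := ⟨x0 (0, 0)⟩
  haveI : Nonempty B := ⟨Y.φ x0 (0, 0)⟩
  set N0 : ℝ := (Fintype.card A : ℝ) ^ (box (2 * Y.r) (Λ - 2 * Y.r)).card with hN0
  have hN0pos : 0 < N0 := by
    have : 0 < Fintype.card A := Fintype.card_pos
    positivity
  set δ : ℝ := 1 / N0 with hδd
  have hδ : 0 < δ := by positivity
  set D := box (Y.r : ℤ) (Λ - Y.r) with hD
  set cB : ℝ := (Fintype.card B : ℝ) ^ D.card with hcBd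
  have hcB : 0 < cB := by
    have : 0 < Fintype.card B := Fintype.card_pos
    positivity
  set lam := Real.log (1 + δ) with hlamd
  have hlam : 0 < lam := Real.log_pos (by linarith)
  refine ⟨lam * (1 / cB), by positivity, fun m => ?_⟩
  set n := m * Λ with hn
  let ρ : (ℤ × ℤ → B) → (Fin n × Fin n → B) := fun s i => s ((i.1 : ℤ), (i.2 : ℤ))
  let P : Set (Fin n × Fin n → B) := ρ '' (Y.φ '' Y.X)
  have hpat : pat (Y.φ '' Y.X) n = P.ncard := rfl
  haveI : Fintype P := Fintype.ofFinite _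
  have hch : ∀ p : P, ∃ x ∈ Y.X, ρ (Y.φ x) = p.1 := by
    rintro ⟨p, s, ⟨x, hx, rfl⟩, rfl⟩
    exact ⟨x, hx, rfl⟩
  choose xp hxp hxp' using hch
  have hval : ∀ (p : P) (i : Fin n × Fin n), Y.φ (xp p) ((i.1 : ℤ), (i.2 : ℤ)) = p.1 i := by
    intro p i
    exact congrFun (hxp' p) i
  have hinj : ∀ i j : P, (∀ v ∈ box 0 ((Λ : ℤ) * m), Y.φ (xp i) v = Y.φ (xp j) v) → i = j := by
    intro p q h
    apply Subtype.ext
    funext i
    rw [← hval p i, ← hval q i]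
    apply h
    simp only [box, Finset.mem_product, Finset.mem_Ico]
    have h1 := i.1.2
    have h2 := i.2.2
    have h3 : (n : ℤ) = (Λ : ℤ) * m := by rw [hn]; push_cast; ring
    rw [← h3]
    exact ⟨⟨by positivity, by exact_mod_cast h1⟩, ⟨by positivity, by exact_mod_cast h2⟩⟩
  have hsum := hW m P xp hxp hinj
  have hK := count_final_aux_restr Y.X Y.inv Y.r (n + 2 * Y.r) ((Λ : ℤ) * m + Y.r)
    (by rw [hn]; push_cast; ring)
  -- good positions
  let off : Fin m × Fin m → ℤ × ℤ := fun t => ((Λ : ℤ) * (t.1.1 : ℤ), (Λ : ℤ) * (t.2.1 : ℤ))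
  let good : Fin m × Fin m → Finset P := fun t =>
    Finset.univ.filter (fun p => Good Y Λ (fun u => xp p (u + off t)))
  have hin : ∀ (t : Fin m × Fin m), ∀ v ∈ D, ∃ i : Fin n × Fin n,
      v + off t = ((i.1 : ℤ), (i.2 : ℤ)) := by
    intro t v hv
    simp only [hD, box, Finset.mem_product, Finset.mem_Ico] at hv
    obtain ⟨⟨a1, a2⟩, ⟨b1, b2⟩⟩ := hv
    have ht1 : (t.1.1 : ℤ) + 1 ≤ m := by exact_mod_cast t.1.2
    have ht2 : (t.2.1 : ℤ) + 1 ≤ m := by exact_mod_cast t.2.2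
    have hr : (0:ℤ) ≤ Y.r := by positivity
    have hΛ0 : (0:ℤ) ≤ Λ := by positivity
    have c1 : (Λ : ℤ) * (t.1.1 : ℤ) + Λ ≤ n := by
      have : (Λ : ℤ) * ((t.1.1 : ℤ) + 1) ≤ Λ * m := mul_le_mul_of_nonneg_left ht1 hΛ0
      rw [hn]; push_cast; linarith
    have c2 : (Λ : ℤ) * (t.2.1 : ℤ) + Λ ≤ n := by
      have : (Λ : ℤ) * ((t.2.1 : ℤ) + 1) ≤ Λ * m := mul_le_mul_of_nonneg_left ht2 hΛ0
      rw [hn]; push_cast; linarith
    have d1 : (0:ℤ) ≤ (Λ : ℤ) * (t.1.1 : ℤ) := by positivity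
    have d2 : (0:ℤ) ≤ (Λ : ℤ) * (t.2.1 : ℤ) := by positivity
    refine ⟨(⟨(v.1 + (Λ : ℤ) * (t.1.1 : ℤ)).toNat, by omega⟩,
      ⟨(v.2 + (Λ : ℤ) * (t.2.1 : ℤ)).toNat, by omega⟩), ?_⟩
    ext
    · show v.1 + (Λ : ℤ) * (t.1.1 : ℤ) = (((v.1 + (Λ : ℤ) * (t.1.1 : ℤ)).toNat : ℕ) : ℤ)
      omega
    · show v.2 + (Λ : ℤ) * (t.2.1 : ℤ) = (((v.2 + (Λ : ℤ) * (t.2.1 : ℤ)).toNat : ℕ) : ℤ)
      omega
  have hgood : ∀ t, (Fintype.card P : ℝ) ≤ ((good t).card : ℝ) * cB := by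
    intro t
    let L : (ℤ × ℤ → B) → (ℤ × ℤ → A) := fun s' =>
      if h : s' ∈ Y.φ '' Y.X then xp ⟨ρ s', Set.mem_image_of_mem ρ h⟩ else x0
    have hL : ∀ s' ∈ Y.φ '' Y.X, L s' ∈ Y.X ∧
        ∀ v ∈ box (Y.r : ℤ) (Λ - Y.r), Y.φ (L s') (v + off t) = s' (v + off t) := by
      intro s' hs'
      have e : L s' = xp ⟨ρ s', Set.mem_image_of_mem ρ hs'⟩ := dif_pos hs'
      rw [e]
      refine ⟨hxp _, fun v hv => ?_⟩
      obtain ⟨i, hi⟩ := hin t v hv
      rw [hi, hval]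
    have hG : ∀ p : P, ∃ q : P, q ∈ good t ∧ ∀ i : Fin n × Fin n,
        ((i.1 : ℤ), (i.2 : ℤ)) - off t ∉ D → q.1 i = p.1 i := by
      intro p
      obtain ⟨s', hs', hag, hgd⟩ := hclass (Y.φ (xp p)) ⟨xp p, hxp p, rfl⟩ (off t) L hL
      have e : L s' = xp ⟨ρ s', Set.mem_image_of_mem ρ hs'⟩ := dif_pos hs'
      rw [e] at hgd
      refine ⟨⟨ρ s', Set.mem_image_of_mem ρ hs'⟩, ?_, ?_⟩
      · exact Finset.mem_filter.2 ⟨Finset.mem_univ _, hgd⟩
      · intro i hi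
        show s' _ = _
        rw [hag _ hi, hval]
    choose G hG1 hG2 using hG
    have hcard : Fintype.card P ≤ Fintype.card ((good t) × (D → B)) := by
      apply Fintype.card_le_of_injective
        (fun p : P => ((⟨G p, hG1 p⟩ : good t), fun d : D => Y.φ (xp p) (d.1 + off t)))
      intro p q h
      simp only [Prod.mk.injEq, Subtype.mk.injEq] at h
      obtain ⟨h1, h2⟩ := h
      apply Subtype.ext
      funext i
      by_cases hi : ((i.1 : ℤ), (i.2 : ℤ)) - off t ∈ D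
      · have h3 := congrFun h2 ⟨_, hi⟩
        simp only [sub_add_cancel] at h3
        rw [hval, hval] at h3
        exact h3
      · rw [← hG2 p i hi, ← hG2 q i hi, h1]
    rw [Fintype.card_prod, Fintype.card_coe, Fintype.card_fun, Fintype.card_coe] at hcard
    rw [hcBd]
    exact_mod_cast hcard
  -- double counting
  have hdc : (1 / cB) * ((m : ℝ) ^ 2) * (Fintype.card P : ℝ) ≤
      ∑ p : P, (gCount Y Λ m (xp p) : ℝ) := by
    have e1 : ∑ p : P, (gCount Y Λ m (xp p) : ℝ) = ∑ t : Fin m × Fin m, ((good t).card : ℝ) := by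
      have : ∀ p : P, (gCount Y Λ m (xp p) : ℝ) = ∑ t : Fin m × Fin m,
          if Good Y Λ (fun u => xp p (u + off t)) then (1:ℝ) else 0 := by
        intro p
        unfold gCount
        rw [Finset.card_filter]
        push_cast
        rfl
      rw [Finset.sum_congr rfl fun p _ => this p, Finset.sum_comm]
      refine Finset.sum_congr rfl fun t _ => ?_
      simp only [good]
      rw [Finset.card_filter]
      push_cast
      rfl
    rw [e1]
    calc (1 / cB) * ((m : ℝ) ^ 2) * (Fintype.card P : ℝ)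
        = ∑ t : Fin m × Fin m, (1 / cB) * (Fintype.card P : ℝ) := by
          rw [Finset.sum_const, Finset.card_univ, Fintype.card_prod, Fintype.card_fin,
            nsmul_eq_mul]
          push_cast
          ring
      _ ≤ _ := by
          refine Finset.sum_le_sum fun t _ => ?_
          have := hgood t
          rw [one_div, inv_mul_le_iff₀ hcB]
          linarith
  have hfin := count_final_aux_jensen lam (1 / cB) ((m : ℝ) ^ 2) hlam hδ hlamd P
    (fun p => gCount Y Λ m (xp p)) hdc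
  have hKr : (((fun (y : ℤ × ℤ → A) (u : box (-(Y.r : ℤ)) ((Λ : ℤ) * m + Y.r)) => y u.1) ''
      Y.X).ncard : ℝ) ≤ (pat Y.X (n + 2 * Y.r) : ℝ) := by exact_mod_cast hK
  have hall : Real.exp (lam * (1 / cB) * (m : ℝ) ^ 2) * (Fintype.card P : ℝ) ≤
      (pat Y.X (n + 2 * Y.r) : ℝ) := hfin.trans (hsum.trans hKr)
  have hcardP : pat (Y.φ '' Y.X) n = Fintype.card P := by
    rw [hpat, Set.ncard_eq_toFinset_card', Set.toFinset_card]
  have hPpos : (0:ℝ) < Fintype.card P := by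
    haveI : Nonempty P := ⟨⟨ρ (Y.φ x0), Set.mem_image_of_mem ρ ⟨x0, hx0, rfl⟩⟩⟩
    exact_mod_cast Fintype.card_pos
  rw [hcardP]
  have := Real.log_le_log (by positivity) hall
  rw [Real.log_mul (Real.exp_pos _).ne' hPpos.ne', Real.log_exp] at this
  linarith

end Pool.Agent.Helper830.Weiss
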