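import Mathlib

set_option autoImplicit false

namespace Pool.Agent.Helper830.Weiss

/-! Visible alphabet, hidden alphabet and local rules. -/

/-- kinds of axis symbols: start, middle, end -/
inductive Ak | a | m | z
  deriving DecidableEq, Fintype

/-- visible alphabet -/
inductive Vis | hash | bit (b : Bool) | axis (k : Ak)
  deriving DecidableEq, Fintype

/-- line states of a non axis cell -/
inductive Ln | n | V (b : Bool) | H | C | H' (b : Bool) | V' | C'
  deriving DecidableEq, Fintype

/-- phases of an axis cell -/
inductive Ph | p0 | P1 (b : Bool) | p1 | P2 | p2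
  deriving DecidableEq, Fintype

/-- hidden alphabet -/
inductive St | hash | off (b : Bool) (l : Ln) | ax (k : Ak) (p : Ph)
  deriving DecidableEq, Fintype

/-- the visible symbol of a hidden symbol -/
def vis : St → Vis
  | St.hash => Vis.hash
  | St.off b _ => Vis.bit b
  | St.ax k _ => Vis.axis k

/-- single cell rule -/
def ok1 : St → Bool
  | St.ax Ak.a p => match p with
    | Ph.p0 => true
    | Ph.P1 _ => true
    | _ => false
  | St.ax Ak.z p => match p with
    | Ph.P2 => true
    | Ph.p2 => true
    | _ => false
  | _ => true

/-- `p` emits or carries a line upwards with bit `b` -/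
def upSrc : St → Option Bool
  | St.ax _ (Ph.P1 b) => some b
  | St.off _ (Ln.V b) => some b
  | _ => none

/-- `q` receives a line from below with bit `b` -/
def upDst : St → Option Bool
  | St.off _ (Ln.V b) => some b
  | St.off b Ln.C => some b
  | _ => none

/-- `p` emits or carries a line to the right with bit `b` -/
def rtSrc : St → Option Bool
  | St.ax _ (Ph.P1 b) => some b
  | St.off _ (Ln.H' b) => some b
  | _ => none

/-- `q` receives a line from the left -/
def rtDst : St → Option Bool
  | St.off _ (Ln.H' b) => some b
  | St.off b Ln.C' => some (!b)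
  | _ => none

/-- `q` emits or carries a line to the left -/
def ltSrc : St → Bool
  | St.ax _ Ph.P2 => true
  | St.off _ Ln.H => true
  | _ => false

/-- `p` receives a line from the right -/
def ltDst : St → Bool
  | St.off _ Ln.H => true
  | St.off _ Ln.C => true
  | _ => false

/-- `q` emits or carries a line downwards -/
def dnSrc : St → Bool
  | St.ax _ Ph.P2 => true
  | St.off _ Ln.V' => true
  | _ => false

/-- `p` receives a line from above -/
def dnDst : St → Bool
  | St.off _ Ln.V' => true
  | St.off _ Ln.C' => true
  | _ => false

/-- phase steps along the axis -/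
def step : Ph → Ph → Bool
  | Ph.p0, Ph.p0 => true
  | Ph.p0, Ph.P1 _ => true
  | Ph.P1 _, Ph.p1 => true
  | Ph.P1 _, Ph.P2 => true
  | Ph.p1, Ph.p1 => true
  | Ph.p1, Ph.P2 => true
  | Ph.P2, Ph.p2 => true
  | Ph.p2, Ph.p2 => true
  | _, _ => false

/-- rule for `p` and its upper neighbour `q` -/
def okN (p q : St) : Bool :=
  decide (p = St.hash) || decide (q = St.hash) ||
    (decide (upSrc p = upDst q) && decide (dnDst p = dnSrc q))

/-- rule for `p` and its right neighbour `q` -/
def okE (p q : St) : Bool :=
  decide (p = St.hash) || decide (q = St.hash) ||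
    (decide (rtSrc p = rtDst q) && decide (ltDst p = ltSrc q))

/-- rule for `p` and its upper right neighbour `q` -/
def okD : St → St → Bool
  | St.ax k p, St.ax k' p' => decide (k = Ak.z) || decide (k' = Ak.a) || step p p'
  | _, _ => true

/-- the hidden nearest neighbour shift -/
def X0 : Set (ℤ × ℤ → St) :=
  {y | ∀ v : ℤ × ℤ, ok1 (y v) = true ∧ okE (y v) (y (v + (1, 0))) = true ∧
    okN (y v) (y (v + (0, 1))) = true ∧ okD (y v) (y (v + (1, 1))) = true}

/-- the sofic shift -/
def S : Set (ℤ × ℤ → Vis) := {s | ∃ y ∈ X0, ∀ v, s v = vis (y v)}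

end Pool.Agent.Helper830.Weiss
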