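import Pool.Agent.Helper830.Weiss.Defs

set_option autoImplicit false

namespace Pool.Agent.Helper830.Weiss

theorem vis_hash {q : St} (h : vis q = Vis.hash) : q = St.hash := by
  cases q <;> simp [vis] at h ⊢

theorem okN_left (q : St) : okN St.hash q = true := by simp [okN]
theorem okN_right (p : St) : okN p St.hash = true := by simp [okN]
theorem okE_left (q : St) : okE St.hash q = true := by simp [okE]
theorem okE_right (p : St) : okE p St.hash = true := by simp [okE]
theorem okD_left (q : St) : okD St.hash q = true := by cases q <;> rfl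
theorem okD_right (p : St) : okD p St.hash = true := by cases p <;> rfl

/-- Pasting along hash symbols. -/
theorem S_paste {I : Type} (τ : ℤ × ℤ → I) (s : I → (ℤ × ℤ → Vis)) (hs : ∀ i, s i ∈ S)
    (hbd : ∀ p e : ℤ × ℤ, (e = (1, 0) ∨ e = (0, 1) ∨ e = (1, 1)) → τ p ≠ τ (p + e) →
      s (τ p) p = Vis.hash ∨ s (τ (p + e)) (p + e) = Vis.hash) :
    (fun v => s (τ v) v) ∈ S := by
  choose y hy hv using hs
  refine ⟨fun v => y (τ v) v, ?_, fun v => hv _ _⟩
  intro v
  refine ⟨(hy (τ v) v).1, ?_, ?_, ?_⟩
  · by_cases h : τ v = τ (v + (1, 0))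
    · have := (hy (τ v) v).2.1
      simp only [← h]
      exact this
    · rcases hbd v (1, 0) (Or.inl rfl) h with h' | h'
      · have : y (τ v) v = St.hash := vis_hash (by rw [← hv]; exact h')
        simp only [this]
        exact okE_left _
      · have : y (τ (v + (1, 0))) (v + (1, 0)) = St.hash := vis_hash (by rw [← hv]; exact h')
        simp only [this]
        exact okE_right _
  · by_cases h : τ v = τ (v + (0, 1))
    · have := (hy (τ v) v).2.2.1
      simp only [← h]
      exact this
    · rcases hbd v (0, 1) (Or.inr (Or.inl rfl)) h with h' | h'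
      · have : y (τ v) v = St.hash := vis_hash (by rw [← hv]; exact h')
        simp only [this]
        exact okN_left _
      · have : y (τ (v + (0, 1))) (v + (0, 1)) = St.hash := vis_hash (by rw [← hv]; exact h')
        simp only [this]
        exact okN_right _
  · by_cases h : τ v = τ (v + (1, 1))
    · have := (hy (τ v) v).2.2.2
      simp only [← h]
      exact this
    · rcases hbd v (1, 1) (Or.inr (Or.inr rfl)) h with h' | h'
      · have : y (τ v) v = St.hash := vis_hash (by rw [← hv]; exact h')
        simp only [this]
        exact okD_left _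
      · have : y (τ (v + (1, 1))) (v + (1, 1)) = St.hash := vis_hash (by rw [← hv]; exact h')
        simp only [this]
        exact okD_right _

/-- the all-hash configuration -/
theorem S_hash : (fun _ => Vis.hash) ∈ S :=
  ⟨fun _ => St.hash, fun _ => ⟨rfl, okE_left _, okN_left _, rfl⟩, fun _ => rfl⟩

/-- translation invariance -/
theorem S_shift (s : ℤ × ℤ → Vis) (hs : s ∈ S) (v : ℤ × ℤ) : (fun u => s (u + v)) ∈ S := by
  obtain ⟨y, hy, hv⟩ := hs
  refine ⟨fun u => y (u + v), fun u => ?_, fun u => hv _⟩
  have := hy (u + v)
  simp only [add_right_comm u _ v]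
  exact this

end Pool.Agent.Helper830.Weiss
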