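import Pool.Agent.Helper830.Weiss.Block
import Pool.Agent.Helper830.Weiss.Paste

set_option autoImplicit false

namespace Pool.Agent.Helper830.Weiss

/-- contents of one half of a block -/
abbrev U (s : ℕ) : Type := Fin s × Fin s → Bool

/-- evaluation of a content at integer coordinates -/
def ev (s : ℕ) (x : U s) (i j : ℤ) : Bool :=
  if h : (0 ≤ i ∧ i < s) ∧ (0 ≤ j ∧ j < s) then
    x (⟨i.toNat, by omega⟩, ⟨j.toNat, by omega⟩) else false

theorem ev_cast (s : ℕ) (x : U s) (i j : Fin s) : ev s x (i.1 : ℤ) (j.1 : ℤ) = x (i, j) := by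
  have hi := i.2
  have hj := j.2
  unfold ev
  rw [dif_pos (by constructor <;> constructor <;> omega)]
  congr 1

theorem ev_out (s : ℕ) (x : U s) (i j : ℤ) (h : ¬((0 ≤ i ∧ i < s) ∧ (0 ≤ j ∧ j < s))) :
    ev s x i j = false := dif_neg h

/-- the bits of a block with upper content `x` and lower content `y` -/
def bits (s r : ℕ) (x y : U s) (v : ℤ × ℤ) : Bool :=
  if v.1 < v.2 then ev s x v.1 (v.2 - ((s : ℤ) + r)) else ev s y v.2 (v.1 - ((s : ℤ) + r))

variable (s r M : ℕ)

/-- origin of the tile `t` -/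
def pos (t : Fin M × Fin M) : ℤ × ℤ :=
  (2 * (r : ℤ) + 1 + (2 * (s : ℤ) + 2 * r + 1) * (t.1.1 : ℤ),
   2 * (r : ℤ) + 1 + (2 * (s : ℤ) + 2 * r + 1) * (t.2.1 : ℤ))

/-- `v` lies in the tile `t` -/
def inBox (t : Fin M × Fin M) (v : ℤ × ℤ) : Prop :=
  (pos s r M t).1 ≤ v.1 ∧ v.1 < (pos s r M t).1 + (2 * (s : ℤ) + 2 * r + 1) ∧
  (pos s r M t).2 ≤ v.2 ∧ v.2 < (pos s r M t).2 + (2 * (s : ℤ) + 2 * r + 1)

theorem mul_unique {e a b c : ℤ} (he : 0 < e) (h1 : e * a ≤ c) (h2 : c < e * a + e) (h3 : e * b ≤ c)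
    (h4 : c < e * b + e) : a = b := by
  rcases lt_trichotomy a b with h | h | h
  · exfalso; nlinarith
  · exact h
  · exfalso; nlinarith

theorem inBox_unique {t t' : Fin M × Fin M} {v : ℤ × ℤ} (h : inBox s r M t v) (h' : inBox s r M t' v) :
    t = t' := by
  obtain ⟨h1, h2, h3, h4⟩ := h
  obtain ⟨h1', h2', h3', h4'⟩ := h'
  simp only [pos] at *
  have he : (0 : ℤ) < 2 * (s : ℤ) + 2 * r + 1 := by positivity
  have e1 : (t.1.1 : ℤ) = (t'.1.1 : ℤ) :=
    mul_unique (c := v.1 - (2 * (r : ℤ) + 1)) he (by linarith) (by linarith) (by linarith) (by linarith)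
  have e2 : (t.2.1 : ℤ) = (t'.2.1 : ℤ) :=
    mul_unique (c := v.2 - (2 * (r : ℤ) + 1)) he (by linarith) (by linarith) (by linarith) (by linarith)
  refine Prod.ext (Fin.ext (by exact_mod_cast e1)) (Fin.ext (by exact_mod_cast e2))

open Classical in
/-- the tile containing `v` -/
noncomputable def tau (v : ℤ × ℤ) : Option (Fin M × Fin M) :=
  if h : ∃ t, inBox s r M t v then some h.choose else none

theorem tau_some {t : Fin M × Fin M} {v : ℤ × ℤ} (h : inBox s r M t v) : tau s r M v = some t := by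
  have h' : ∃ t, inBox s r M t v := ⟨t, h⟩
  unfold tau
  rw [dif_pos h']
  exact congrArg some (inBox_unique s r M h'.choose_spec h)

theorem inBox_of_tau {t : Fin M × Fin M} {v : ℤ × ℤ} (h : tau s r M v = some t) : inBox s r M t v := by
  unfold tau at h
  split_ifs at h with h'
  simp only [Option.some.injEq] at h
  rw [← h]
  exact h'.choose_spec

/-- the value in a tile -/
noncomputable def tileCfg (p : Fin M × Fin M → U s × U s) : Option (Fin M × Fin M) → (ℤ × ℤ → Vis)
  | none => fun _ => Vis.hash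
  | some t => fun v => blockCfg (2 * (s : ℤ) + r) (bits s r (p t).1 (p t).2) (v - pos s r M t)

/-- the configuration of the family -/
noncomputable def famCfg (p : Fin M × Fin M → U s × U s) (v : ℤ × ℤ) : Vis :=
  tileCfg s r M p (tau s r M v) v

theorem famCfg_of_inBox (p : Fin M × Fin M → U s × U s) {t : Fin M × Fin M} {v : ℤ × ℤ}
    (h : inBox s r M t v) :
    famCfg s r M p v = blockCfg (2 * (s : ℤ) + r) (bits s r (p t).1 (p t).2) (v - pos s r M t) := by
  unfold famCfg
  rw [tau_some s r M h]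
  rfl

theorem famCfg_none (p : Fin M × Fin M → U s × U s) {v : ℤ × ℤ} (h : tau s r M v = none) :
    famCfg s r M p v = Vis.hash := by
  unfold famCfg
  rw [h]
  rfl

theorem blockCfg_ne_hash {h : ℤ} {b : ℤ × ℤ → Bool} {v : ℤ × ℤ} (hv : blockCfg h b v ≠ Vis.hash) :
    0 ≤ v.1 ∧ v.1 < h ∧ 0 ≤ v.2 ∧ v.2 < h := by
  unfold blockCfg at hv
  by_contra hc
  exact hv (if_neg hc)

/-- one block of the family is in `S` -/
theorem block_mem (hs : 1 ≤ s) (x y : U s) (hxy : x ≠ y) :
    blockCfg (2 * (s : ℤ) + r) (bits s r x y) ∈ S := by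
  have : ∃ ik : Fin s × Fin s, x ik ≠ y ik := by
    by_contra hc
    push Not at hc
    exact hxy (funext hc)
  obtain ⟨⟨i, k⟩, hik⟩ := this
  have hi := i.2
  have hk := k.2
  refine blockCfg_mem _ (by omega) _ (i.1 : ℤ) ((k.1 : ℤ) + ((s : ℤ) + r)) (by omega) (by omega) (by omega) ?_
  unfold bits
  rw [if_pos (by simp only; omega), if_neg (by simp only; omega)]
  simp only
  rw [show (k.1 : ℤ) + ((s : ℤ) + r) - ((s : ℤ) + r) = (k.1 : ℤ) by ring, ev_cast, ev_cast]
  exact hik

theorem fam_mem (hs : 1 ≤ s) (p : Fin M × Fin M → U s × U s) (hp : ∀ t, (p t).1 ≠ (p t).2) :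
    famCfg s r M p ∈ S := by
  have := S_paste (tau s r M) (tileCfg s r M p) ?_ ?_
  · exact this
  · intro i
    cases i with
    | none => exact S_hash
    | some t =>
      have h1 := S_shift _ (block_mem s r hs _ _ (hp t)) (-pos s r M t)
      exact h1
  · intro v e he hne
    left
    cases htv : tau s r M v with
    | none => rfl
    | some t =>
      have hb := inBox_of_tau s r M htv
      by_contra hc
      have hc' := blockCfg_ne_hash (show blockCfg (2 * (s : ℤ) + r) (bits s r (p t).1 (p t).2)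
        (v - pos s r M t) ≠ Vis.hash from hc)
      apply hne
      rw [htv]
      symm
      apply tau_some
      obtain ⟨c1, c2, c3, c4⟩ := hc'
      simp only [Prod.fst_sub, Prod.snd_sub] at c1 c2 c3 c4
      rcases he with rfl | rfl | rfl <;>
        refine ⟨?_, ?_, ?_, ?_⟩ <;> simp only [Prod.fst_add, Prod.snd_add] <;> omega

/-- side of the big box -/
def Lam : ℤ := (2 * (s : ℤ) + 2 * r + 1) * (M : ℤ) + 4 * r + 2

theorem fam_ne_hash (p : Fin M × Fin M → U s × U s) {v : ℤ × ℤ} (hv : famCfg s r M p v ≠ Vis.hash) :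
    (2 * (r : ℤ) + 1 ≤ v.1 ∧ v.1 + 2 * r + 1 < Lam s r M) ∧
    (2 * (r : ℤ) + 1 ≤ v.2 ∧ v.2 + 2 * r + 1 < Lam s r M) := by
  cases htv : tau s r M v with
  | none => exact absurd (famCfg_none s r M p htv) hv
  | some t =>
    have hb := inBox_of_tau s r M htv
    rw [famCfg_of_inBox s r M p hb] at hv
    obtain ⟨c1, c2, c3, c4⟩ := blockCfg_ne_hash hv
    simp only [Prod.fst_sub, Prod.snd_sub, pos] at c1 c2 c3 c4
    have h1 : (t.1.1 : ℤ) + 1 ≤ M := by have := t.1.2; omega
    have h2 : (t.2.1 : ℤ) + 1 ≤ M := by have := t.2.2; omega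
    have h3 : (0 : ℤ) ≤ t.1.1 := by positivity
    have h4 : (0 : ℤ) ≤ t.2.1 := by positivity
    unfold Lam
    refine ⟨⟨?_, ?_⟩, ⟨?_, ?_⟩⟩ <;> nlinarith

/-- `v` lies in the lower content square of tile `j` -/
def inY (j : Fin M × Fin M) (v : ℤ × ℤ) : Prop :=
  (pos s r M j).1 + (s + r) ≤ v.1 ∧ v.1 < (pos s r M j).1 + (2 * s + r) ∧
  (pos s r M j).2 ≤ v.2 ∧ v.2 < (pos s r M j).2 + s

theorem fam_congr_left (j : Fin M × Fin M) (p p' : Fin M × Fin M → U s × U s)
    (h : ∀ i, i ≠ j → p i = p' i) (hx : (p j).1 = (p' j).1) {v : ℤ × ℤ} (hv : ¬ inY s r M j v) :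
    famCfg s r M p v = famCfg s r M p' v := by
  cases htv : tau s r M v with
  | none => rw [famCfg_none s r M p htv, famCfg_none s r M p' htv]
  | some t =>
    have hb := inBox_of_tau s r M htv
    rw [famCfg_of_inBox s r M p hb, famCfg_of_inBox s r M p' hb]
    by_cases htj : t = j
    · subst htj
      unfold blockCfg
      split_ifs with h1 h2 h3 h4
      · rfl
      · rfl
      · rfl
      · congr 1
        unfold bits
        split_ifs with h5
        · rw [hx]
        · have : ¬((0 ≤ (v - pos s r M t).2 ∧ (v - pos s r M t).2 < (s : ℤ)) ∧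
              (0 ≤ (v - pos s r M t).1 - ((s : ℤ) + r) ∧
                (v - pos s r M t).1 - ((s : ℤ) + r) < (s : ℤ))) := by
            rintro ⟨⟨a1, a2⟩, a3, a4⟩
            apply hv
            simp only [Prod.fst_sub, Prod.snd_sub] at a1 a2 a3 a4
            refine ⟨?_, ?_, ?_, ?_⟩ <;> omega
          rw [ev_out _ _ _ _ this, ev_out _ _ _ _ this]
      · rfl
    · rw [h t htj]

theorem fam_congr_right (j : Fin M × Fin M) (p p' : Fin M × Fin M → U s × U s)
    (hy : (p j).2 = (p' j).2) {v : ℤ × ℤ}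
    (h1 : (pos s r M j).1 + s ≤ v.1) (h2 : v.1 < (pos s r M j).1 + (2 * s + 2 * r))
    (h3 : (pos s r M j).2 - r ≤ v.2) (h4 : v.2 < (pos s r M j).2 + (s + r)) :
    famCfg s r M p v = famCfg s r M p' v := by
  by_cases hv2 : (pos s r M j).2 ≤ v.2
  · have hb : inBox s r M j v := ⟨by omega, by omega, by omega, by omega⟩
    rw [famCfg_of_inBox s r M p hb, famCfg_of_inBox s r M p' hb]
    unfold blockCfg
    split_ifs with g1 g2 g3 g4
    · rfl
    · rfl
    · rfl
    · congr 1
      unfold bits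
      simp only [Prod.fst_sub, Prod.snd_sub]
      split_ifs with g5
      · have : ∀ z : U s, ev s z (v.1 - (pos s r M j).1) (v.2 - (pos s r M j).2 - ((s : ℤ) + r)) = false := by
          intro z
          apply ev_out
          rintro ⟨⟨a1, a2⟩, a3, a4⟩
          omega
        rw [this, this]
      · rw [hy]
    · rfl
  · have key : ∀ q : Fin M × Fin M → U s × U s, famCfg s r M q v = Vis.hash := by
      intro q
      cases htv : tau s r M v with
      | none => exact famCfg_none s r M q htv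
      | some t =>
        have hb := inBox_of_tau s r M htv
        rw [famCfg_of_inBox s r M q hb]
        by_contra hc
        obtain ⟨c1, c2, c3, c4⟩ := blockCfg_ne_hash hc
        simp only [Prod.fst_sub, Prod.snd_sub, pos] at c1 c2 c3 c4 h3 hv2
        have : (t.2.1 : ℤ) < j.2.1 := by
          by_contra hlt
          push Not at hlt
          nlinarith [mul_le_mul_of_nonneg_left hlt (show (0:ℤ) ≤ 2 * (s:ℤ) + 2 * r + 1 by positivity)]
        have h5 : (t.2.1 : ℤ) + 1 ≤ j.2.1 := by omega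
        have := mul_le_mul_of_nonneg_left h5 (show (0:ℤ) ≤ 2 * (s:ℤ) + 2 * r + 1 by positivity)
        nlinarith
    rw [key, key]

end Pool.Agent.Helper830.Weiss
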