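import Mathlib

set_option autoImplicit false

namespace Pool.Agent.Helper830.Weiss

/-- closeness -/
def near (r : ℕ) (v u : ℤ × ℤ) : Prop := |u.1 - v.1| ≤ r ∧ |u.2 - v.2| ≤ r

/-- the square `[a, b)^2` -/
noncomputable def box (a b : ℤ) : Finset (ℤ × ℤ) := Finset.Ico a b ×ˢ Finset.Ico a b

/-- a shift `X` determined by windows of radius `r`, and a window map `φ` of radius `r` on it -/
structure Sys (A B : Type) where
  X : Set (ℤ × ℤ → A)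
  φ : (ℤ × ℤ → A) → (ℤ × ℤ → B)
  r : ℕ
  loc : ∀ z : ℤ × ℤ → A, (∀ v, ∃ x ∈ X, ∀ u, near r v u → z u = x u) → z ∈ X
  win : ∀ x ∈ X, ∀ x' ∈ X, ∀ v, (∀ u, near r v u → x u = x' u) → φ x v = φ x' v
  inv : ∀ x ∈ X, ∀ v : ℤ × ℤ, (fun u => x (u + v)) ∈ X
  com : ∀ x ∈ X, ∀ v : ℤ × ℤ, φ (fun u => x (u + v)) = fun u => φ x (u + v)

/-- `x` and `γ` agree on the frame of width `2r` of the box `[0,Λ)^2` -/
def SameFrame {A B : Type} (Y : Sys A B) (Λ : ℤ) (x γ : ℤ × ℤ → A) : Prop :=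
  ∀ u ∈ box 0 Λ, u ∉ box (2 * Y.r) (Λ - 2 * Y.r) → x u = γ u

/-- the frame of `γ` has two different fillings with the same image -/
def Good {A B : Type} (Y : Sys A B) (Λ : ℤ) (γ : ℤ × ℤ → A) : Prop :=
  ∃ x ∈ Y.X, ∃ x' ∈ Y.X, SameFrame Y Λ x γ ∧ SameFrame Y Λ x' γ ∧
    (∀ v ∈ box Y.r (Λ - Y.r), Y.φ x v = Y.φ x' v) ∧ ∃ u ∈ box (2 * Y.r) (Λ - 2 * Y.r), x u ≠ x' u

open Classical in
/-- number of good boxes among the `m^2` boxes of `[0, mΛ)^2` -/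
noncomputable def gCount {A B : Type} (Y : Sys A B) (Λ : ℤ) (m : ℕ) (x : ℤ × ℤ → A) : ℕ :=
  (Finset.univ.filter (fun t : Fin m × Fin m =>
    Good Y Λ (fun u => x (u + (Λ * (t.1.1 : ℤ), Λ * (t.2.1 : ℤ)))))).card

end Pool.Agent.Helper830.Weiss
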