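import Pool.Agent.Helper830.Weiss.Fam
import Pool.Agent.Helper830.Weiss.Sys

set_option autoImplicit false

namespace Pool.Agent.Helper830.Weiss

variable (s r M : ℕ)

theorem mem_box (a b : ℤ) (v : ℤ × ℤ) : v ∈ box a b ↔ (a ≤ v.1 ∧ v.1 < b) ∧ (a ≤ v.2 ∧ v.2 < b) := by
  simp [box, Finset.mem_product]

theorem pos_bounds (t : Fin M × Fin M) :
    (2 * (r : ℤ) + 1 ≤ (pos s r M t).1 ∧ (pos s r M t).1 + (2 * (s : ℤ) + 2 * r + 1) + 2 * r + 1 ≤ Lam s r M) ∧
    (2 * (r : ℤ) + 1 ≤ (pos s r M t).2 ∧ (pos s r M t).2 + (2 * (s : ℤ) + 2 * r + 1) + 2 * r + 1 ≤ Lam s r M) := by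
  have h1 : (t.1.1 : ℤ) + 1 ≤ M := by have := t.1.2; omega
  have h2 : (t.2.1 : ℤ) + 1 ≤ M := by have := t.2.2; omega
  have h3 : (0 : ℤ) ≤ t.1.1 := by positivity
  have h4 : (0 : ℤ) ≤ t.2.1 := by positivity
  have h5 : (0 : ℤ) ≤ 2 * (s : ℤ) + 2 * r + 1 := by positivity
  unfold Lam pos
  simp only
  refine ⟨⟨?_, ?_⟩, ⟨?_, ?_⟩⟩ <;> nlinarith

/-- the family can be pasted into any point of `S` -/
theorem fam_paste (hs : 1 ≤ s) (p : Fin M × Fin M → U s × U s) (hp : ∀ t, (p t).1 ≠ (p t).2)
    (σ : ℤ × ℤ → Vis) (hσ : σ ∈ S) (v₀ : ℤ × ℤ) :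
    (fun v => if v - v₀ ∈ box r (Lam s r M - r) then famCfg s r M p (v - v₀) else σ v) ∈ S := by
  classical
  have := S_paste (I := Bool) (fun v => decide (v - v₀ ∈ box r (Lam s r M - r)))
    (fun b => if b then (fun v => famCfg s r M p (v - v₀)) else σ) ?_ ?_
  · convert this using 2 with v
    by_cases h : v - v₀ ∈ box r (Lam s r M - r)
    · simp [h]
    · simp [h]
  · intro b
    cases b with
    | false => simpa using hσ
    | true =>
      have h1 := S_shift _ (fam_mem s r M hs p hp) (-v₀)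
      simpa [sub_eq_add_neg] using h1
  · intro v e he hne
    by_cases h : v - v₀ ∈ box r (Lam s r M - r)
    · left
      simp only [h, decide_true, if_true]
      by_contra hc
      obtain ⟨⟨c1, c2⟩, c3, c4⟩ := fam_ne_hash s r M p hc
      apply hne
      simp only [Prod.fst_sub, Prod.snd_sub] at c1 c2 c3 c4
      have : v + e - v₀ ∈ box r (Lam s r M - r) := by
        rw [mem_box]
        rcases he with rfl | rfl | rfl <;>
          refine ⟨⟨?_, ?_⟩, ?_, ?_⟩ <;> simp only [Prod.fst_add, Prod.snd_add, Prod.fst_sub, Prod.snd_sub] <;> omega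
      simp [h, this]
    · right
      have h' : v + e - v₀ ∈ box r (Lam s r M - r) := by
        by_contra hc
        exact hne (by simp [h, hc])
      simp only [h', decide_true, if_true]
      by_contra hc
      obtain ⟨⟨c1, c2⟩, c3, c4⟩ := fam_ne_hash s r M p hc
      apply h
      simp only [Prod.fst_sub, Prod.snd_sub, Prod.fst_add, Prod.snd_add] at c1 c2 c3 c4
      rw [mem_box]
      rcases he with rfl | rfl | rfl <;>
        refine ⟨⟨?_, ?_⟩, ?_, ?_⟩ <;> simp only [Prod.fst_sub, Prod.snd_sub] at * <;> omega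

theorem famCfg_block (p : Fin M × Fin M → U s × U s) (t : Fin M × Fin M) (i j : ℤ)
    (hi : 0 ≤ i) (hi' : i < 2 * s + r) (hj : 0 ≤ j) (hj' : j < 2 * s + r) :
    famCfg s r M p (pos s r M t + (i, j)) =
      blockCfg (2 * (s : ℤ) + r) (bits s r (p t).1 (p t).2) (i, j) := by
  have hb : inBox s r M t (pos s r M t + (i, j)) := by
    refine ⟨?_, ?_, ?_, ?_⟩ <;> simp only [Prod.fst_add, Prod.snd_add] <;> omega
  rw [famCfg_of_inBox s r M p hb, add_sub_cancel_left]

theorem mem_box_block (t : Fin M × Fin M) (i j : ℤ)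
    (hi : 0 ≤ i) (hi' : i < 2 * s + r) (hj : 0 ≤ j) (hj' : j < 2 * s + r) :
    pos s r M t + (i, j) ∈ box r (Lam s r M - r) := by
  obtain ⟨⟨a1, a2⟩, a3, a4⟩ := pos_bounds s r M t
  rw [mem_box]
  refine ⟨⟨?_, ?_⟩, ?_, ?_⟩ <;> simp only [Prod.fst_add, Prod.snd_add] <;> omega

/-- a point of `S` cannot show a family member with a symmetric block -/
theorem fam_diag_false (hs : 1 ≤ s) (p : Fin M × Fin M → U s × U s) (t : Fin M × Fin M)
    (hp : (p t).1 = (p t).2) (σ : ℤ × ℤ → Vis) (hσ : σ ∈ S)
    (h : ∀ v ∈ box r (Lam s r M - r), σ v = famCfg s r M p v) : False := by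
  have key : ∀ i j : ℤ, 0 ≤ i → i < 2 * s + r → 0 ≤ j → j < 2 * s + r →
      σ (pos s r M t + (i, j)) = blockCfg (2 * (s : ℤ) + r) (bits s r (p t).1 (p t).2) (i, j) := by
    intro i j h1 h2 h3 h4
    rw [h _ (mem_box_block s r M t i j h1 h2 h3 h4), famCfg_block s r M p t i j h1 h2 h3 h4]
  refine no_symm σ hσ (2 * (s : ℤ) + r) (by omega) (pos s r M t) ?_ ?_ ?_ ?_
  · have := key 0 0 le_rfl (by omega) le_rfl (by omega)
    rw [show pos s r M t + (0, 0) = pos s r M t by ext <;> simp] at this
    rw [this]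
    unfold blockCfg
    rw [if_pos (by simp only; omega), if_pos rfl, if_pos rfl]
  · rw [key _ _ (by omega) (by omega) (by omega) (by omega)]
    unfold blockCfg
    rw [if_pos (by simp only; omega), if_pos rfl, if_neg (by simp only; omega), if_pos rfl]
  · intro k hk1 hk2
    rw [key _ _ (by omega) (by omega) (by omega) (by omega)]
    unfold blockCfg
    rw [if_pos (by simp only; omega), if_pos rfl, if_neg (by simp only; omega), if_neg (by simp only; omega)]
  · intro i j h1 h2 h3
    refine ⟨bits s r (p t).1 (p t).2 (i, j), ?_, ?_⟩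
    · rw [key _ _ (by omega) (by omega) (by omega) (by omega)]
      unfold blockCfg
      rw [if_pos (by simp only; omega), if_neg (by simp only; omega)]
    · rw [key _ _ (by omega) (by omega) (by omega) (by omega)]
      unfold blockCfg
      rw [if_pos (by simp only; omega), if_neg (by simp only; omega)]
      unfold bits
      rw [if_neg (by simp only; omega), if_pos (by simp only; omega)]
      simp only [hp]

/-- the content determines the member of the family -/
theorem fam_inj (p p' : Fin M × Fin M → U s × U s)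
    (h : ∀ v ∈ box r (Lam s r M - r), famCfg s r M p v = famCfg s r M p' v) : p = p' := by
  funext t
  have key : ∀ i j : ℤ, 0 ≤ i → i < 2 * s + r → 0 ≤ j → j < 2 * s + r → i ≠ j →
      bits s r (p t).1 (p t).2 (i, j) = bits s r (p' t).1 (p' t).2 (i, j) := by
    intro i j h1 h2 h3 h4 hne
    have := h _ (mem_box_block s r M t i j h1 h2 h3 h4)
    rw [famCfg_block s r M p t i j h1 h2 h3 h4, famCfg_block s r M p' t i j h1 h2 h3 h4] at this
    unfold blockCfg at this
    rw [if_pos (by simp only; omega), if_neg (by simpa using hne),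
      if_pos (by simp only; omega), if_neg (by simpa using hne)] at this
    simpa using this
  refine Prod.ext (funext fun ik => ?_) (funext fun ik => ?_)
  · obtain ⟨i, k⟩ := ik
    have hi := i.2
    have hk := k.2
    have := key (i.1 : ℤ) ((k.1 : ℤ) + ((s : ℤ) + r)) (by omega) (by omega) (by omega) (by omega) (by omega)
    unfold bits at this
    rw [if_pos (by simp only; omega), if_pos (by simp only; omega)] at this
    simp only at this
    rw [show (k.1 : ℤ) + ((s : ℤ) + r) - ((s : ℤ) + r) = (k.1 : ℤ) by ring, ev_cast, ev_cast] at this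
    exact this
  · obtain ⟨i, k⟩ := ik
    have hi := i.2
    have hk := k.2
    have := key ((k.1 : ℤ) + ((s : ℤ) + r)) (i.1 : ℤ) (by omega) (by omega) (by omega) (by omega) (by omega)
    unfold bits at this
    rw [if_neg (by simp only; omega), if_neg (by simp only; omega)] at this
    simp only at this
    rw [show (k.1 : ℤ) + ((s : ℤ) + r) - ((s : ℤ) + r) = (k.1 : ℤ) by ring, ev_cast, ev_cast] at this
    exact this

end Pool.Agent.Helper830.Weiss
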