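import Mathlib

set_option autoImplicit false

namespace Pool.Agent.Helper830.Weiss

/-- Rank bound (Graham-Pollak type). `S x y` are sets in a finite type `Z`, empty on the diagonal and of almost
constant size off the diagonal; they have the rectangle property with respect to a context map `κ`. Then
`card U ≤ card K + 1`. -/
theorem rect_rank {U Z K α β : Type} [Fintype U] [DecidableEq U] [Finite Z] [Fintype K]
    (κ : Z → K) (a : Z → α) (b : Z → β)
    (hinj : ∀ z z' : Z, a z = a z' → b z = b z' → z = z')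
    (S : U → U → Set Z)
    (hrect : ∀ (x y x' y' : U) (z₁ z₂ : Z), z₁ ∈ S x y' → z₂ ∈ S x' y → κ z₁ = κ z₂ →
      ∃ z ∈ S x y, κ z = κ z₁ ∧ a z = a z₁ ∧ b z = b z₂)
    (hdiag : ∀ x, S x x = ∅) (c η : ℝ) (hc : 0 < c) (hη : (Fintype.card U : ℝ) * η < 1)
    (hoff : ∀ x y : U, x ≠ y → |((S x y).ncard : ℝ) - c| ≤ η * c) :
    Fintype.card U ≤ Fintype.card K + 1 := by
  classical
  have : Fintype Z := Fintype.ofFinite Z
  by_contra hlt
  push Not at hlt
  set A : K → U → Set α := fun k x => {p | ∃ y, ∃ z ∈ S x y, κ z = k ∧ a z = p} with hA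
  set B : K → U → Set β := fun k y => {q | ∃ x, ∃ z ∈ S x y, κ z = k ∧ b z = q} with hB
  have hfib : ∀ (k : K) (x y : U),
      ({z | z ∈ S x y ∧ κ z = k} : Set Z).ncard = (A k x).ncard * (B k y).ncard := by
    intro k x y
    have hinj' : Function.Injective (fun z : Z => (a z, b z)) := by
      intro z z' hz
      exact hinj z z' (congrArg Prod.fst hz) (congrArg Prod.snd hz)
    have him : (fun z : Z => (a z, b z)) '' {z | z ∈ S x y ∧ κ z = k} = A k x ×ˢ B k y := by
      ext ⟨p, q⟩
      constructor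
      · rintro ⟨z, ⟨hz, hk⟩, hpq⟩
        have h1 : a z = p := congrArg Prod.fst hpq
        have h2 : b z = q := congrArg Prod.snd hpq
        exact ⟨⟨y, z, hz, hk, h1⟩, ⟨x, z, hz, hk, h2⟩⟩
      · rintro ⟨⟨y', z₁, hz₁, hk₁, h1⟩, ⟨x', z₂, hz₂, hk₂, h2⟩⟩
        obtain ⟨z, hz, hk, ha, hb⟩ := hrect x y x' y' z₁ z₂ hz₁ hz₂ (hk₁.trans hk₂.symm)
        refine ⟨z, ⟨hz, hk.trans hk₁⟩, ?_⟩
        exact Prod.ext (ha.trans h1) (hb.trans h2)
    rw [← Set.ncard_prod, ← him, Set.ncard_image_of_injective _ hinj']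
  have hcard : ∀ x y : U, ((S x y).ncard : ℝ) =
      ∑ k, ((A k x).ncard : ℝ) * ((B k y).ncard : ℝ) := by
    intro x y
    have h1 : (S x y).ncard = (Finset.univ.filter (fun z => z ∈ S x y)).card := by
      rw [← Set.ncard_coe_finset]
      congr 1
      ext z
      simp
    have h2 := Finset.card_eq_sum_card_fiberwise (f := κ)
      (s := Finset.univ.filter (fun z => z ∈ S x y)) (t := Finset.univ)
      (fun z _ => Finset.mem_coe.2 (Finset.mem_univ _))
    rw [h1, h2]
    push_cast
    refine Finset.sum_congr rfl fun k _ => ?_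
    have h3 := hfib k x y
    have h4 : ((Finset.univ.filter (fun z => z ∈ S x y)).filter (fun z => κ z = k)).card =
        ({z | z ∈ S x y ∧ κ z = k} : Set Z).ncard := by
      rw [← Set.ncard_coe_finset]
      congr 1
      ext z
      simp
    rw [h4, h3]
    push_cast
    rfl
  -- linear algebra
  set M : Matrix (Option K) U ℝ := Matrix.of fun o y =>
    match o with
    | none => 1
    | some k => ((B k y).ncard : ℝ) with hM
  have hker : LinearMap.ker (Matrix.mulVecLin M) ≠ ⊥ := by
    apply LinearMap.ker_ne_bot_of_finrank_lt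
    rw [Module.finrank_fintype_fun_eq_card, Module.finrank_fintype_fun_eq_card,
      Fintype.card_option]
    exact hlt
  obtain ⟨w, hw, hw0⟩ := Submodule.exists_mem_ne_zero_of_ne_bot hker
  rw [LinearMap.mem_ker] at hw
  have hs : ∑ y, w y = 0 := by
    have h1 := congrFun hw none
    simpa [Matrix.mulVec, dotProduct, hM] using h1
  have hk : ∀ k, ∑ y, ((B k y).ncard : ℝ) * w y = 0 := by
    intro k
    have h1 := congrFun hw (some k)
    simpa [Matrix.mulVec, dotProduct, hM] using h1
  have hcU : 1 < Fintype.card U := by omega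
  have : Nontrivial U := Fintype.one_lt_card_iff_nontrivial.1 hcU
  obtain ⟨x, hx⟩ := Finite.exists_max (fun x => |w x|)
  have hxpos : 0 < |w x| := by
    obtain ⟨v, hv⟩ := Function.ne_iff.1 hw0
    exact lt_of_lt_of_le (abs_pos.2 hv) (hx v)
  have hzero : ∑ y, ((S x y).ncard : ℝ) * w y = 0 := by
    simp only [hcard x, Finset.sum_mul]
    rw [Finset.sum_comm]
    refine Finset.sum_eq_zero fun k _ => ?_
    have h1 := hk k
    calc ∑ y, ((A k x).ncard : ℝ) * ((B k y).ncard : ℝ) * w y
        = ((A k x).ncard : ℝ) * ∑ y, ((B k y).ncard : ℝ) * w y := by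
          rw [Finset.mul_sum]
          exact Finset.sum_congr rfl fun y _ => by ring
      _ = 0 := by rw [h1, mul_zero]
  have hxx : ((S x x).ncard : ℝ) = 0 := by rw [hdiag]; simp
  rw [← Finset.add_sum_erase _ _ (Finset.mem_univ x), hxx, zero_mul, zero_add] at hzero
  rw [← Finset.add_sum_erase _ _ (Finset.mem_univ x)] at hs
  have hmain : c * w x = ∑ y ∈ Finset.univ.erase x, (((S x y).ncard : ℝ) - c) * w y := by
    simp only [sub_mul, Finset.sum_sub_distrib, ← Finset.mul_sum]
    rw [hzero]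
    have : ∑ y ∈ Finset.univ.erase x, w y = - w x := by linarith
    rw [this]; ring
  have hη0 : 0 ≤ η * c := by
    obtain ⟨y, hy⟩ := exists_ne x
    exact (abs_nonneg _).trans (hoff x y (Ne.symm hy))
  have hbd : |c * w x| ≤ ∑ y ∈ Finset.univ.erase x, η * c * |w x| := by
    rw [hmain]
    refine (Finset.abs_sum_le_sum_abs _ _).trans (Finset.sum_le_sum fun y hy => ?_)
    rw [abs_mul]
    exact mul_le_mul (hoff x y (Ne.symm (Finset.ne_of_mem_erase hy))) (hx y) (abs_nonneg _) hη0
  have hbd2 : ∑ y ∈ Finset.univ.erase x, η * c * |w x| ≤ ∑ _y : U, η * c * |w x| :=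
    Finset.sum_le_sum_of_subset_of_nonneg (Finset.erase_subset _ _)
      fun _ _ _ => mul_nonneg hη0 hxpos.le
  have hbd3 : ∑ _y : U, η * c * |w x| = (Fintype.card U : ℝ) * (η * c * |w x|) := by
    rw [Finset.sum_const, Finset.card_univ, nsmul_eq_mul]
  rw [hbd3] at hbd2
  rw [abs_mul, abs_of_pos hc] at hbd
  have h3 : c * |w x| ≤ (Fintype.card U : ℝ) * η * (c * |w x|) := by
    calc c * |w x| ≤ _ := hbd.trans hbd2
      _ = _ := by ring
  have h4 : 0 < c * |w x| := mul_pos hc hxpos
  nlinarith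

end Pool.Agent.Helper830.Weiss
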