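import Mathlib

set_option autoImplicit false

namespace Pool.Agent.Helper830.Weiss

/-- A dense family `T` of functions `ι → α` with values in a finite set `Q` has a coordinate `j` and a prescription
`π` of some other coordinates (those in `I`) such that the completions are almost equidistributed over the value at
`j`. -/
theorem prefix_lemma {ι α : Type} [Fintype ι] [DecidableEq ι] [DecidableEq α] (Q : Finset α)
    (T : Finset (ι → α)) (hT : ∀ p ∈ T, ∀ j, p j ∈ Q) (θ : ℝ) (hθ : 0 < θ)
    (hbig : ((Q.card : ℝ)) ^ (Fintype.card ι) < (T.card : ℝ) * (1 + θ) ^ (Fintype.card ι)) :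
    ∃ (j : ι) (I : Finset ι) (π : ι → α), j ∉ I ∧
      0 < (T.filter (fun p => ∀ i ∈ I, p i = π i)).card ∧
      ∀ a ∈ Q, |(((T.filter (fun p => (∀ i ∈ I, p i = π i) ∧ p j = a)).card : ℝ)) -
          ((T.filter (fun p => ∀ i ∈ I, p i = π i)).card : ℝ) / (Q.card : ℝ)| ≤
        ((Q.card : ℝ) * θ) * (((T.filter (fun p => ∀ i ∈ I, p i = π i)).card : ℝ) / (Q.card : ℝ)) := by
  classical
  by_contra hcon
  have hTpos : 0 < T.card := by
    by_contra h
    have h0 : T.card = 0 := by omega
    rw [h0] at hbig
    simp only [Nat.cast_zero, zero_mul] at hbig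
    exact absurd hbig (not_lt.mpr (by positivity))
  have hTposR : (0 : ℝ) < T.card := by exact_mod_cast hTpos
  obtain ⟨p0, hp0⟩ := Finset.card_pos.mp hTpos
  have key : ∀ n, n ≤ Fintype.card ι → ∃ (I : Finset ι) (π : ι → α), I.card = n ∧
      (1 + θ) ^ n * (T.card : ℝ) ≤
        ((T.filter (fun p => ∀ i ∈ I, p i = π i)).card : ℝ) * (Q.card : ℝ) ^ n := by
    intro n
    induction n with
    | zero =>
      intro _
      refine ⟨∅, p0, rfl, ?_⟩
      simp
    | succ n ih =>
      intro hn
      obtain ⟨I, π, hI, hF⟩ := ih (by omega)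
      have hex : ∃ j, j ∉ I := by
        by_contra hall
        push Not at hall
        have h1 : I = Finset.univ := Finset.eq_univ_iff_forall.mpr hall
        rw [h1, Finset.card_univ] at hI
        omega
      obtain ⟨j, hj⟩ := hex
      have hQpos : 0 < Q.card := Finset.card_pos.mpr ⟨_, hT p0 hp0 j⟩
      have hq : (1 : ℝ) ≤ Q.card := by exact_mod_cast hQpos
      have hq0 : (0 : ℝ) < Q.card := by linarith
      set F : ℝ := ((T.filter (fun p => ∀ i ∈ I, p i = π i)).card : ℝ) with hFdef
      have hFpos : 0 < F := by
        have h1 : 0 < (1 + θ) ^ n * (T.card : ℝ) := by positivity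
        have h2 : 0 < F * (Q.card : ℝ) ^ n := lt_of_lt_of_le h1 hF
        exact pos_of_mul_pos_left h2 (by positivity)
      have hFpos' : 0 < (T.filter (fun p => ∀ i ∈ I, p i = π i)).card := by
        rw [hFdef] at hFpos
        exact Nat.cast_pos.mp hFpos
      let f : α → ℝ := fun a => ((T.filter (fun p => (∀ i ∈ I, p i = π i) ∧ p j = a)).card : ℝ)
      have hf0 : ∀ a, 0 ≤ f a := fun a => Nat.cast_nonneg _
      have hsum : ∑ b ∈ Q, f b = F := by
        have h1 := Finset.card_eq_sum_card_fiberwise (s := T.filter (fun p => ∀ i ∈ I, p i = π i))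
          (t := Q) (f := fun p => p j) (by
            intro p hp
            exact hT p (Finset.mem_filter.mp hp).1 j)
        rw [hFdef, h1]
        push_cast
        apply Finset.sum_congr rfl
        intro b _
        rw [Finset.filter_filter]
      have hexa : ∃ a ∈ Q, (1 + θ) * F < Q.card * f a := by
        by_contra hall
        push Not at hall
        apply hcon
        refine ⟨j, I, π, hj, hFpos', fun a ha => ?_⟩
        rw [← hFdef]
        have h1 : (Q.card : ℝ) * θ * (F / Q.card) = θ * F := by
          field_simp
        rw [h1]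
        show |f a - F / Q.card| ≤ θ * F
        have h2 : f a ≤ (1 + θ) * F / Q.card := by
          rw [le_div_iff₀ hq0]
          linarith [hall a ha]
        have h3 : ∑ b ∈ Q.erase a, f b ≤ ((Q.card : ℝ) - 1) * ((1 + θ) * F / Q.card) := by
          calc ∑ b ∈ Q.erase a, f b ≤ ∑ _b ∈ Q.erase a, (1 + θ) * F / Q.card := by
                apply Finset.sum_le_sum
                intro b hb
                rw [le_div_iff₀ hq0]
                linarith [hall b (Finset.mem_of_mem_erase hb)]
            _ = ((Q.card : ℝ) - 1) * ((1 + θ) * F / Q.card) := by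
                rw [Finset.sum_const, Finset.card_erase_of_mem ha, nsmul_eq_mul,
                  Nat.cast_sub hQpos, Nat.cast_one]
        have h4 : f a + ∑ b ∈ Q.erase a, f b = F := by
          rw [Finset.add_sum_erase Q f ha, hsum]
        have h5 : F / Q.card ≤ F := by
          rw [div_le_iff₀ hq0]
          nlinarith
        have h6 : 0 < F / Q.card := by positivity
        have h7 : (1 + θ) * F / Q.card = (1 + θ) * (F / Q.card) := by ring
        have h8 : (Q.card : ℝ) * (F / Q.card) = F := by field_simp
        rw [h7] at h2 h3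
        generalize F / (Q.card : ℝ) = G at *
        rw [abs_le]
        constructor
        · nlinarith
        · nlinarith
      obtain ⟨a, haQ, ha⟩ := hexa
      refine ⟨insert j I, Function.update π j a, ?_, ?_⟩
      · rw [Finset.card_insert_of_notMem hj, hI]
      · have h1 : T.filter (fun p => ∀ i ∈ insert j I, p i = Function.update π j a i) =
            T.filter (fun p => (∀ i ∈ I, p i = π i) ∧ p j = a) := by
          apply Finset.filter_congr
          intro p _
          constructor
          · intro h
            refine ⟨fun i hi => ?_, ?_⟩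
            · have h2 := h i (Finset.mem_insert_of_mem hi)
              have hij : i ≠ j := fun hh => hj (by rw [← hh]; exact hi)
              rwa [Function.update_of_ne hij] at h2
            · have h2 := h j (Finset.mem_insert_self _ _)
              rwa [Function.update_self] at h2
          · rintro ⟨h2, h3⟩ i hi
            rcases Finset.mem_insert.mp hi with h4 | h4
            · subst h4
              rw [Function.update_self]
              exact h3
            · have hij : i ≠ j := fun hh => hj (by rw [← hh]; exact h4)
              rw [Function.update_of_ne hij]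
              exact h2 i h4
        rw [h1]
        show (1 + θ) ^ (n + 1) * (T.card : ℝ) ≤ f a * (Q.card : ℝ) ^ (n + 1)
        calc (1 + θ) ^ (n + 1) * (T.card : ℝ) = (1 + θ) * ((1 + θ) ^ n * (T.card : ℝ)) := by ring
          _ ≤ (1 + θ) * (F * (Q.card : ℝ) ^ n) := mul_le_mul_of_nonneg_left hF (by positivity)
          _ = ((1 + θ) * F) * (Q.card : ℝ) ^ n := by ring
          _ ≤ (Q.card * f a) * (Q.card : ℝ) ^ n :=
              mul_le_mul_of_nonneg_right ha.le (by positivity)
          _ = f a * (Q.card : ℝ) ^ (n + 1) := by ring
  obtain ⟨I, π, hI, hF⟩ := key (Fintype.card ι) le_rfl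
  have hIu : I = Finset.univ := by
    rw [← Finset.card_eq_iff_eq_univ]
    exact hI
  have hle : (T.filter (fun p => ∀ i ∈ I, p i = π i)).card ≤ 1 := by
    rw [Finset.card_le_one]
    intro p hp p' hp'
    have h1 := (Finset.mem_filter.mp hp).2
    have h2 := (Finset.mem_filter.mp hp').2
    funext i
    have hi : i ∈ I := by rw [hIu]; exact Finset.mem_univ i
    rw [h1 i hi, h2 i hi]
  have hle' : ((T.filter (fun p => ∀ i ∈ I, p i = π i)).card : ℝ) ≤ 1 := by exact_mod_cast hle
  have h3 : ((T.filter (fun p => ∀ i ∈ I, p i = π i)).card : ℝ) * (Q.card : ℝ) ^ (Fintype.card ι) ≤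
      1 * (Q.card : ℝ) ^ (Fintype.card ι) := mul_le_mul_of_nonneg_right hle' (by positivity)
  linarith

end Pool.Agent.Helper830.Weiss
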