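import Pool.Agent.Helper830.Weiss.Fam2
import Pool.Agent.Helper830.Weiss.LA
import Pool.Agent.Helper830.Weiss.Pre

set_option autoImplicit false

namespace Pool.Agent.Helper830.Weiss

/-- the off diagonal pairs -/
noncomputable def Qs (s : ℕ) : Finset (U s × U s) := by
  classical exact Finset.univ.filter (fun q => q.1 ≠ q.2)

theorem mem_Qs (s : ℕ) (q : U s × U s) : q ∈ Qs s ↔ q.1 ≠ q.2 := by
  classical
  simp [Qs]

/-- the family members which occur over the frame of `γ` -/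
noncomputable def Ts {A : Type} (Y : Sys A Vis) (s M : ℕ) (γ : ℤ × ℤ → A) :
    Finset (Fin M × Fin M → U s × U s) := by
  classical exact Finset.univ.filter (fun p => (∀ t, (p t).1 ≠ (p t).2) ∧
    ∃ ξ ∈ Y.X, SameFrame Y (Lam s Y.r M) ξ γ ∧
      ∀ v ∈ box Y.r (Lam s Y.r M - Y.r), Y.φ ξ v = famCfg s Y.r M p v)

theorem mem_Ts {A : Type} (Y : Sys A Vis) (s M : ℕ) (γ : ℤ × ℤ → A) (p : Fin M × Fin M → U s × U s) :
    p ∈ Ts Y s M γ ↔ (∀ t, (p t).1 ≠ (p t).2) ∧ ∃ ξ ∈ Y.X, SameFrame Y (Lam s Y.r M) ξ γ ∧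
      ∀ v ∈ box Y.r (Lam s Y.r M - Y.r), Y.φ ξ v = famCfg s Y.r M p v := by
  classical
  simp [Ts]

theorem near_self (r : ℕ) (v : ℤ × ℤ) : near r v v := by
  simp [near]

theorem heart {A : Type} [Fintype A] (Y : Sys A Vis) (hS : Y.φ '' Y.X = S) (s M : ℕ) (hs : 1 ≤ s) (N : ℕ)
    (hsU : Fintype.card A ^ ((s + 4 * Y.r) ^ 2 - s ^ 2) + 1 < Fintype.card (U s))
    (θ : ℝ) (hθ : 0 < θ) (hθ2 : (Fintype.card (U s) : ℝ) * (((Qs s).card : ℝ) * θ) < 1)
    (hM : (N : ℝ) < (1 + θ) ^ (M * M))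
    (γ : ℤ × ℤ → A) (hγ : ¬ Good Y (Lam s Y.r M) γ) :
    (Ts Y s M γ).card * N < (Qs s).card ^ (M * M) := by
  classical
  by_contra hcon
  push Not at hcon
  have hcardι : Fintype.card (Fin M × Fin M) = M * M := by simp
  -- the set `Qs` is nonempty
  have hU2 : 1 < Fintype.card (U s) := by omega
  have hQpos : 0 < (Qs s).card := by
    obtain ⟨x, y, hxy⟩ := Fintype.one_lt_card_iff.1 hU2
    exact Finset.card_pos.2 ⟨(x, y), (mem_Qs s _).2 hxy⟩
  have hQR : (0 : ℝ) < ((Qs s).card : ℝ) := by exact_mod_cast hQpos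
  have hTpos : 0 < (Ts Y s M γ).card := by
    by_contra h
    have h0 : (Ts Y s M γ).card = 0 := by omega
    rw [h0, Nat.zero_mul] at hcon
    have : 0 < (Qs s).card ^ (M * M) := Nat.pow_pos hQpos
    omega
  have hTR : (0 : ℝ) < ((Ts Y s M γ).card : ℝ) := by exact_mod_cast hTpos
  have hbig : ((Qs s).card : ℝ) ^ (Fintype.card (Fin M × Fin M)) <
      ((Ts Y s M γ).card : ℝ) * (1 + θ) ^ (Fintype.card (Fin M × Fin M)) := by
    rw [hcardι]
    calc ((Qs s).card : ℝ) ^ (M * M) ≤ ((Ts Y s M γ).card : ℝ) * (N : ℝ) := by exact_mod_cast hcon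
      _ < ((Ts Y s M γ).card : ℝ) * (1 + θ) ^ (M * M) := by
        exact mul_lt_mul_of_pos_left hM hTR
  obtain ⟨j, I, π, hjI, hF, heq⟩ := prefix_lemma (Qs s) (Ts Y s M γ)
    (fun p hp t => (mem_Qs s _).2 (((mem_Ts Y s M γ p).1 hp).1 t)) θ hθ hbig
  -- lifts
  have hch : ∀ p : {p // p ∈ Ts Y s M γ}, ∃ ξ ∈ Y.X, SameFrame Y (Lam s Y.r M) ξ γ ∧
      ∀ v ∈ box Y.r (Lam s Y.r M - Y.r), Y.φ ξ v = famCfg s Y.r M p.1 v :=
    fun p => ((mem_Ts Y s M γ p.1).1 p.2).2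
  choose ξ hξX hξF hξφ using hch
  -- uniqueness of lifts
  have huniq : ∀ (p : {p // p ∈ Ts Y s M γ}) (ξ' : ℤ × ℤ → A), ξ' ∈ Y.X →
      SameFrame Y (Lam s Y.r M) ξ' γ →
      (∀ v ∈ box Y.r (Lam s Y.r M - Y.r), Y.φ ξ' v = famCfg s Y.r M p.1 v) →
      ∀ u ∈ box 0 (Lam s Y.r M), ξ p u = ξ' u := by
    intro p ξ' h1 h2 h3 u hu
    by_cases hu' : u ∈ box (2 * Y.r) (Lam s Y.r M - 2 * Y.r)
    · by_contra hne
      exact hγ ⟨ξ p, hξX p, ξ', h1, hξF p, h2, fun v hv => by rw [hξφ p v hv, h3 v hv], u, hu', hne⟩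
    · rw [hξF p u hu hu', h2 u hu hu']
  obtain ⟨⟨pb1, pb2⟩, pb3, pb4⟩ := pos_bounds s Y.r M j
  set P1 := (pos s Y.r M j).1 with hP1
  set P2 := (pos s Y.r M j).2 with hP2
  set YF : Finset (ℤ × ℤ) := Finset.Ico (P1 + (s + Y.r)) (P1 + (s + Y.r) + s) ×ˢ Finset.Ico P2 (P2 + s)
    with hYF
  set YB : Finset (ℤ × ℤ) := Finset.Ico (P1 + (s + Y.r) - 2 * Y.r) (P1 + (s + Y.r) + s + 2 * Y.r) ×ˢ
    Finset.Ico (P2 - 2 * Y.r) (P2 + s + 2 * Y.r) with hYB
  have memYF : ∀ u : ℤ × ℤ, u ∈ YF ↔ (P1 + (s + Y.r) ≤ u.1 ∧ u.1 < P1 + (s + Y.r) + s) ∧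
      (P2 ≤ u.2 ∧ u.2 < P2 + s) := by
    intro u; simp [hYF, Finset.mem_product]
  have memYB : ∀ u : ℤ × ℤ, u ∈ YB ↔
      (P1 + (s + Y.r) - 2 * Y.r ≤ u.1 ∧ u.1 < P1 + (s + Y.r) + s + 2 * Y.r) ∧
      (P2 - 2 * Y.r ≤ u.2 ∧ u.2 < P2 + s + 2 * Y.r) := by
    intro u; simp [hYB, Finset.mem_product]
  have hsub : YF ⊆ YB := by
    intro u hu
    rw [memYF] at hu
    rw [memYB]
    omega
  have hcardB : (YB \ YF).card = (s + 4 * Y.r) ^ 2 - s ^ 2 := by
    rw [Finset.card_sdiff_of_subset hsub, hYB, hYF, Finset.card_product, Finset.card_product, Int.card_Ico,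
      Int.card_Ico, Int.card_Ico, Int.card_Ico]
    have e1 : (P1 + (↑s + ↑Y.r) + ↑s + 2 * ↑Y.r - (P1 + (↑s + ↑Y.r) - 2 * ↑Y.r)).toNat = s + 4 * Y.r := by
      omega
    have e2 : (P2 + ↑s + 2 * ↑Y.r - (P2 - 2 * ↑Y.r)).toNat = s + 4 * Y.r := by omega
    have e3 : (P1 + (↑s + ↑Y.r) + ↑s - (P1 + (↑s + ↑Y.r))).toNat = s := by omega
    have e4 : (P2 + ↑s - P2).toNat = s := by omega
    rw [e1, e2, e3, e4]
    ring_nf
  have hYBbox : ∀ u ∈ YB, u ∈ box 0 (Lam s Y.r M) := by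
    intro u hu
    rw [memYB] at hu
    rw [mem_box]
    omega
  have hYFbox : ∀ u ∈ YF, u ∈ box (2 * Y.r) (Lam s Y.r M - 2 * Y.r) := by
    intro u hu
    rw [memYF] at hu
    rw [mem_box]
    omega
  -- apply the rank bound
  have hrank := rect_rank (U := U s) (Z := {p // p ∈ Ts Y s M γ})
    (K := ((YB \ YF : Finset (ℤ × ℤ)) → A))
    (fun p u => ξ p u.1)
    (fun p (u : {u : ℤ × ℤ // u ∈ box 0 (Lam s Y.r M) ∧ u ∉ YF}) => ξ p u.1)
    (fun p (u : {u : ℤ × ℤ // u ∈ YF}) => ξ p u.1)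
    ?_
    (fun x y => {p | (∀ i ∈ I, p.1 i = π i) ∧ p.1 j = (x, y)})
    ?_ ?_
    ((((Ts Y s M γ).filter (fun p => ∀ i ∈ I, p i = π i)).card : ℝ) / ((Qs s).card : ℝ))
    (((Qs s).card : ℝ) * θ) (div_pos (by exact_mod_cast hF) hQR) hθ2 ?_
  · have hK : Fintype.card ((YB \ YF : Finset (ℤ × ℤ)) → A) =
        Fintype.card A ^ ((s + 4 * Y.r) ^ 2 - s ^ 2) := by
      rw [Fintype.card_fun, Fintype.card_coe, hcardB]
    rw [hK] at hrank
    omega
  · -- injectivity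
    intro p p' ha hb
    apply Subtype.ext
    apply fam_inj s Y.r M
    intro v hv
    rw [← hξφ p v hv, ← hξφ p' v hv]
    apply Y.win _ (hξX p) _ (hξX p')
    intro u hu
    by_cases h : u ∈ YF
    · exact congrFun hb ⟨u, h⟩
    · refine congrFun ha ⟨u, ?_, h⟩
      rw [mem_box] at hv ⊢
      obtain ⟨h1, h2⟩ := hu
      rw [abs_le] at h1 h2
      omega
  · -- rectangle property
    intro x y x' y' p₁ p₂ h₁ h₂ hκ
    have hagree : ∀ u, u ∈ YB → u ∉ YF → ξ p₁ u = ξ p₂ u := fun u h1 h2 =>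
      congrFun hκ ⟨u, Finset.mem_sdiff.2 ⟨h1, h2⟩⟩
    set ζ : ℤ × ℤ → A := fun u => if u ∈ YF then ξ p₂ u else ξ p₁ u with hζ
    have hz1 : ∀ v, (∃ w ∈ YF, near Y.r v w) → ∀ u, near Y.r v u → ζ u = ξ p₂ u := by
      rintro v ⟨w, hw, hvw⟩ u hu
      by_cases h : u ∈ YF
      · simp [hζ, h]
      · have hB : u ∈ YB := by
          rw [memYF] at hw
          rw [memYB]
          obtain ⟨a1, a2⟩ := hvw
          obtain ⟨b1, b2⟩ := hu
          rw [abs_le] at a1 a2 b1 b2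
          omega
        simp only [hζ, h, if_false]
        exact hagree u hB h
    have hz2 : ∀ v, (¬ ∃ w ∈ YF, near Y.r v w) → ∀ u, near Y.r v u → ζ u = ξ p₁ u := by
      intro v hv u hu
      have h : u ∉ YF := fun h => hv ⟨u, h, hu⟩
      simp [hζ, h]
    have hζX : ζ ∈ Y.X := by
      apply Y.loc
      intro v
      by_cases h : ∃ w ∈ YF, near Y.r v w
      · exact ⟨ξ p₂, hξX p₂, hz1 v h⟩
      · exact ⟨ξ p₁, hξX p₁, hz2 v h⟩
    have hζF : SameFrame Y (Lam s Y.r M) ζ γ := by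
      intro u hu hu'
      have h : u ∉ YF := fun h => hu' (hYFbox u h)
      simp only [hζ, h, if_false]
      exact hξF p₁ u hu hu'
    set p : Fin M × Fin M → U s × U s := Function.update p₁.1 j (x, y) with hp
    have hζφ : ∀ v ∈ box Y.r (Lam s Y.r M - Y.r), Y.φ ζ v = famCfg s Y.r M p v := by
      intro v hv
      by_cases h : ∃ w ∈ YF, near Y.r v w
      · rw [Y.win _ hζX _ (hξX p₂) v (hz1 v h), hξφ p₂ v hv]
        obtain ⟨w, hw, hvw⟩ := h
        rw [memYF] at hw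
        obtain ⟨a1, a2⟩ := hvw
        rw [abs_le] at a1 a2
        apply fam_congr_right s Y.r M j
        · rw [h₂.2, hp, Function.update_self]
        · rw [← hP1]; omega
        · rw [← hP1]; omega
        · rw [← hP2]; omega
        · rw [← hP2]; omega
      · rw [Y.win _ hζX _ (hξX p₁) v (hz2 v h), hξφ p₁ v hv]
        apply fam_congr_left s Y.r M j
        · intro i hi
          rw [hp, Function.update_of_ne hi]
        · rw [h₁.2, hp, Function.update_self]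
        · intro hv'
          apply h
          refine ⟨v, ?_, near_self _ _⟩
          rw [memYF]
          unfold inY at hv'
          rw [← hP1, ← hP2] at hv'
          omega
    have hxy : x ≠ y := by
      intro hxy
      have hmem : Y.φ ζ ∈ S := by rw [← hS]; exact ⟨ζ, hζX, rfl⟩
      refine fam_diag_false s Y.r M hs p j ?_ (Y.φ ζ) hmem hζφ
      rw [hp, Function.update_self]
      exact hxy
    have hoffp : ∀ t, (p t).1 ≠ (p t).2 := by
      intro t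
      by_cases ht : t = j
      · subst ht
        rw [hp, Function.update_self]
        exact hxy
      · rw [hp, Function.update_of_ne ht]
        exact ((mem_Ts Y s M γ p₁.1).1 p₁.2).1 t
    have hpT : p ∈ Ts Y s M γ := (mem_Ts Y s M γ p).2 ⟨hoffp, ζ, hζX, hζF, hζφ⟩
    have hun := huniq ⟨p, hpT⟩ ζ hζX hζF hζφ
    refine ⟨⟨p, hpT⟩, ⟨fun i hi => ?_, ?_⟩, ?_, ?_, ?_⟩
    · have hij : i ≠ j := fun h => hjI (h ▸ hi)
      change p i = π i
      rw [hp, Function.update_of_ne hij]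
      exact h₁.1 i hi
    · change p j = (x, y)
      rw [hp, Function.update_self]
    · funext u
      have hu := Finset.mem_sdiff.1 u.2
      change ξ ⟨p, hpT⟩ u.1 = ξ p₁ u.1
      rw [hun u.1 (hYBbox _ hu.1)]
      simp [hζ, hu.2]
    · funext u
      change ξ ⟨p, hpT⟩ u.1 = ξ p₁ u.1
      rw [hun u.1 u.2.1]
      simp [hζ, u.2.2]
    · funext u
      change ξ ⟨p, hpT⟩ u.1 = ξ p₂ u.1
      rw [hun u.1 (hYBbox _ (hsub u.2))]
      simp [hζ, u.2]
  · -- diagonal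
    intro x
    ext p
    simp only [Set.mem_setOf_eq, Set.mem_empty_iff_false, iff_false, not_and]
    intro _ h
    have := ((mem_Ts Y s M γ p.1).1 p.2).1 j
    rw [h] at this
    exact this rfl
  · -- off diagonal
    intro x y hxy
    have h1 := heq (x, y) ((mem_Qs s _).2 hxy)
    have h2 : ({p : {p // p ∈ Ts Y s M γ} | (∀ i ∈ I, p.1 i = π i) ∧ p.1 j = (x, y)} : Set _).ncard =
        ((Ts Y s M γ).filter (fun p => (∀ i ∈ I, p i = π i) ∧ p j = (x, y))).card := by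
      rw [← Set.ncard_image_of_injective _ Subtype.val_injective, ← Set.ncard_coe_finset]
      congr 1
      ext p
      simp only [Set.mem_image, Set.mem_setOf_eq, Finset.coe_filter, Subtype.exists, exists_and_right,
        exists_eq_right]
      constructor
      · rintro ⟨⟨hT, hI⟩, hj⟩
        exact ⟨hT, hI, hj⟩
      · rintro ⟨hT, hI, hj⟩
        exact ⟨⟨hT, hI⟩, hj⟩
    rw [h2]
    exact h1

end Pool.Agent.Helper830.Weiss
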