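import Mathlib

set_option autoImplicit false

namespace Pool.Agent.Helper830.Weiss

theorem num1 (α r : ℕ) : ∃ s : ℕ, 1 ≤ s ∧ α ^ ((s + 4 * r) ^ 2 - s ^ 2) + 1 < 2 ^ (s * s) := by
  set c := α * (8 * r + 16 * r ^ 2) with hc
  refine ⟨c + 2, by omega, ?_⟩
  set s := c + 2 with hs
  have h1 : (s + 4 * r) ^ 2 - s ^ 2 ≤ (8 * r + 16 * r ^ 2) * s := by
    have : (s + 4 * r) ^ 2 ≤ (8 * r + 16 * r ^ 2) * s + s ^ 2 := by
      have h2 : 1 ≤ s := by omega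
      nlinarith [Nat.mul_le_mul_left (16 * r ^ 2) h2]
    omega
  have h2 : α ^ ((s + 4 * r) ^ 2 - s ^ 2) ≤ 2 ^ (c * s) := by
    calc α ^ ((s + 4 * r) ^ 2 - s ^ 2) ≤ (2 ^ α) ^ ((s + 4 * r) ^ 2 - s ^ 2) :=
          Nat.pow_le_pow_left Nat.lt_two_pow_self.le _
      _ ≤ (2 ^ α) ^ ((8 * r + 16 * r ^ 2) * s) := Nat.pow_le_pow_right (by positivity) h1
      _ = 2 ^ (c * s) := by rw [← pow_mul, hc, mul_assoc]
  have h3 : s * s = c * s + 2 * s := by rw [hs]; ring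
  have h4 : 2 ^ (c * s) * 4 ≤ 2 ^ (s * s) := by
    rw [h3, pow_add]
    apply Nat.mul_le_mul_left
    calc 4 = 2 ^ 2 := by norm_num
      _ ≤ 2 ^ (2 * s) := Nat.pow_le_pow_right (by norm_num) (by omega)
  have h5 : 1 ≤ 2 ^ (c * s) := Nat.one_le_two_pow
  omega

theorem num2 (α e r : ℕ) (θ : ℝ) (hθ : 0 < θ) :
    ∃ M : ℕ, 1 ≤ M ∧ (α : ℝ) ^ ((e * M + 4 * r + 2) ^ 2 - (e * M + 2) ^ 2) < (1 + θ) ^ (M * M) := by
  set C : ℕ := 4 * r * (2 * e + 4 * r + 4) with hC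
  set K : ℝ := (max (α : ℝ) 1) ^ C with hK
  have h1 := tendsto_pow_atTop_atTop_of_one_lt (show (1 : ℝ) < 1 + θ by linarith)
  obtain ⟨M, hM1, hM2⟩ := ((h1.eventually_gt_atTop K).and
    (Filter.eventually_ge_atTop 1)).exists
  refine ⟨M, hM2, ?_⟩
  have h2 : (e * M + 4 * r + 2) ^ 2 - (e * M + 2) ^ 2 ≤ C * M := by
    have : (e * M + 4 * r + 2) ^ 2 ≤ C * M + (e * M + 2) ^ 2 := by
      rw [hC]
      nlinarith [Nat.mul_le_mul_left (16 * r ^ 2) hM2, Nat.mul_le_mul_left (16 * r) hM2]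
    omega
  have hm1 : (1 : ℝ) ≤ max (α : ℝ) 1 := le_max_right _ _
  calc (α : ℝ) ^ ((e * M + 4 * r + 2) ^ 2 - (e * M + 2) ^ 2)
      ≤ (max (α : ℝ) 1) ^ ((e * M + 4 * r + 2) ^ 2 - (e * M + 2) ^ 2) :=
        pow_le_pow_left₀ (by positivity) (le_max_left _ _) _
    _ ≤ (max (α : ℝ) 1) ^ (C * M) := pow_le_pow_right₀ hm1 h2
    _ = K ^ M := by rw [hK, pow_mul]
    _ < ((1 + θ) ^ M) ^ M := pow_lt_pow_left₀ hM1 (by positivity) (by omega)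
    _ = (1 + θ) ^ (M * M) := by rw [pow_mul]

/-- the limit step: entropy of `X` is at least entropy of `S` plus `ε / Λ^2` -/
theorem limit_step (a b : ℕ → ℝ) (hX hS ε : ℝ) (Λ r : ℕ) (hΛ : 0 < Λ) (hε : 0 < ε)
    (ha : Filter.Tendsto (fun n : ℕ => a n / (n : ℝ) ^ 2) Filter.atTop (nhds hX))
    (hb : ∀ n : ℕ, 0 < n → hS * (n : ℝ) ^ 2 ≤ b n)
    (hab : ∀ m : ℕ, b (m * Λ) + ε * (m : ℝ) ^ 2 ≤ a (m * Λ + 2 * r)) : hS < hX := by
  have hΛ' : (0 : ℝ) < Λ := by exact_mod_cast hΛ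
  have h1 : Filter.Tendsto (fun m : ℕ => m * Λ + 2 * r) Filter.atTop Filter.atTop := by
    apply Filter.tendsto_atTop_mono (fun m => ?_) Filter.tendsto_id
    have := Nat.le_mul_of_pos_right m hΛ
    simp only [id]
    omega
  have h2 := ha.comp h1
  have h3 : Filter.Tendsto (fun m : ℕ => (hS * (Λ : ℝ) ^ 2 + ε) / ((Λ : ℝ) + 2 * r / (m : ℝ)) ^ 2)
      Filter.atTop (nhds ((hS * (Λ : ℝ) ^ 2 + ε) / ((Λ : ℝ) + 0) ^ 2)) := by
    apply Filter.Tendsto.div tendsto_const_nhds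
    · exact (tendsto_const_nhds.add (tendsto_const_div_atTop_nhds_zero_nat _)).pow 2
    · positivity
  have h4 : (hS * (Λ : ℝ) ^ 2 + ε) / ((Λ : ℝ) + 0) ^ 2 ≤ hX := by
    apply le_of_tendsto_of_tendsto h3 h2
    filter_upwards [Filter.eventually_ge_atTop 1] with m hm
    have hm' : (0 : ℝ) < m := by exact_mod_cast hm
    simp only [Function.comp]
    have h5 : ((Λ : ℝ) + 2 * r / (m : ℝ)) = (m * Λ + 2 * r) / m := by
      field_simp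
    have h6 := hb (m * Λ) (by positivity)
    have h7 := hab m
    push_cast at h6 h7 ⊢
    rw [h5, div_pow, div_div_eq_mul_div]
    apply div_le_div_of_nonneg_right _ (by positivity)
    calc (hS * (Λ : ℝ) ^ 2 + ε) * (m : ℝ) ^ 2 = hS * ((m : ℝ) * Λ) ^ 2 + ε * (m : ℝ) ^ 2 := by ring
      _ ≤ _ := by linarith
  have h5 : (hS * (Λ : ℝ) ^ 2 + ε) / ((Λ : ℝ) + 0) ^ 2 = hS + ε / (Λ : ℝ) ^ 2 := by
    rw [add_zero]
    field_simp
  rw [h5] at h4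
  have : 0 < ε / (Λ : ℝ) ^ 2 := by positivity
  linarith

end Pool.Agent.Helper830.Weiss
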