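import Pool.Agent.Helper830.Weiss.Sys

set_option autoImplicit false

namespace Pool.Agent.Helper830.Weiss


/-- translation vector of box `t` -/
def weighted_tr (Λ : ℤ) {m : ℕ} (t : Fin m × Fin m) : ℤ × ℤ :=
  (Λ * (t.1.1 : ℤ), Λ * (t.2.1 : ℤ))

theorem weighted_mem_box (a b : ℤ) (u : ℤ × ℤ) :
    u ∈ box a b ↔ (a ≤ u.1 ∧ u.1 < b) ∧ (a ≤ u.2 ∧ u.2 < b) := by
  unfold box
  rw [Finset.mem_product, Finset.mem_Ico, Finset.mem_Ico]

theorem weighted_mem_sub (a b : ℤ) (Λ : ℤ) {m : ℕ} (t : Fin m × Fin m) (u : ℤ × ℤ) :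
    u - weighted_tr Λ t ∈ box a b ↔ (a ≤ u.1 - Λ * (t.1.1 : ℤ) ∧ u.1 - Λ * (t.1.1 : ℤ) < b) ∧
      (a ≤ u.2 - Λ * (t.2.1 : ℤ) ∧ u.2 - Λ * (t.2.1 : ℤ) < b) := by
  rw [weighted_mem_box]
  rfl

theorem weighted_unique1 {Λ : ℤ} (hΛ : 0 < Λ) (a b c : ℤ) (h1 : 0 ≤ c - Λ * a)
    (h2 : c - Λ * a < Λ) (h3 : 0 ≤ c - Λ * b) (h4 : c - Λ * b < Λ) : a = b := by
  by_contra hab
  rcases lt_or_gt_of_ne hab with h5 | h5
  · have := mul_le_mul_of_nonneg_left (Int.add_one_le_iff.2 h5) hΛ.le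
    rw [mul_add, mul_one] at this
    linarith
  · have := mul_le_mul_of_nonneg_left (Int.add_one_le_iff.2 h5) hΛ.le
    rw [mul_add, mul_one] at this
    linarith

theorem weighted_unique {Λ : ℤ} (hΛ : 0 < Λ) {m : ℕ} {t t' : Fin m × Fin m} {u : ℤ × ℤ}
    (h : u - weighted_tr Λ t ∈ box 0 Λ) (h' : u - weighted_tr Λ t' ∈ box 0 Λ) : t = t' := by
  rw [weighted_mem_sub] at h h'
  have e1 := weighted_unique1 hΛ _ _ _ h.1.1 h.1.2 h'.1.1 h'.1.2
  have e2 := weighted_unique1 hΛ _ _ _ h.2.1 h.2.2 h'.2.1 h'.2.2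
  refine Prod.ext (Fin.ext (by exact_mod_cast e1)) (Fin.ext (by exact_mod_cast e2))

theorem weighted_exists {Λ : ℤ} (hΛ : 0 < Λ) {m : ℕ} {v : ℤ × ℤ} (h : v ∈ box 0 (Λ * m)) :
    ∃ t : Fin m × Fin m, v - weighted_tr Λ t ∈ box 0 Λ := by
  rw [weighted_mem_box] at h
  have key : ∀ c : ℤ, 0 ≤ c → c < Λ * m → ∃ a : Fin m, 0 ≤ c - Λ * (a.1 : ℤ) ∧
      c - Λ * (a.1 : ℤ) < Λ := by
    intro c h0 h1
    have h2 : 0 ≤ c / Λ := Int.ediv_nonneg h0 hΛ.le
    have h3 : c / Λ < m := Int.ediv_lt_of_lt_mul hΛ (by rwa [mul_comm] at h1)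
    refine ⟨⟨(c / Λ).toNat, by omega⟩, ?_⟩
    have h4 : (((c / Λ).toNat : ℕ) : ℤ) = c / Λ := Int.toNat_of_nonneg h2
    show 0 ≤ c - Λ * (((c / Λ).toNat : ℕ) : ℤ) ∧ c - Λ * (((c / Λ).toNat : ℕ) : ℤ) < Λ
    rw [h4]
    have h5 := Int.emod_add_mul_ediv c Λ
    have h6 := Int.emod_nonneg c hΛ.ne'
    have h7 := Int.emod_lt_of_pos c hΛ
    constructor <;> linarith
  obtain ⟨a, ha⟩ := key v.1 h.1.1 h.1.2
  obtain ⟨b, hb⟩ := key v.2 h.2.1 h.2.2
  exact ⟨(a, b), (weighted_mem_sub _ _ _ _ _).2 ⟨ha, hb⟩⟩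

theorem weighted_in {Λ : ℤ} (hΛ : 0 < Λ) {m : ℕ} {t : Fin m × Fin m} {u : ℤ × ℤ}
    (h : u - weighted_tr Λ t ∈ box 0 Λ) : u ∈ box 0 (Λ * m) := by
  rw [weighted_mem_sub] at h
  rw [weighted_mem_box]
  have key : ∀ (a : Fin m), 0 ≤ Λ * (a.1 : ℤ) ∧ Λ * (a.1 : ℤ) + Λ ≤ Λ * m := by
    intro a
    have h1 : (a.1 : ℤ) + 1 ≤ m := by exact_mod_cast a.2
    have h2 := mul_le_mul_of_nonneg_left h1 hΛ.le
    rw [mul_add, mul_one] at h2
    exact ⟨mul_nonneg hΛ.le (Int.natCast_nonneg _), h2⟩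
  have k1 := key t.1
  have k2 := key t.2
  obtain ⟨⟨a1, a2⟩, ⟨b1, b2⟩⟩ := h
  refine ⟨⟨?_, ?_⟩, ⟨?_, ?_⟩⟩ <;> linarith

theorem weighted_near {r : ℕ} {v u : ℤ × ℤ} (h : near r v u) :
    (v.1 - r ≤ u.1 ∧ u.1 ≤ v.1 + r) ∧ (v.2 - r ≤ u.2 ∧ u.2 ≤ v.2 + r) := by
  obtain ⟨h1, h2⟩ := h
  rw [abs_le] at h1 h2
  refine ⟨⟨?_, ?_⟩, ⟨?_, ?_⟩⟩ <;> linarith

theorem weighted_big {r : ℕ} {a : ℤ} {v u : ℤ × ℤ} (h : near r v u) (hv : v ∈ box 0 a) :
    u ∈ box (-(r : ℤ)) (a + r) := by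
  rw [weighted_mem_box] at hv ⊢
  have h1 := weighted_near h
  omega

theorem weighted_box_mono {a b a' b' : ℤ} (h1 : a' ≤ a) (h2 : b ≤ b') {u : ℤ × ℤ}
    (h : u ∈ box a b) : u ∈ box a' b' := by
  rw [weighted_mem_box] at h ⊢
  omega

theorem weighted_VD {r : ℕ} {Λ : ℤ} {m : ℕ} {t : Fin m × Fin m} {v u : ℤ × ℤ} (h : near r v u)
    (hu : u - weighted_tr Λ t ∈ box (2 * r) (Λ - 2 * r)) :
    v - weighted_tr Λ t ∈ box r (Λ - r) := by
  rw [weighted_mem_sub] at hu ⊢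
  have h1 := weighted_near h
  omega

theorem weighted_DE {r : ℕ} {Λ : ℤ} {m : ℕ} {t : Fin m × Fin m} {v u : ℤ × ℤ} (h : near r v u)
    (hv : v - weighted_tr Λ t ∈ box r (Λ - r)) :
    u - weighted_tr Λ t ∈ box 0 Λ := by
  rw [weighted_mem_sub] at hv ⊢
  have h1 := weighted_near h
  omega

theorem weighted_DE0 {r : ℕ} {Λ : ℤ} {v u : ℤ × ℤ} (h : near r v u)
    (hv : v ∈ box r (Λ - r)) : u ∈ box 0 Λ := by
  rw [weighted_mem_box] at hv ⊢
  have h1 := weighted_near h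
  omega

/-- fillings -/
def weighted_Fill {A B : Type} (Y : Sys A B) (Λ : ℤ) (γ : ℤ × ℤ → A) :
    Set (box (2 * Y.r) (Λ - 2 * Y.r) → A) :=
  {f | ∃ x ∈ Y.X, SameFrame Y Λ x γ ∧ f = fun u => x u.1}

/-- contents -/
def weighted_Cont {A B : Type} (Y : Sys A B) (Λ : ℤ) (γ : ℤ × ℤ → A) :
    Set (box Y.r (Λ - Y.r) → B) :=
  {f | ∃ x ∈ Y.X, SameFrame Y Λ x γ ∧ f = fun u => Y.φ x u.1}

theorem weighted_key {A B : Type} (Y : Sys A B) (Λ : ℤ) (γ x y : ℤ × ℤ → A) (hx : x ∈ Y.X)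
    (hy : y ∈ Y.X) (h1 : SameFrame Y Λ x γ) (h2 : SameFrame Y Λ y γ)
    (h3 : ∀ u ∈ box (2 * Y.r) (Λ - 2 * Y.r), x u = y u) (v : ℤ × ℤ)
    (hv : v ∈ box Y.r (Λ - Y.r)) : Y.φ x v = Y.φ y v := by
  apply Y.win x hx y hy v
  intro u hu
  have hu0 : u ∈ box 0 Λ := weighted_DE0 hu hv
  by_cases h : u ∈ box (2 * Y.r) (Λ - 2 * Y.r)
  · exact h3 u h
  · rw [h1 u hu0 h, h2 u hu0 h]

theorem weighted_A {A B : Type} [Fintype A] [Finite B] (Y : Sys A B) (Λ : ℤ) (γ : ℤ × ℤ → A) :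
    (Nat.card (weighted_Cont Y Λ γ) ≤ Nat.card (weighted_Fill Y Λ γ)) ∧
    (Good Y Λ γ → Nat.card (weighted_Cont Y Λ γ) + 1 ≤ Nat.card (weighted_Fill Y Λ γ)) ∧
    (Nat.card (weighted_Fill Y Λ γ) ≤
      Fintype.card A ^ (box (2 * Y.r) (Λ - 2 * Y.r)).card) := by
  classical
  have hc : ∀ c : weighted_Cont Y Λ γ, ∃ x ∈ Y.X, SameFrame Y Λ x γ ∧
      c.1 = fun u => Y.φ x u.1 := fun c => c.2
  choose g hgX hgS hgc using hc
  let H : weighted_Cont Y Λ γ → weighted_Fill Y Λ γ := fun c =>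
    ⟨fun u => g c u.1, g c, hgX c, hgS c, rfl⟩
  have hH : ∀ (c : weighted_Cont Y Λ γ) (x : ℤ × ℤ → A), x ∈ Y.X → SameFrame Y Λ x γ →
      (H c).1 = (fun u => x u.1) → c.1 = fun u => Y.φ x u.1 := by
    intro c x hx hs h
    rw [hgc c]
    funext v
    refine weighted_key Y Λ γ _ _ (hgX c) hx (hgS c) hs ?_ v.1 v.2
    intro u hu
    exact congrFun h ⟨u, hu⟩
  have hinj : Function.Injective H := by
    intro c c' h
    apply Subtype.ext
    have h1 := hH c (g c') (hgX c') (hgS c') (congrArg Subtype.val h)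
    rw [h1, hgc c']
  refine ⟨Nat.card_le_card_of_injective H hinj, ?_, ?_⟩
  · rintro ⟨x, hx, x', hx', hs, hs', hφ, u, hu, hne⟩
    by_contra hcon
    have hle : Nat.card (weighted_Fill Y Λ γ) ≤ Nat.card (weighted_Cont Y Λ γ) := by omega
    have hbij := hinj.bijective_of_nat_card_le hle
    obtain ⟨c, hc⟩ := hbij.2 ⟨fun u => x u.1, x, hx, hs, rfl⟩
    obtain ⟨c', hc'⟩ := hbij.2 ⟨fun u => x' u.1, x', hx', hs', rfl⟩
    have h1 := hH c x hx hs (congrArg Subtype.val hc)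
    have h2 := hH c' x' hx' hs' (congrArg Subtype.val hc')
    have h3 : c = c' := by
      apply Subtype.ext
      rw [h1, h2]
      funext v
      exact hφ v.1 v.2
    rw [← h3, hc] at hc'
    exact hne (congrFun (congrArg Subtype.val hc') ⟨u, hu⟩)
  · have h1 := Nat.card_le_card_of_injective
      (Subtype.val : weighted_Fill Y Λ γ → (box (2 * Y.r) (Λ - 2 * Y.r) → A)) Subtype.val_injective
    rw [Nat.card_eq_fintype_card (α := (box (2 * Y.r) (Λ - 2 * Y.r) → A)), Fintype.card_fun,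
      Fintype.card_coe] at h1
    exact h1

open Classical in
theorem weighted_A' {A B : Type} [Fintype A] [Finite B] (Y : Sys A B) (Λ : ℤ) (γ : ℤ × ℤ → A) :
    (Nat.card (weighted_Cont Y Λ γ) : ℝ) *
      (1 + 1 / (Fintype.card A : ℝ) ^ (box (2 * Y.r) (Λ - 2 * Y.r)).card) ^
        (if Good Y Λ γ then 1 else 0) ≤ (Nat.card (weighted_Fill Y Λ γ) : ℝ) := by
  obtain ⟨h1, h2, h3⟩ := weighted_A Y Λ γ
  split_ifs with hG
  · have h2' := h2 hG
    have h4 : (Nat.card (weighted_Cont Y Λ γ) : ℝ) + 1 ≤ Nat.card (weighted_Fill Y Λ γ) := by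
      exact_mod_cast h2'
    have h5 : (Nat.card (weighted_Cont Y Λ γ) : ℝ) ≤
        (Fintype.card A : ℝ) ^ (box (2 * Y.r) (Λ - 2 * Y.r)).card := by
      exact_mod_cast h1.trans h3
    have h6 : (Nat.card (weighted_Cont Y Λ γ) : ℝ) /
        (Fintype.card A : ℝ) ^ (box (2 * Y.r) (Λ - 2 * Y.r)).card ≤ 1 :=
      div_le_one_of_le₀ h5 (by positivity)
    rw [pow_one, mul_add, mul_one, mul_one_div]
    linarith
  · rw [pow_zero, mul_one]
    exact_mod_cast h1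

/-- the points of the fill zones -/
def weighted_P (r : ℕ) (Λ : ℤ) (m : ℕ) (u : ℤ × ℤ) : Prop :=
  ∃ t : Fin m × Fin m, u - weighted_tr Λ t ∈ box (2 * r) (Λ - 2 * r)

/-- agreement outside the fill zones -/
def weighted_Rel {A : Type} (r : ℕ) (Λ : ℤ) (m : ℕ) (x y : ℤ × ℤ → A) : Prop :=
  ∀ u ∈ box (-(r : ℤ)) (Λ * m + r), ¬ weighted_P r Λ m u → x u = y u

/-- translate -/
def weighted_sh {A : Type} (Λ : ℤ) {m : ℕ} (t : Fin m × Fin m) (x : ℤ × ℤ → A) : ℤ × ℤ → A :=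
  fun u => x (u + weighted_tr Λ t)

theorem weighted_notP {r : ℕ} {Λ : ℤ} (hΛ : 0 < Λ) {m : ℕ} {t : Fin m × Fin m} {u : ℤ × ℤ}
    (h1 : u - weighted_tr Λ t ∈ box 0 Λ) (h2 : u - weighted_tr Λ t ∉ box (2 * r) (Λ - 2 * r)) :
    ¬ weighted_P r Λ m u := by
  rintro ⟨t', ht'⟩
  have h3 : u - weighted_tr Λ t' ∈ box 0 Λ :=
    weighted_box_mono (by positivity) (by have : (0:ℤ) ≤ r := Int.natCast_nonneg r; linarith) ht'
  rw [weighted_unique hΛ h1 h3] at h2
  exact h2 ht'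

theorem weighted_frame {A B : Type} (Y : Sys A B) {Λ : ℤ} (hΛ : 0 < Λ) {m : ℕ}
    (x y : ℤ × ℤ → A) (h : weighted_Rel Y.r Λ m x y) (t : Fin m × Fin m) :
    SameFrame Y Λ (weighted_sh Λ t x) (weighted_sh Λ t y) := by
  intro u hu hu2
  have e : u + weighted_tr Λ t - weighted_tr Λ t = u := add_sub_cancel_right _ _
  apply h
  · refine weighted_box_mono ?_ ?_ (weighted_in hΛ (t := t) (u := u + weighted_tr Λ t) (by rwa [e]))
    · have : (0:ℤ) ≤ Y.r := Int.natCast_nonneg _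
      linarith
    · have : (0:ℤ) ≤ Y.r := Int.natCast_nonneg _
      linarith
  · exact weighted_notP hΛ (t := t) (by rwa [e]) (by rwa [e])

theorem weighted_near_notP {r : ℕ} {Λ : ℤ} {m : ℕ} {v u : ℤ × ℤ} (hvu : near r v u)
    (hv : ∀ t : Fin m × Fin m, v - weighted_tr Λ t ∉ box r (Λ - r)) : ¬ weighted_P r Λ m u := by
  rintro ⟨t, ht⟩
  exact hv t (weighted_VD hvu ht)

theorem weighted_B {A B : Type} [Fintype A] [Finite B] (Y : Sys A B) {Λ : ℤ} (hΛ : 0 < Λ) (m : ℕ)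
    (I : Type) [Fintype I] (x : I → (ℤ × ℤ → A)) (hx : ∀ i, x i ∈ Y.X)
    (hinj : ∀ i j, (∀ v ∈ box 0 (Λ * m), Y.φ (x i) v = Y.φ (x j) v) → i = j) (i0 : I) :
    Nat.card {i // weighted_Rel Y.r Λ m (x i) (x i0)} ≤
      ∏ t : Fin m × Fin m, Nat.card (weighted_Cont Y Λ (weighted_sh Λ t (x i0))) := by
  rw [← Nat.card_pi]
  let H : {i // weighted_Rel Y.r Λ m (x i) (x i0)} →
      ∀ t : Fin m × Fin m, weighted_Cont Y Λ (weighted_sh Λ t (x i0)) := fun i t =>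
    ⟨fun v => Y.φ (weighted_sh Λ t (x i.1)) v.1, weighted_sh Λ t (x i.1),
      Y.inv _ (hx i.1) _, weighted_frame Y hΛ _ _ i.2 t, rfl⟩
  refine Nat.card_le_card_of_injective H ?_
  intro i j hij
  apply Subtype.ext
  apply hinj
  intro v hv
  obtain ⟨t, ht⟩ := weighted_exists hΛ hv
  by_cases hD : v - weighted_tr Λ t ∈ box Y.r (Λ - Y.r)
  · have h1 := congrFun (congrArg Subtype.val (congrFun hij t)) ⟨v - weighted_tr Λ t, hD⟩
    have h2 : Y.φ (weighted_sh Λ t (x i.1)) (v - weighted_tr Λ t) =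
        Y.φ (weighted_sh Λ t (x j.1)) (v - weighted_tr Λ t) := h1
    have h3 : ∀ k : I, Y.φ (weighted_sh Λ t (x k)) (v - weighted_tr Λ t) = Y.φ (x k) v := by
      intro k
      have h4 := congrFun (Y.com (x k) (hx k) (weighted_tr Λ t)) (v - weighted_tr Λ t)
      refine h4.trans ?_
      show Y.φ (x k) (v - weighted_tr Λ t + weighted_tr Λ t) = _
      rw [sub_add_cancel]
    rw [h3, h3] at h2
    exact h2
  · apply Y.win _ (hx _) _ (hx _)
    intro u hu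
    have hu1 : u ∈ box (-(Y.r : ℤ)) (Λ * m + Y.r) := weighted_big hu hv
    have hu2 : ¬ weighted_P Y.r Λ m u := by
      refine weighted_near_notP hu fun t' ht' => ?_
      have h5 : v - weighted_tr Λ t' ∈ box 0 Λ :=
        weighted_box_mono (by positivity)
          (by have : (0:ℤ) ≤ Y.r := Int.natCast_nonneg _; linarith) ht'
      rw [weighted_unique hΛ h5 ht] at ht'
      exact hD ht'
    rw [i.2 u hu1 hu2, j.2 u hu1 hu2]

theorem weighted_C {A B : Type} [Fintype A] [Finite B] (Y : Sys A B) {Λ : ℤ} (hΛ : 0 < Λ) (m : ℕ)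
    (y : ℤ × ℤ → A) (hy : y ∈ Y.X) :
    ∏ t : Fin m × Fin m, Nat.card (weighted_Fill Y Λ (weighted_sh Λ t y)) ≤
      Nat.card {s : box (-(Y.r : ℤ)) (Λ * m + Y.r) → A //
        s ∈ ((fun (y : ℤ × ℤ → A) (u : box (-(Y.r : ℤ)) (Λ * m + Y.r)) => y u.1) '' Y.X) ∧
          ∀ u, ¬ weighted_P Y.r Λ m u.1 → s u = y u.1} := by
  classical
  rw [← Nat.card_pi]
  have hch : ∀ (f : ∀ t : Fin m × Fin m, weighted_Fill Y Λ (weighted_sh Λ t y))
      (t : Fin m × Fin m), ∃ x ∈ Y.X, SameFrame Y Λ x (weighted_sh Λ t y) ∧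
        (f t).1 = fun u => x u.1 := fun f t => (f t).2
  choose g hgX hgS hgf using hch
  -- the glued configuration
  let Z : (∀ t : Fin m × Fin m, weighted_Fill Y Λ (weighted_sh Λ t y)) → ℤ × ℤ → A := fun f u =>
    if h : weighted_P Y.r Λ m u then g f h.choose (u - weighted_tr Λ h.choose) else y u
  have hr0 : (0 : ℤ) ≤ Y.r := Int.natCast_nonneg _
  have hZ1 : ∀ f (t : Fin m × Fin m) (u : ℤ × ℤ),
      u - weighted_tr Λ t ∈ box (2 * Y.r) (Λ - 2 * Y.r) → Z f u = g f t (u - weighted_tr Λ t) := by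
    intro f t u hu
    have h : weighted_P Y.r Λ m u := ⟨t, hu⟩
    have h1 : h.choose = t := by
      have h2 := h.choose_spec
      exact weighted_unique hΛ (weighted_box_mono (by positivity) (by linarith) h2)
        (weighted_box_mono (by positivity) (by linarith) hu)
    have h3 : Z f u = g f h.choose (u - weighted_tr Λ h.choose) := dif_pos h
    rw [h3, h1]
  have hZ2 : ∀ f (u : ℤ × ℤ), ¬ weighted_P Y.r Λ m u → Z f u = y u := by
    intro f u h
    exact dif_neg h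
  have hZX : ∀ f, Z f ∈ Y.X := by
    intro f
    apply Y.loc
    intro v
    by_cases hv : ∃ t : Fin m × Fin m, v - weighted_tr Λ t ∈ box Y.r (Λ - Y.r)
    · obtain ⟨t, ht⟩ := hv
      refine ⟨fun u => g f t (u + -weighted_tr Λ t), Y.inv _ (hgX f t) _, ?_⟩
      intro u hu
      have hu0 : u - weighted_tr Λ t ∈ box 0 Λ := weighted_DE hu ht
      show Z f u = g f t (u + -weighted_tr Λ t)
      rw [← sub_eq_add_neg]
      by_cases hV : u - weighted_tr Λ t ∈ box (2 * Y.r) (Λ - 2 * Y.r)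
      · exact hZ1 f t u hV
      · rw [hZ2 f u (weighted_notP hΛ hu0 hV), hgS f t _ hu0 hV]
        show y u = y (u - weighted_tr Λ t + weighted_tr Λ t)
        rw [sub_add_cancel]
    · push Not at hv
      exact ⟨y, hy, fun u hu => hZ2 f u (weighted_near_notP hu hv)⟩
  let H : (∀ t : Fin m × Fin m, weighted_Fill Y Λ (weighted_sh Λ t y)) →
      {s : box (-(Y.r : ℤ)) (Λ * m + Y.r) → A //
        s ∈ ((fun (y : ℤ × ℤ → A) (u : box (-(Y.r : ℤ)) (Λ * m + Y.r)) => y u.1) '' Y.X) ∧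
          ∀ u, ¬ weighted_P Y.r Λ m u.1 → s u = y u.1} := fun f =>
    ⟨fun u => Z f u.1, ⟨Z f, hZX f, rfl⟩, fun u hu => hZ2 f u.1 hu⟩
  refine Nat.card_le_card_of_injective H ?_
  intro f f' hff
  funext t
  apply Subtype.ext
  funext u
  have e : u.1 + weighted_tr Λ t - weighted_tr Λ t = u.1 := add_sub_cancel_right _ _
  have hu1 : u.1 + weighted_tr Λ t ∈ box (-(Y.r : ℤ)) (Λ * m + Y.r) := by
    refine weighted_box_mono (a := 0) (b := Λ * m) (by linarith) (by linarith)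
      (weighted_in hΛ (t := t) (by
        rw [e]
        exact weighted_box_mono (by positivity) (by linarith) u.2))
  have h1 := congrFun (congrArg Subtype.val hff) ⟨u.1 + weighted_tr Λ t, hu1⟩
  have h2 : Z f (u.1 + weighted_tr Λ t) = Z f' (u.1 + weighted_tr Λ t) := h1
  rw [hZ1 f t _ (by rw [e]; exact u.2), hZ1 f' t _ (by rw [e]; exact u.2), e] at h2
  rw [hgf f t, hgf f' t]
  exact h2

theorem weighted_good {A B : Type} (Y : Sys A B) (Λ : ℤ) (γ γ' : ℤ × ℤ → A)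
    (h : SameFrame Y Λ γ γ') : Good Y Λ γ ↔ Good Y Λ γ' := by
  have h1 : ∀ x : ℤ × ℤ → A, SameFrame Y Λ x γ ↔ SameFrame Y Λ x γ' := by
    intro x
    constructor
    · intro hx u hu hu2
      rw [hx u hu hu2, h u hu hu2]
    · intro hx u hu hu2
      rw [hx u hu hu2, h u hu hu2]
  unfold Good
  simp only [h1]

theorem weighted_gCount {A B : Type} (Y : Sys A B) {Λ : ℤ} (hΛ : 0 < Λ) (m : ℕ)
    (x y : ℤ × ℤ → A) (h : weighted_Rel Y.r Λ m x y) : gCount Y Λ m x = gCount Y Λ m y := by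
  classical
  unfold gCount
  congr 1
  ext t
  simp only [Finset.mem_filter, Finset.mem_univ, true_and]
  exact weighted_good Y Λ _ _ (weighted_frame Y hΛ x y h t)

open Classical in
theorem weighted_qg {A B : Type} (Y : Sys A B) (Λ : ℤ) (m : ℕ) (x : ℤ × ℤ → A) (q : ℝ) :
    q ^ (gCount Y Λ m x) =
      ∏ t : Fin m × Fin m, q ^ (if Good Y Λ (weighted_sh Λ t x) then 1 else 0) := by
  rw [Finset.prod_pow_eq_pow_sum]
  congr 1
  unfold gCount
  rw [Finset.card_filter]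
  rfl

open Classical in
/-- the part outside of the fill zones -/
noncomputable def weighted_out {A : Type} (r : ℕ) (Λ : ℤ) (m : ℕ)
    (s : box (-(r : ℤ)) (Λ * m + r) → A) : box (-(r : ℤ)) (Λ * m + r) → Option A :=
  fun u => if weighted_P r Λ m u.1 then none else some (s u)

theorem weighted_out_iff {A : Type} (r : ℕ) (Λ : ℤ) (m : ℕ)
    (s s' : box (-(r : ℤ)) (Λ * m + r) → A) : weighted_out r Λ m s = weighted_out r Λ m s' ↔
      ∀ u, ¬ weighted_P r Λ m u.1 → s u = s' u := by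
  constructor
  · intro h u hu
    have h1 := congrFun h u
    unfold weighted_out at h1
    rw [if_neg hu, if_neg hu] at h1
    exact Option.some.inj h1
  · intro h
    funext u
    unfold weighted_out
    split_ifs with hu
    · rfl
    · rw [h u hu]

theorem weighted_h3 {A : Type} [Finite A] (r : ℕ) (Λ : ℤ) (m : ℕ) (I : Type) [Fintype I]
    [DecidableEq (box (-(r : ℤ)) (Λ * m + r) → Option A)] (x : I → (ℤ × ℤ → A)) (i0 : I) :
    (Finset.univ.filter (fun i => weighted_out r Λ m (fun u => x i u.1) =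
      weighted_out r Λ m (fun u => x i0 u.1))).card =
        Nat.card {i // weighted_Rel r Λ m (x i) (x i0)} := by
  classical
  rw [← Fintype.card_subtype, ← Nat.card_eq_fintype_card]
  refine Nat.card_congr (Equiv.subtypeEquivRight fun i => ?_)
  refine (weighted_out_iff r Λ m _ _).trans ?_
  constructor
  · intro h u hu hP
    exact h ⟨u, hu⟩ hP
  · intro h u hP
    exact h u.1 u.2 hP

theorem weighted_h6 {A : Type} [Fintype A] (r : ℕ) (Λ : ℤ) (m : ℕ)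
    [DecidableEq (box (-(r : ℤ)) (Λ * m + r) → Option A)]
    (S : Set (box (-(r : ℤ)) (Λ * m + r) → A)) [Fintype S] (y : ℤ × ℤ → A) :
    Nat.card {s : box (-(r : ℤ)) (Λ * m + r) → A //
          s ∈ S ∧ ∀ u, ¬ weighted_P r Λ m u.1 → s u = y u.1} =
      ((Set.toFinset S).filter (fun s => weighted_out r Λ m s =
        weighted_out r Λ m (fun u => y u.1))).card := by
  classical
  rw [Nat.card_eq_fintype_card, Fintype.card_subtype]
  congr 1
  ext s
  simp only [Finset.mem_filter, Finset.mem_univ, true_and, Set.mem_toFinset]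
  exact and_congr_right fun _ => (weighted_out_iff r Λ m s _).symm

theorem weighted_calc {A B : Type} [Fintype A] [Finite B] (Y : Sys A B) (Λ : ℤ) (hΛ : 0 < Λ)
    (m : ℕ) (y : ℤ × ℤ → A) (a b : ℕ)
    (h4 : a ≤ ∏ t : Fin m × Fin m, Nat.card (weighted_Cont Y Λ (weighted_sh Λ t y)))
    (h5 : ∏ t : Fin m × Fin m, Nat.card (weighted_Fill Y Λ (weighted_sh Λ t y)) ≤ b) :
    (a : ℝ) * (1 + 1 / (Fintype.card A : ℝ) ^ (box (2 * Y.r) (Λ - 2 * Y.r)).card) ^
      (gCount Y Λ m y) ≤ b := by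
  classical
  have hq0 : 0 ≤ 1 + 1 / (Fintype.card A : ℝ) ^ (box (2 * Y.r) (Λ - 2 * Y.r)).card := by
    positivity
  calc (a : ℝ) * (1 + 1 / (Fintype.card A : ℝ) ^ (box (2 * Y.r) (Λ - 2 * Y.r)).card) ^
      (gCount Y Λ m y)
      ≤ (∏ t : Fin m × Fin m, (Nat.card (weighted_Cont Y Λ (weighted_sh Λ t y)) : ℝ)) *
        (1 + 1 / (Fintype.card A : ℝ) ^ (box (2 * Y.r) (Λ - 2 * Y.r)).card) ^
          (gCount Y Λ m y) := by
        refine mul_le_mul_of_nonneg_right ?_ (pow_nonneg hq0 _)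
        rw [← Nat.cast_prod]
        exact Nat.cast_le.2 h4
    _ = ∏ t : Fin m × Fin m, ((Nat.card (weighted_Cont Y Λ (weighted_sh Λ t y)) : ℝ) *
        (1 + 1 / (Fintype.card A : ℝ) ^ (box (2 * Y.r) (Λ - 2 * Y.r)).card) ^
          (if Good Y Λ (weighted_sh Λ t y) then 1 else 0)) := by
        rw [weighted_qg, Finset.prod_mul_distrib]
    _ ≤ ∏ t : Fin m × Fin m, (Nat.card (weighted_Fill Y Λ (weighted_sh Λ t y)) : ℝ) := by
        refine Finset.prod_le_prod (fun t _ => mul_nonneg (Nat.cast_nonneg _)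
          (pow_nonneg hq0 _)) fun t _ => ?_
        convert weighted_A' Y Λ (weighted_sh Λ t y)
    _ ≤ _ := by
        rw [← Nat.cast_prod]
        exact Nat.cast_le.2 h5

/-- Weighted count. `x i` are points of `X` whose images are pairwise different on `[0, mΛ)^2`. -/
theorem weighted {A B : Type} [Fintype A] [Finite B] (Y : Sys A B) (Λ : ℤ) (hΛ : 4 * (Y.r : ℤ) < Λ) (m : ℕ)
    (I : Type) [Fintype I] (x : I → (ℤ × ℤ → A)) (hx : ∀ i, x i ∈ Y.X)
    (hinj : ∀ i j, (∀ v ∈ box 0 (Λ * m), Y.φ (x i) v = Y.φ (x j) v) → i = j) :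
    ∑ i, (1 + 1 / (Fintype.card A : ℝ) ^ (box (2 * Y.r) (Λ - 2 * Y.r)).card) ^ (gCount Y Λ m (x i)) ≤
      (((fun (y : ℤ × ℤ → A) (u : box (-(Y.r : ℤ)) (Λ * m + Y.r)) => y u.1) '' Y.X).ncard : ℝ) := by
  classical
  have hΛ0 : 0 < Λ := by
    have : (0:ℤ) ≤ Y.r := Int.natCast_nonneg _
    linarith
  generalize hS : ((fun (y : ℤ × ℤ → A) (u : box (-(Y.r : ℤ)) (Λ * m + Y.r)) => y u.1) '' Y.X) = S
  have hC := weighted_C Y hΛ0 m
  rw [hS] at hC
  have hmain : ∀ w : box (-(Y.r : ℤ)) (Λ * m + Y.r) → Option A,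
      ∑ i ∈ Finset.univ.filter (fun i => weighted_out Y.r Λ m (fun u => x i u.1) = w),
        (1 + 1 / (Fintype.card A : ℝ) ^ (box (2 * Y.r) (Λ - 2 * Y.r)).card) ^
          (gCount Y Λ m (x i)) ≤
      (((Set.toFinset S).filter (fun s => weighted_out Y.r Λ m s = w)).card : ℝ) := by
    intro w
    rcases (Finset.univ.filter
      (fun i => weighted_out Y.r Λ m (fun u => x i u.1) = w)).eq_empty_or_nonempty
      with he | ⟨i0, hi0⟩
    · rw [he, Finset.sum_empty]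
      exact Nat.cast_nonneg _
    · have hw : weighted_out Y.r Λ m (fun u => x i0 u.1) = w := (Finset.mem_filter.1 hi0).2
      subst hw
      have h1 : ∀ i ∈ Finset.univ.filter (fun i => weighted_out Y.r Λ m (fun u => x i u.1) =
          weighted_out Y.r Λ m (fun u => x i0 u.1)),
          (1 + 1 / (Fintype.card A : ℝ) ^ (box (2 * Y.r) (Λ - 2 * Y.r)).card) ^
            (gCount Y Λ m (x i)) =
          (1 + 1 / (Fintype.card A : ℝ) ^ (box (2 * Y.r) (Λ - 2 * Y.r)).card) ^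
            (gCount Y Λ m (x i0)) := by
        intro i hi
        have h2 := (weighted_out_iff Y.r Λ m _ _).1 (Finset.mem_filter.1 hi).2
        rw [weighted_gCount Y hΛ0 m (x i) (x i0) (fun u hu hP => h2 ⟨u, hu⟩ hP)]
      rw [Finset.sum_congr rfl h1, Finset.sum_const, nsmul_eq_mul]
      have h4 := weighted_B Y hΛ0 m I x hx hinj i0
      have h5 := hC (x i0) (hx i0)
      rw [← weighted_h3 Y.r Λ m I x i0] at h4
      rw [weighted_h6] at h5
      exact weighted_calc Y Λ hΛ0 m (x i0) _ _ h4 h5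
  rw [← Finset.sum_fiberwise (Finset.univ : Finset I)
    (fun i => weighted_out Y.r Λ m (fun u => x i u.1))]
  refine (Finset.sum_le_sum fun w _ => hmain w).trans ?_
  rw [Set.ncard_eq_toFinset_card', Finset.card_eq_sum_card_fiberwise
    (f := weighted_out Y.r Λ m) (t := Finset.univ) (fun s _ => Finset.mem_univ _)]
  rw [Nat.cast_sum]

end Pool.Agent.Helper830.Weiss
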