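import Pool.Agent.Helper830.Weiss.Class
import Pool.Agent.Helper830.Weiss.CountF
import Pool.Agent.Helper830.Weiss.WCount
import Pool.Agent.Helper830.Weiss.Num
import Pool.Agent.Helper830.Weiss.CHL

set_option autoImplicit false
open Filter Topology

namespace Pool.Agent.Helper830.Weiss

theorem card_U (s : ℕ) : Fintype.card (U s) = 2 ^ (s * s) := by
  simp [U]

/-- every window system onto `S` has entropy bigger than `S` -/
theorem sys_main {A : Type} [Fintype A] (Y : Sys A Vis) (hS : Y.φ '' Y.X = S) (hne : Y.X.Nonempty)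
    (hA hSe : ℝ) (h1 : HasEntropy Y.X hA) (h2 : ∀ n : ℕ, 0 < n → hSe * (n : ℝ) ^ 2 ≤ Real.log (pat S n)) :
    hSe < hA := by
  classical
  obtain ⟨s, hs, hsU⟩ := num1 (Fintype.card A) Y.r
  rw [← card_U] at hsU
  have hU2 : 1 < Fintype.card (U s) := by omega
  have hQpos : 0 < (Qs s).card := by
    obtain ⟨x, y, hxy⟩ := Fintype.one_lt_card_iff.1 hU2
    exact Finset.card_pos.2 ⟨(x, y), (mem_Qs s _).2 hxy⟩
  have hQR : (0 : ℝ) < ((Qs s).card : ℝ) := by exact_mod_cast hQpos
  have hUR : (0 : ℝ) < (Fintype.card (U s) : ℝ) := by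
    have : 0 < Fintype.card (U s) := by omega
    exact_mod_cast this
  set θ : ℝ := 1 / (2 * (Fintype.card (U s) : ℝ) * ((Qs s).card : ℝ)) with hθdef
  have hθ : 0 < θ := by positivity
  have hθ2 : (Fintype.card (U s) : ℝ) * (((Qs s).card : ℝ) * θ) < 1 := by
    rw [hθdef]
    have : (Fintype.card (U s) : ℝ) * (((Qs s).card : ℝ) * (1 / (2 * (Fintype.card (U s) : ℝ) *
      ((Qs s).card : ℝ)))) = 1 / 2 := by
      field_simp
    rw [this]
    norm_num
  obtain ⟨M, hM1, hM⟩ := num2 (Fintype.card A) (2 * s + 2 * Y.r + 1) Y.r θ hθ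
  set Λ : ℕ := (2 * s + 2 * Y.r + 1) * M + 4 * Y.r + 2 with hΛdef
  have hΛ : (Λ : ℤ) = Lam s Y.r M := by
    rw [hΛdef, Lam]
    push_cast
    ring
  have hΛpos : 4 * (Y.r : ℤ) < Λ := by
    rw [hΛdef]
    push_cast
    nlinarith [show (0:ℤ) ≤ (2 * (s:ℤ) + 2 * Y.r + 1) * M by positivity]
  have hframe : (frame (Lam s Y.r M) Y.r).card =
      ((2 * s + 2 * Y.r + 1) * M + 4 * Y.r + 2) ^ 2 - ((2 * s + 2 * Y.r + 1) * M + 2) ^ 2 := by
    have hsub : box (2 * (Y.r : ℤ)) (Lam s Y.r M - 2 * Y.r) ⊆ box 0 (Lam s Y.r M) := by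
      intro u hu
      rw [mem_box] at hu ⊢
      omega
    unfold frame
    rw [Finset.card_sdiff_of_subset hsub, box, box, Finset.card_product, Finset.card_product, Int.card_Ico,
      Int.card_Ico]
    have e1 : (Lam s Y.r M - 0).toNat = (2 * s + 2 * Y.r + 1) * M + 4 * Y.r + 2 := by
      rw [← hΛ, hΛdef]; omega
    have e2 : (Lam s Y.r M - 2 * (Y.r : ℤ) - 2 * (Y.r : ℤ)).toNat = (2 * s + 2 * Y.r + 1) * M + 2 := by
      rw [← hΛ, hΛdef]; omega
    rw [e1, e2]
    ring_nf
  have hMN : ((Fintype.card A ^ (frame (Lam s Y.r M) Y.r).card : ℕ) : ℝ) < (1 + θ) ^ (M * M) := by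
    rw [hframe]
    push_cast
    exact hM
  have hheart : ∀ γ : ℤ × ℤ → A, ¬ Good Y (Lam s Y.r M) γ →
      (Ts Y s M γ).card * Fintype.card A ^ (frame (Lam s Y.r M) Y.r).card < (Qs s).card ^ (M * M) :=
    fun γ hγ => heart Y hS s M hs _ hsU θ hθ hθ2 hMN γ hγ
  have hclass := class_lemma Y hS s M hs hQpos hheart
  rw [← hΛ] at hclass
  obtain ⟨ε, hε, hcount⟩ := count_final Y hne Λ hΛpos
    (fun m I _ x hx hinj => weighted Y Λ hΛpos m I x hx hinj) hclass
  rw [hS] at hcount
  exact limit_step (fun n => Real.log (pat Y.X n)) (fun n => Real.log (pat S n)) hA hSe ε Λ Y.r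
    (by rw [hΛdef]; omega) hε h1 h2 hcount

/-- a shift of finite type over the alphabet `Fin k` -/
def IsSFT {k : ℕ} (X : Set (ℤ × ℤ → Fin k)) : Prop :=
  X.Nonempty ∧ ∃ (C : Finset (ℤ × ℤ)) (P : Set (C → Fin k)),
    X = {x | ∀ v : ℤ × ℤ, (fun u : C => x (v + u.1)) ∈ P}

/-- a shift: nonempty, closed, translation invariant -/
def IsShift {k : ℕ} (X : Set (ℤ × ℤ → Fin k)) : Prop :=
  X.Nonempty ∧ IsClosed X ∧ ∀ x ∈ X, ∀ v : ℤ × ℤ, (fun u => x (u + v)) ∈ X

/-- `φ` is a factor code from `X` onto `Y` -/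
def IsFactorCode {k l : ℕ} (X : Set (ℤ × ℤ → Fin k)) (Y : Set (ℤ × ℤ → Fin l))
    (φ : (ℤ × ℤ → Fin k) → (ℤ × ℤ → Fin l)) : Prop :=
  ContinuousOn φ X ∧ (∀ x ∈ X, ∀ v : ℤ × ℤ, φ (fun u => x (u + v)) = fun u => φ x (u + v)) ∧ φ '' X = Y

/-- a sofic shift -/
def IsSofic {l : ℕ} (Y : Set (ℤ × ℤ → Fin l)) : Prop :=
  ∃ (k : ℕ) (X : Set (ℤ × ℤ → Fin k)), IsSFT X ∧ ∃ φ, IsFactorCode X Y φ

theorem IsSFT.isShift {k : ℕ} {X : Set (ℤ × ℤ → Fin k)} (h : IsSFT X) : IsShift X := by
  obtain ⟨hne, C, P, rfl⟩ := h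
  refine ⟨hne, ?_, ?_⟩
  · have : {x : ℤ × ℤ → Fin k | ∀ v : ℤ × ℤ, (fun u : C => x (v + u.1)) ∈ P} =
        ⋂ v : ℤ × ℤ, (fun (x : ℤ × ℤ → Fin k) (u : C) => x (v + u.1)) ⁻¹' P := by
      ext x; simp
    rw [this]
    apply isClosed_iInter
    intro v
    apply IsClosed.preimage
    · exact continuous_pi fun u => continuous_apply _
    · exact isClosed_discrete P
  · intro x hx v w
    have := hx (w + v)
    simp only [add_right_comm w v] at this
    exact this

theorem IsSofic.isShift {l : ℕ} {Y : Set (ℤ × ℤ → Fin l)} (h : IsSofic Y) : IsShift Y := by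
  obtain ⟨k, X, hX, φ, hc, he, rfl⟩ := h
  obtain ⟨hne, hcl, hinv⟩ := hX.isShift
  refine ⟨hne.image _, (hcl.isCompact.image_of_continuousOn hc).isClosed, ?_⟩
  rintro _ ⟨x, hx, rfl⟩ v
  exact ⟨_, hinv x hx v, he x hx v⟩

/-- the encoding of the visible alphabet -/
noncomputable def eV : Vis ≃ Fin (Fintype.card Vis) := Fintype.equivFin Vis

/-- the encoding of the hidden alphabet -/
noncomputable def eH : St ≃ Fin (Fintype.card St) := Fintype.equivFin St

/-- the sofic shift over `Fin k` -/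
noncomputable def SF : Set (ℤ × ℤ → Fin (Fintype.card Vis)) := {s | (fun v => eV.symm (s v)) ∈ S}

/-- the hidden shift over `Fin k` -/
noncomputable def XF : Set (ℤ × ℤ → Fin (Fintype.card St)) := {x | (fun v => eH.symm (x v)) ∈ X0}

theorem XF_sft : IsSFT XF := by
  refine ⟨⟨fun _ => eH St.hash, ?_⟩, {(0, 0), (1, 0), (0, 1), (1, 1)},
    {p | ok1 (eH.symm (p ⟨(0, 0), by simp⟩)) = true ∧
      okE (eH.symm (p ⟨(0, 0), by simp⟩)) (eH.symm (p ⟨(1, 0), by simp⟩)) = true ∧
      okN (eH.symm (p ⟨(0, 0), by simp⟩)) (eH.symm (p ⟨(0, 1), by simp⟩)) = true ∧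
      okD (eH.symm (p ⟨(0, 0), by simp⟩)) (eH.symm (p ⟨(1, 1), by simp⟩)) = true}, ?_⟩
  · change (fun v => eH.symm (eH St.hash)) ∈ X0
    intro v
    simp only [Equiv.symm_apply_apply]
    exact ⟨rfl, okE_left _, okN_left _, rfl⟩
  · ext x
    simp only [XF, X0, Set.mem_setOf_eq]
    constructor
    · intro h v
      have := h v
      have e0 : v + (0, 0) = v := by ext <;> simp
      simp only [e0]
      exact this
    · intro h v
      have := h v
      have e0 : v + (0, 0) = v := by ext <;> simp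
      simp only [e0] at this
      exact this

theorem SF_sofic : IsSofic SF := by
  refine ⟨_, XF, XF_sft, fun x v => eV (vis (eH.symm (x v))), ?_, ?_, ?_⟩
  · apply Continuous.continuousOn
    apply continuous_pi
    intro v
    exact (continuous_of_discreteTopology (f := fun a : Fin (Fintype.card St) => eV (vis (eH.symm a)))).comp
      (continuous_apply v)
  · intro x _ v
    rfl
  · ext s
    constructor
    · rintro ⟨x, hx, rfl⟩
      refine ⟨fun v => eH.symm (x v), hx, fun v => ?_⟩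
      simp
    · rintro ⟨y, hy, hv⟩
      refine ⟨fun v => eH (y v), ?_, ?_⟩
      · change (fun v => eH.symm (eH (y v))) ∈ X0
        simpa using hy
      · funext v
        simp only [Equiv.symm_apply_apply]
        rw [← hv v]
        simp

theorem pat_SF (n : ℕ) : pat SF n = pat S n := by
  unfold pat
  have : (fun (x : ℤ × ℤ → Vis) (i : Fin n × Fin n) => x ((i.1 : ℤ), (i.2 : ℤ))) '' S =
      (fun (p : Fin n × Fin n → Fin (Fintype.card Vis)) i => eV.symm (p i)) ''
        ((fun (x : ℤ × ℤ → Fin (Fintype.card Vis)) (i : Fin n × Fin n) => x ((i.1 : ℤ), (i.2 : ℤ))) '' SF) := by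
    ext p
    constructor
    · rintro ⟨s, hs, rfl⟩
      refine ⟨_, ⟨fun v => eV (s v), ?_, rfl⟩, ?_⟩
      · change (fun v => eV.symm (eV (s v))) ∈ S
        simpa using hs
      · funext i
        simp
    · rintro ⟨_, ⟨s, hs, rfl⟩, rfl⟩
      exact ⟨_, hs, rfl⟩
  rw [this]
  symm
  apply Set.ncard_image_of_injective
  intro p q h
  funext i
  exact eV.symm.injective (congrFun h i)

/-- The answer: for `d = 2` there is a sofic shift all of whose covers of finite type have bigger entropy. -/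
theorem weiss : ∃ (l : ℕ) (Y : Set (ℤ × ℤ → Fin l)), IsSofic Y ∧ ∃ h : ℝ, HasEntropy Y h ∧
    ∀ (k : ℕ) (X : Set (ℤ × ℤ → Fin k)), IsSFT X → (∃ φ, IsFactorCode X Y φ) →
      ∃ h' : ℝ, HasEntropy X h' ∧ h < h' := by
  classical
  obtain ⟨hYne, hYcl, hYinv⟩ := SF_sofic.isShift
  obtain ⟨h, hent, _, hle⟩ := entropy_exists SF hYne hYinv
  refine ⟨_, SF, SF_sofic, h, hent, ?_⟩
  rintro k X hX ⟨φ, hφc, hφe, hφi⟩
  obtain ⟨hXne, hXcl, hXinv⟩ := hX.isShift
  obtain ⟨h', hent', _, _⟩ := entropy_exists X hXne hXinv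
  refine ⟨h', hent', ?_⟩
  obtain ⟨r₁, hr₁⟩ := chl X hXcl hXinv φ hφc hφe
  obtain ⟨_, C, P, hXP⟩ := hX
  -- a common radius
  obtain ⟨r₂, hr₂⟩ : ∃ r₂ : ℕ, ∀ u ∈ C, |u.1| ≤ r₂ ∧ |u.2| ≤ r₂ := by
    refine ⟨C.sup (fun u => u.1.natAbs + u.2.natAbs), fun u hu => ?_⟩
    have := Finset.le_sup (f := fun u : ℤ × ℤ => u.1.natAbs + u.2.natAbs) hu
    rw [Int.abs_eq_natAbs, Int.abs_eq_natAbs]
    constructor <;> omega
  let Y : Sys (Fin k) Vis :=
    { X := X
      φ := fun x v => eV.symm (φ x v)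
      r := max r₁ r₂
      loc := by
        intro z hz
        rw [hXP]
        intro v
        obtain ⟨x, hx, hxz⟩ := hz v
        rw [hXP] at hx
        have h1 := hx v
        have h2 : (fun u : C => z (v + u.1)) = fun u : C => x (v + u.1) := by
          funext u
          apply hxz
          obtain ⟨a1, a2⟩ := hr₂ u.1 u.2
          constructor
          · simp only [Prod.fst_add, add_sub_cancel_left]
            push_cast
            exact le_trans a1 (le_max_right _ _)
          · simp only [Prod.snd_add, add_sub_cancel_left]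
            push_cast
            exact le_trans a2 (le_max_right _ _)
        rw [h2]
        exact h1
      win := by
        intro x hx x' hx' v hv
        have := hr₁ x hx x' hx' v (fun u h1 h2 => hv u ⟨?_, ?_⟩)
        · simp only [this]
        · push_cast
          exact le_trans h1 (le_max_left _ _)
        · push_cast
          exact le_trans h2 (le_max_left _ _)
      inv := hXinv
      com := by
        intro x hx v
        funext u
        simp only [hφe x hx v] }
  have hYS : Y.φ '' Y.X = S := by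
    ext s
    constructor
    · rintro ⟨x, hx, rfl⟩
      have : φ x ∈ SF := by rw [← hφi]; exact ⟨x, hx, rfl⟩
      exact this
    · intro hs
      have : (fun v => eV (s v)) ∈ SF := by
        change (fun v => eV.symm (eV (s v))) ∈ S
        simpa using hs
      rw [← hφi] at this
      obtain ⟨x, hx, hxs⟩ := this
      refine ⟨x, hx, ?_⟩
      funext v
      change eV.symm (φ x v) = s v
      rw [hxs]
      simp
  exact sys_main Y hYS hXne h' h hent' (fun n hn => by rw [← pat_SF]; exact hle n hn)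

end Pool.Agent.Helper830.Weiss
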